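import Mathlib

set_option autoImplicit false

/-!
# m-groups, their varieties, products of varieties

An `m`-group is a lattice-ordered group with a unary operation `st` (written `x_*` on paper) which
is an involutive automorphism of the group and an anti-automorphism of the lattice.
-/

namespace Pool.Agent.Lib.MP_67fdd1_al

/-- Lattice-ordered groups. -/
class LGroup (G : Type) extends Group G, Lattice G where
  /-- left translations are monotone -/
  mul_le_left : ∀ a b c : G, a ≤ b → c * a ≤ c * b
  /-- right translations are monotone -/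
  mul_le_right : ∀ a b c : G, a ≤ b → a * c ≤ b * c

/-- `m`-groups: lattice-ordered groups with an involutive group automorphism `st` which reverses
the lattice operations. -/
class MGroup (G : Type) extends LGroup G where
  /-- the unary operation `x_*` -/
  st : G → G
  st_mul : ∀ a b : G, st (a * b) = st a * st b
  st_st : ∀ a : G, st (st a) = a
  st_sup : ∀ a b : G, st (a ⊔ b) = st a ⊓ st b
  st_inf : ∀ a b : G, st (a ⊓ b) = st a ⊔ st b

/-- Terms in the signature of `m`-groups, with variables indexed by the natural numbers. -/
inductive MTerm : Type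
  | var : ℕ → MTerm
  | one : MTerm
  | mul : MTerm → MTerm → MTerm
  | inv : MTerm → MTerm
  | sup : MTerm → MTerm → MTerm
  | inf : MTerm → MTerm → MTerm
  | st : MTerm → MTerm

/-- The value of a term in an `m`-group under an assignment of the variables. -/
def MTerm.eval {G : Type} [MGroup G] (v : ℕ → G) : MTerm → G
  | .var i => v i
  | .one => 1
  | .mul a b => a.eval v * b.eval v
  | .inv a => (a.eval v)⁻¹
  | .sup a b => a.eval v ⊔ b.eval v
  | .inf a b => a.eval v ⊓ b.eval v
  | .st a => MGroup.st (a.eval v)

/-- Classes of `m`-groups. -/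
abbrev MClass : Type 1 := (G : Type) → [MGroup G] → Prop

/-- `Holds G p`: the identity `p.1 = p.2` holds in `G`. -/
def Holds (G : Type) [MGroup G] (p : MTerm × MTerm) : Prop :=
  ∀ v : ℕ → G, p.1.eval v = p.2.eval v

/-- A variety of `m`-groups: the class of all models of a set of identities. -/
def IsVariety (X : MClass) : Prop :=
  ∃ E : Set (MTerm × MTerm), ∀ (G : Type) [MGroup G], X G ↔ ∀ p ∈ E, Holds G p

/-- Homomorphisms of `m`-groups. -/
structure IsMHom {G H : Type} [MGroup G] [MGroup H] (f : G → H) : Prop where
  map_mul : ∀ a b : G, f (a * b) = f a * f b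
  map_sup : ∀ a b : G, f (a ⊔ b) = f a ⊔ f b
  map_inf : ∀ a b : G, f (a ⊓ b) = f a ⊓ f b
  map_st : ∀ a : G, f (MGroup.st a) = MGroup.st (f a)

/-- The product `X · Y` of two classes: the `m`-groups `G` with an `m`-ideal in `X` whose quotient
is in `Y`; that is, `G` is the middle term of a short exact sequence `N → G → K` of `m`-groups with
`N` in `X` and `K` in `Y`. -/
def Prd (X Y : MClass) : MClass := fun G _ =>
  ∃ (N : Type) (_ : MGroup N) (K : Type) (_ : MGroup K) (i : N → G) (p : G → K),
    IsMHom i ∧ Function.Injective i ∧ IsMHom p ∧ Function.Surjective p ∧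
      (∀ g : G, p g = 1 ↔ ∃ n : N, i n = g) ∧ X N ∧ Y K

/-- The class `𝒜` of abelian `m`-groups. -/
def ClassA : MClass := fun G _ => ∀ a b : G, a * b = b * a

/-- The class `𝒵` defined by the identity `x_* = x⁻¹`. -/
def ClassZ : MClass := fun G _ => ∀ a : G, MGroup.st a = a⁻¹

/-- `𝒵` for the digit `false` (0), `𝒜` for the digit `true` (1). -/
def Digit (b : Bool) : MClass := if b then ClassA else ClassZ

/-- `XFin ε n` is the product `X_1 · X_2 ⋯ X_{n+1}`, where `X_{i+1}` is given by the digit
`ε i`. -/
def XFin (ε : ℕ → Bool) : ℕ → MClass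
  | 0 => Digit (ε 0)
  | n + 1 => Prd (XFin ε n) (Digit (ε (n + 1)))

/-- `XEps ε` is the join, in the lattice of varieties, of the classes `XFin ε n`: the class of all
`m`-groups satisfying each identity which holds in all members of all `XFin ε n`. -/
def XEps (ε : ℕ → Bool) : MClass := fun G _ =>
  ∀ p : MTerm × MTerm, (∀ (n : ℕ) (H : Type) [MGroup H], XFin ε n H → Holds H p) → Holds G p

end Pool.Agent.Lib.MP_67fdd1_al
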