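import Mathlib
import Pool.Agent.Lib.MP_67fdd1_al.Defs

set_option autoImplicit false
set_option linter.unusedVariables false
set_option linter.unusedSectionVars false

namespace Pool.Agent.Lib.MP_67fdd1_al

open MGroup

instance {G : Type} [LGroup G] : MulLeftMono G := ⟨fun c a b h => LGroup.mul_le_left a b c h⟩
instance {G : Type} [LGroup G] : MulRightMono G := ⟨fun c a b h => LGroup.mul_le_right a b c h⟩

section StFacts
variable {G : Type} [MGroup G]

theorem st_one : st (1 : G) = 1 := by
  have h : st (1 : G) * st 1 = st 1 * 1 := by rw [← st_mul, mul_one, mul_one]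
  exact mul_left_cancel h

theorem st_inv (a : G) : st a⁻¹ = (st a)⁻¹ := by
  apply eq_inv_of_mul_eq_one_left
  rw [← st_mul, inv_mul_cancel, st_one]

theorem st_injective : Function.Injective (st : G → G) := fun a b h => by
  rw [← st_st a, h, st_st]

theorem st_anti {a b : G} (h : a ≤ b) : st b ≤ st a := by
  rw [← sup_eq_right] at h
  rw [← h, st_sup]
  exact inf_le_left

theorem st_le_iff {a b : G} : st b ≤ st a ↔ a ≤ b :=
  ⟨fun h => by have := st_anti h; rwa [st_st, st_st] at this, st_anti⟩

end StFacts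

/-- An action of a lattice-ordered group on a chain by order automorphisms for which the lattice
operations are computed pointwise. -/
class LAct (G Ω : Type) [LGroup G] [LinearOrder Ω] extends MulAction G Ω where
  sup_smul : ∀ (g h : G) (ω : Ω), (g ⊔ h) • ω = max (g • ω) (h • ω)
  inf_smul : ∀ (g h : G) (ω : Ω), (g ⊓ h) • ω = min (g • ω) (h • ω)
  smul_le : ∀ (g : G) (ω ω' : Ω), ω ≤ ω' → g • ω ≤ g • ω'

/-- Terms in negation normal form. -/
inductive NTerm : Type
  | lit : ℕ → Bool → Bool → NTerm
  | one : NTerm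
  | mul : NTerm → NTerm → NTerm
  | sup : NTerm → NTerm → NTerm
  | inf : NTerm → NTerm → NTerm

/-- apply the star and the inverse according to flags -/
def flag {G : Type} [MGroup G] (s e : Bool) (x : G) : G :=
  if e then (if s then st x else x)⁻¹ else (if s then st x else x)

/-- evaluation of terms in negation normal form -/
def NTerm.eval {G : Type} [MGroup G] (v : ℕ → G) : NTerm → G
  | .lit i s e => flag s e (v i)
  | .one => 1
  | .mul a b => a.eval v * b.eval v
  | .sup a b => a.eval v ⊔ b.eval v
  | .inf a b => a.eval v ⊓ b.eval v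

/-- negation normal form of a term -/
def MTerm.nnf : MTerm → Bool → Bool → NTerm
  | .var i, s, e => .lit i s e
  | .one, _, _ => .one
  | .mul a b, s, e => if e then .mul (b.nnf s e) (a.nnf s e) else .mul (a.nnf s e) (b.nnf s e)
  | .inv a, s, e => a.nnf s (!e)
  | .sup a b, s, e => if (xor s e) then .inf (a.nnf s e) (b.nnf s e)
      else .sup (a.nnf s e) (b.nnf s e)
  | .inf a b, s, e => if (xor s e) then .sup (a.nnf s e) (b.nnf s e)
      else .inf (a.nnf s e) (b.nnf s e)
  | .st a, s, e => a.nnf (!s) e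

theorem nnf_eval {G : Type} [MGroup G] (v : ℕ → G) (t : MTerm) :
    ∀ s e : Bool, (t.nnf s e).eval v = flag s e (t.eval v) := by
  induction t with
  | var i => intro s e; rfl
  | one =>
    intro s e
    cases s <;> cases e <;> simp [MTerm.nnf, NTerm.eval, MTerm.eval, flag, st_one]
  | mul a b iha ihb =>
    intro s e
    cases s <;> cases e <;> simp [MTerm.nnf, NTerm.eval, MTerm.eval, flag, iha, ihb, st_mul]
  | inv a iha =>
    intro s e
    cases s <;> cases e <;> simp [MTerm.nnf, MTerm.eval, flag, iha, st_inv]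
  | sup a b iha ihb =>
    intro s e
    cases s <;> cases e <;>
      simp [MTerm.nnf, NTerm.eval, MTerm.eval, flag, iha, ihb, st_sup, inv_sup, inv_inf]
  | inf a b iha ihb =>
    intro s e
    cases s <;> cases e <;>
      simp [MTerm.nnf, NTerm.eval, MTerm.eval, flag, iha, ihb, st_inf, inv_sup, inv_inf]
  | st a iha =>
    intro s e
    cases s <;> cases e <;> simp [MTerm.nnf, MTerm.eval, flag, iha, st_st]

section Transfer

variable {G : Type} [MGroup G] {Ω : Type} [LinearOrder Ω] [LAct G Ω]

/-- the points visited when a term is evaluated at a point -/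
noncomputable def NTerm.pts (v : ℕ → G) : NTerm → Ω → Finset Ω
  | .lit i s e, ω => {ω, flag s e (v i) • ω}
  | .one, ω => {ω}
  | .mul a b, ω => b.pts v ω ∪ a.pts v (b.eval v • ω)
  | .sup a b, ω => a.pts v ω ∪ b.pts v ω
  | .inf a b, ω => a.pts v ω ∪ b.pts v ω

theorem mem_pts (v : ℕ → G) (w : NTerm) : ∀ ω : Ω, ω ∈ w.pts v ω := by
  induction w with
  | lit i s e => intro ω; simp [NTerm.pts]
  | one => intro ω; simp [NTerm.pts]
  | mul a b iha ihb => intro ω; simp [NTerm.pts, ihb]
  | sup a b iha ihb => intro ω; simp [NTerm.pts, ihb]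
  | inf a b iha ihb => intro ω; simp [NTerm.pts, ihb]

theorem eval_mem_pts (v : ℕ → G) (w : NTerm) : ∀ ω : Ω, w.eval v • ω ∈ w.pts v ω := by
  induction w with
  | lit i s e => intro ω; simp [NTerm.pts, NTerm.eval]
  | one => intro ω; simp [NTerm.pts, NTerm.eval]
  | mul a b iha ihb =>
    intro ω
    simp only [NTerm.pts, NTerm.eval, Finset.mem_union, mul_smul]
    exact Or.inr (iha _)
  | sup a b iha ihb =>
    intro ω
    simp only [NTerm.pts, NTerm.eval, Finset.mem_union, LAct.sup_smul]
    rcases max_choice (a.eval v • ω) (b.eval v • ω) with h | h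
    · rw [h]; exact Or.inl (iha _)
    · rw [h]; exact Or.inr (ihb _)
  | inf a b iha ihb =>
    intro ω
    simp only [NTerm.pts, NTerm.eval, Finset.mem_union, LAct.inf_smul]
    rcases min_choice (a.eval v • ω) (b.eval v • ω) with h | h
    · rw [h]; exact Or.inl (iha _)
    · rw [h]; exact Or.inr (ihb _)

theorem transfer_eval {G' : Type} [MGroup G'] {Ω' : Type} [LinearOrder Ω'] [LAct G' Ω']
    (v : ℕ → G) (v' : ℕ → G') (T : Finset Ω) (e : Ω → Ω') (he : StrictMonoOn e T)
    (h1 : ∀ i, ∀ t ∈ T, v i • t ∈ T → v' i • e t = e (v i • t))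
    (h2 : ∀ i, ∀ t ∈ T, st (v i) • t ∈ T → st (v' i) • e t = e (st (v i) • t)) (w : NTerm) :
    ∀ ω : Ω, w.pts v ω ⊆ T → w.eval v' • e ω = e (w.eval v • ω) := by
  have key : ∀ (i : ℕ) (s e' : Bool) (ω : Ω), ω ∈ T → flag s e' (v i) • ω ∈ T →
      flag s e' (v' i) • e ω = e (flag s e' (v i) • ω) := by
    intro i s e' ω h3 h4
    cases s <;> cases e'
    · exact h1 i ω h3 h4
    · simp only [flag, if_true, Bool.false_eq_true, if_false] at h4 ⊢
      have := h1 i ((v i)⁻¹ • ω) h4 (by rwa [smul_inv_smul])
      rw [smul_inv_smul] at this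
      rw [← this, inv_smul_smul]
    · exact h2 i ω h3 h4
    · simp only [flag, if_true] at h4 ⊢
      have := h2 i ((st (v i))⁻¹ • ω) h4 (by rwa [smul_inv_smul])
      rw [smul_inv_smul] at this
      rw [← this, inv_smul_smul]
  induction w with
  | lit i s e' =>
    intro ω h
    apply key
    · exact h (by simp [NTerm.pts])
    · exact h (by simp [NTerm.pts])
  | one => intro ω h; simp [NTerm.eval]
  | mul a b iha ihb =>
    intro ω h
    simp only [NTerm.pts, Finset.union_subset_iff] at h
    simp only [NTerm.eval, mul_smul]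
    rw [ihb ω h.1, iha _ h.2]
  | sup a b iha ihb =>
    intro ω h
    simp only [NTerm.pts, Finset.union_subset_iff] at h
    simp only [NTerm.eval, LAct.sup_smul]
    rw [ihb ω h.2, iha _ h.1]
    exact (he.monotoneOn.map_max (h.1 (eval_mem_pts v a ω)) (h.2 (eval_mem_pts v b ω))).symm
  | inf a b iha ihb =>
    intro ω h
    simp only [NTerm.pts, Finset.union_subset_iff] at h
    simp only [NTerm.eval, LAct.inf_smul]
    rw [ihb ω h.2, iha _ h.1]
    exact (he.monotoneOn.map_min (h.1 (eval_mem_pts v a ω)) (h.2 (eval_mem_pts v b ω))).symm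

end Transfer

/-- The basic transfer principle. If the identity `p` fails in `G` under the assignment `v`, witnessed
by a moved point of a chain, then there is a finite set `T` of points such that any `m`-group acting
on a chain which contains a copy of the partial action of the letters on `T` violates `p`. -/
theorem transfer {G : Type} [MGroup G] {Ω : Type} [LinearOrder Ω] [LAct G Ω] (p : MTerm × MTerm)
    (v : ℕ → G) (α : Ω) (hα : (p.1.eval v * (p.2.eval v)⁻¹) • α ≠ α) :
    ∃ T : Finset Ω, α ∈ T ∧ ∀ (G' : Type) [MGroup G'] (Ω' : Type) [LinearOrder Ω'] [LAct G' Ω']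
      (e : Ω → Ω') (v' : ℕ → G'), StrictMonoOn e T →
      (∀ i, ∀ t ∈ T, v i • t ∈ T → v' i • e t = e (v i • t)) →
      (∀ i, ∀ t ∈ T, st (v i) • t ∈ T → st (v' i) • e t = e (st (v i) • t)) →
      ¬ Holds G' p := by
  let w : NTerm := (MTerm.mul p.1 (MTerm.inv p.2)).nnf false false
  have hw : w.eval v = p.1.eval v * (p.2.eval v)⁻¹ := by
    rw [nnf_eval]
    simp [flag, MTerm.eval]
  refine ⟨w.pts v α, mem_pts v w α, ?_⟩
  intro G' _ Ω' _ _ e v' he h1 h2 hh
  have h3 := transfer_eval v v' (w.pts v α) e he h1 h2 w α (Finset.Subset.refl _)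
  have hw' : w.eval v' = 1 := by
    rw [nnf_eval]
    simp [flag, MTerm.eval, hh v']
  rw [hw', one_smul] at h3
  have h4 := he.injOn (mem_pts v w α) (eval_mem_pts v w α) h3
  rw [hw] at h4
  exact hα h4.symm

end Pool.Agent.Lib.MP_67fdd1_al
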