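import Mathlib
import Pool.Agent.Lib.MP_67fdd1_al.Eval

set_option autoImplicit false
set_option linter.unusedVariables false
set_option linter.unusedSectionVars false

namespace Pool.Agent.Lib.MP_67fdd1_al

open MGroup

section Basic

variable {G : Type} [LGroup G]

/-- Convex `ℓ`-subgroups. -/
structure IsCL (H : Subgroup G) : Prop where
  pos : ∀ {a : G}, a ∈ H → a ⊔ 1 ∈ H
  conv : ∀ {a b : G}, 1 ≤ a → a ≤ b → b ∈ H → a ∈ H

theorem sup_inf_eq (a : G) : (a ⊔ 1) * (a ⊓ 1) = a := by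
  have h : a⁻¹ * (a ⊔ 1) = (a ⊓ 1)⁻¹ := by
    rw [mul_sup, inv_mul_cancel, mul_one, inv_inf, inv_one, sup_comm]
  have h2 : a ⊔ 1 = a * (a ⊓ 1)⁻¹ := by rw [← h, mul_inv_cancel_left]
  rw [h2, inv_mul_cancel_right]

theorem pos_neg_eq (a : G) : (a ⊔ 1) * (a⁻¹ ⊔ 1)⁻¹ = a := by
  rw [inv_sup, inv_inv, inv_one, sup_inf_eq]

namespace IsCL

variable {H : Subgroup G} (hH : IsCL H)
include hH

theorem sup_mem {a b : G} (ha : a ∈ H) (hb : b ∈ H) : a ⊔ b ∈ H := by
  have h : a ⊔ b = (a * b⁻¹ ⊔ 1) * b := by rw [sup_mul, inv_mul_cancel_right, one_mul]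
  rw [h]
  exact H.mul_mem (hH.pos (H.mul_mem ha (H.inv_mem hb))) hb

theorem inf_mem {a b : G} (ha : a ∈ H) (hb : b ∈ H) : a ⊓ b ∈ H := by
  have h : a ⊓ b = (a⁻¹ ⊔ b⁻¹)⁻¹ := by rw [inv_sup, inv_inv, inv_inv]
  rw [h]
  exact H.inv_mem (hH.sup_mem (H.inv_mem ha) (H.inv_mem hb))

theorem mem_of_parts {a : G} (h1 : a ⊔ 1 ∈ H) (h2 : a⁻¹ ⊔ 1 ∈ H) : a ∈ H := by
  rw [← pos_neg_eq a]
  exact H.mul_mem h1 (H.inv_mem h2)

theorem pos_mono {a b : G} (hab : a ≤ b) (hb : b ⊔ 1 ∈ H) : a ⊔ 1 ∈ H :=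
  hH.conv le_sup_right (sup_le_sup hab le_rfl) hb

theorem pos_mul {a b : G} (ha : a ⊔ 1 ∈ H) (hb : b ⊔ 1 ∈ H) : a * b ⊔ 1 ∈ H := by
  refine hH.conv le_sup_right ?_ (H.mul_mem ha hb)
  refine sup_le (mul_le_mul' le_sup_left le_sup_left) ?_
  exact one_le_mul le_sup_right le_sup_right

/-- convexity between two elements -/
theorem mem_of_le_of_le {a b c : G} (hab : a ≤ b) (hbc : b ≤ c) (ha : a ∈ H) (hc : c ∈ H) :
    b ∈ H := by
  have h1 : a⁻¹ * b ∈ H := by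
    refine hH.conv ?_ (mul_le_mul_right hbc a⁻¹) (H.mul_mem (H.inv_mem ha) hc)
    rw [← inv_mul_cancel a]
    exact mul_le_mul_right hab a⁻¹
  have := H.mul_mem ha h1
  rwa [mul_inv_cancel_left] at this

end IsCL

/-- Conjugates of convex `ℓ`-subgroups. -/
def cj (x : G) (H : Subgroup G) : Subgroup G := H.map (MulAut.conj x).toMonoidHom

theorem mem_cj {x : G} {H : Subgroup G} {a : G} : a ∈ cj x H ↔ x⁻¹ * a * x ∈ H := by
  unfold cj
  rw [Subgroup.mem_map]
  constructor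
  · rintro ⟨b, hb, rfl⟩
    simpa [mul_assoc] using hb
  · intro h
    exact ⟨_, h, by simp [mul_assoc]⟩

theorem conj_sup_one (x a : G) : x⁻¹ * (a ⊔ 1) * x = x⁻¹ * a * x ⊔ 1 := by
  rw [mul_sup, sup_mul]
  simp

theorem isCL_cj {H : Subgroup G} (hH : IsCL H) (x : G) : IsCL (cj x H) where
  pos := by
    intro a ha
    rw [mem_cj] at ha ⊢
    rw [conj_sup_one]
    exact hH.pos ha
  conv := by
    intro a b h1 h2 hb
    rw [mem_cj] at hb ⊢
    refine hH.conv ?_ (mul_le_mul_left (mul_le_mul_right h2 _) _) hb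
    have := mul_le_mul_left (mul_le_mul_right h1 x⁻¹) x
    simpa using this

/-- Prime convex `ℓ`-subgroups. -/
structure PSub (G : Type) [LGroup G] where
  H : Subgroup G
  cl : IsCL H
  pr : ∀ a : G, a ⊔ 1 ∈ H ∨ a⁻¹ ⊔ 1 ∈ H

/-- A convex `ℓ`-subgroup above a prime one is prime. -/
def PSub.up (P : PSub G) (H : Subgroup G) (hH : IsCL H) (h : P.H ≤ H) : PSub G where
  H := H
  cl := hH
  pr := fun a => (P.pr a).imp (fun h' => h h') (fun h' => h h')

/-- Conjugates of primes. -/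
def PSub.conj (P : PSub G) (x : G) : PSub G where
  H := cj x P.H
  cl := isCL_cj P.cl x
  pr := by
    intro a
    rw [mem_cj, mem_cj, conj_sup_one, conj_sup_one]
    have h : x⁻¹ * a⁻¹ * x = (x⁻¹ * a * x)⁻¹ := by group
    rw [h]
    exact P.pr _

/-- The set of left cosets of a prime. -/
def Cos (P : PSub G) : Type := G ⧸ P.H

/-- The coset of an element. -/
def PSub.pt (P : PSub G) (g : G) : Cos P := (QuotientGroup.mk g : G ⧸ P.H)

variable (P : PSub G)

theorem PSub.pt_eq {g h : G} : P.pt g = P.pt h ↔ g⁻¹ * h ∈ P.H := QuotientGroup.eq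

theorem PSub.exists_rep (a : Cos P) : ∃ g, P.pt g = a := by
  obtain ⟨g, hg⟩ := QuotientGroup.mk_surjective a
  exact ⟨g, hg⟩

/-- the order relation on representatives -/
def PSub.rel (g h : G) : Prop := (h⁻¹ * g) ⊔ 1 ∈ P.H

theorem PSub.rel_refl (g : G) : P.rel g g := by
  unfold PSub.rel
  rw [inv_mul_cancel, sup_idem]
  exact P.H.one_mem

theorem PSub.rel_trans {g h k : G} (h1 : P.rel g h) (h2 : P.rel h k) : P.rel g k := by
  unfold PSub.rel at *
  have := P.cl.pos_mul h2 h1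
  rwa [mul_assoc, mul_inv_cancel_left] at this

theorem PSub.rel_total (g h : G) : P.rel g h ∨ P.rel h g := by
  unfold PSub.rel
  have := P.pr (h⁻¹ * g)
  rwa [mul_inv_rev, inv_inv] at this

theorem PSub.rel_antisymm {g h : G} (h1 : P.rel g h) (h2 : P.rel h g) : P.pt g = P.pt h := by
  rw [P.pt_eq]
  unfold PSub.rel at *
  apply P.cl.mem_of_parts h2
  rwa [mul_inv_rev, inv_inv]

theorem PSub.rel_of_le {g h : G} (h1 : g ≤ h) : P.rel g h := by
  unfold PSub.rel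
  have : h⁻¹ * g ≤ 1 := by
    rw [← inv_mul_cancel h]
    exact mul_le_mul_right h1 _
  rw [sup_eq_right.2 this]
  exact P.H.one_mem

theorem PSub.rel_of_eq {g h : G} (h1 : P.pt g = P.pt h) : P.rel g h := by
  rw [P.pt_eq] at h1
  unfold PSub.rel
  have := P.cl.pos (P.H.inv_mem h1)
  rwa [mul_inv_rev, inv_inv] at this

theorem PSub.rel_congr {g g' h h' : G} (h1 : P.pt g = P.pt g') (h2 : P.pt h = P.pt h') :
    P.rel g h ↔ P.rel g' h' :=
  ⟨fun H => P.rel_trans (P.rel_of_eq h1.symm) (P.rel_trans H (P.rel_of_eq h2)),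
    fun H => P.rel_trans (P.rel_of_eq h1) (P.rel_trans H (P.rel_of_eq h2.symm))⟩

open Classical in
/-- The chain of left cosets of a prime. -/
noncomputable instance : LinearOrder (Cos P) where
  le a b := ∃ g h : G, P.pt g = a ∧ P.pt h = b ∧ P.rel g h
  le_refl a := by
    obtain ⟨g, rfl⟩ := P.exists_rep a
    exact ⟨g, g, rfl, rfl, P.rel_refl g⟩
  le_trans a b c := by
    rintro ⟨g, h, rfl, rfl, h1⟩ ⟨h', k, h2, rfl, h3⟩
    exact ⟨g, k, rfl, rfl, P.rel_trans h1 (P.rel_trans (P.rel_of_eq h2.symm) h3)⟩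
  le_antisymm a b := by
    rintro ⟨g, h, rfl, rfl, h1⟩ ⟨h', g', h2, h3, h4⟩
    exact P.rel_antisymm h1 ((P.rel_congr h2 h3).1 h4)
  le_total a b := by
    obtain ⟨g, rfl⟩ := P.exists_rep a
    obtain ⟨h, rfl⟩ := P.exists_rep b
    rcases P.rel_total g h with h1 | h1
    · exact Or.inl ⟨g, h, rfl, rfl, h1⟩
    · exact Or.inr ⟨h, g, rfl, rfl, h1⟩
  toDecidableLE := Classical.decRel _

theorem PSub.pt_le_pt {g h : G} : P.pt g ≤ P.pt h ↔ P.rel g h :=
  ⟨fun ⟨_, _, h1, h2, h3⟩ => (P.rel_congr h1 h2).1 h3, fun h1 => ⟨g, h, rfl, rfl, h1⟩⟩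

theorem PSub.pt_mono {g h : G} (h1 : g ≤ h) : P.pt g ≤ P.pt h := P.pt_le_pt.2 (P.rel_of_le h1)

theorem PSub.rel_left {g h : G} (k : G) : P.rel (k * g) (k * h) ↔ P.rel g h := by
  unfold PSub.rel
  rw [mul_inv_rev, mul_assoc, inv_mul_cancel_left]

instance : MulAction G (Cos P) := inferInstanceAs (MulAction G (G ⧸ P.H))

theorem PSub.smul_pt (g h : G) : g • P.pt h = P.pt (g * h) := rfl

theorem PSub.pt_sup (g h : G) : P.pt (g ⊔ h) = max (P.pt g) (P.pt h) := by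
  have key : ∀ g h : G, P.rel g h → P.pt (g ⊔ h) = P.pt h := by
    intro g h H
    apply P.rel_antisymm
    · unfold PSub.rel at *
      rw [mul_sup, inv_mul_cancel, sup_assoc, sup_idem]
      exact H
    · exact P.rel_of_le le_sup_right
  rcases P.rel_total g h with H | H
  · rw [key g h H, max_eq_right (P.pt_le_pt.2 H)]
  · rw [sup_comm, key h g H, max_eq_left (P.pt_le_pt.2 H)]

theorem PSub.pt_inf (g h : G) : P.pt (g ⊓ h) = min (P.pt g) (P.pt h) := by
  have key : ∀ g h : G, P.rel g h → P.pt (g ⊓ h) = P.pt g := by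
    intro g h H
    apply P.rel_antisymm
    · exact P.rel_of_le inf_le_left
    · unfold PSub.rel at *
      rw [inv_inf, sup_mul, inv_mul_cancel, sup_assoc, sup_comm, sup_assoc, sup_idem]
      exact H
  rcases P.rel_total g h with H | H
  · rw [key g h H, min_eq_left (P.pt_le_pt.2 H)]
  · rw [inf_comm, key h g H, min_eq_right (P.pt_le_pt.2 H)]

noncomputable instance : LAct G (Cos P) where
  sup_smul := by
    intro g h ω
    obtain ⟨k, rfl⟩ := P.exists_rep ω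
    rw [P.smul_pt, P.smul_pt, P.smul_pt, sup_mul, P.pt_sup]
  inf_smul := by
    intro g h ω
    obtain ⟨k, rfl⟩ := P.exists_rep ω
    rw [P.smul_pt, P.smul_pt, P.smul_pt, inf_mul, P.pt_inf]
  smul_le := by
    intro g ω ω' h
    obtain ⟨k, rfl⟩ := P.exists_rep ω
    obtain ⟨k', rfl⟩ := P.exists_rep ω'
    rw [P.smul_pt, P.smul_pt, P.pt_le_pt, P.rel_left]
    exact P.pt_le_pt.1 h

/-- monotonicity of the action in the group element -/
theorem smul_mono {Ω : Type} [LinearOrder Ω] [LAct G Ω] {g h : G} (H : g ≤ h) (ω : Ω) :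
    g • ω ≤ h • ω := by
  rw [← sup_eq_right.2 H, LAct.sup_smul]
  exact le_max_left _ _

theorem smul_le_iff {Ω : Type} [LinearOrder Ω] [LAct G Ω] (g : G) (ω ω' : Ω) :
    g • ω ≤ g • ω' ↔ ω ≤ ω' := by
  constructor
  · intro h
    have := LAct.smul_le g⁻¹ _ _ h
    rwa [inv_smul_smul, inv_smul_smul] at this
  · exact LAct.smul_le g ω ω'

theorem smul_lt_iff {Ω : Type} [LinearOrder Ω] [LAct G Ω] (g : G) (ω ω' : Ω) :
    g • ω < g • ω' ↔ ω < ω' := by
  rw [lt_iff_not_ge, lt_iff_not_ge, smul_le_iff]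

end Basic

end Pool.Agent.Lib.MP_67fdd1_al
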