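import Mathlib
import Pool.Agent.Lib.MP_67fdd1_al.Prime

section

set_option autoImplicit false
set_option linter.unusedVariables false
set_option linter.unusedSectionVars false

namespace Pool.Agent.Lib.MP_67fdd1_al

open MGroup

section Pi

instance instLGroupPi {Q H : Type} [LGroup H] : LGroup (Q → H) where
  mul_le_left := fun a b c h q => LGroup.mul_le_left _ _ _ (h q)
  mul_le_right := fun a b c h q => LGroup.mul_le_right _ _ _ (h q)

instance instMGroupPi {Q H : Type} [MGroup H] : MGroup (Q → H) where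
  st := fun f q => st (f q)
  st_mul := fun a b => funext fun q => st_mul _ _
  st_st := fun a => funext fun q => st_st _
  st_sup := fun a b => funext fun q => st_sup _ _
  st_inf := fun a b => funext fun q => st_inf _ _

theorem pi_st {Q H : Type} [MGroup H] (f : Q → H) (q : Q) : st f q = st (f q) := rfl

end Pi

section Unit

instance : LGroup PUnit.{1} where
  mul_le_left := fun _ _ _ _ => le_rfl
  mul_le_right := fun _ _ _ _ => le_rfl

instance : MGroup PUnit.{1} where
  st := fun x => x
  st_mul := fun _ _ => rfl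
  st_st := fun _ => rfl
  st_sup := fun _ _ => rfl
  st_inf := fun _ _ => rfl

instance : LAct PUnit.{1} PUnit.{1} where
  smul := fun _ x => x
  one_smul := fun _ => rfl
  mul_smul := fun _ _ _ => rfl
  sup_smul := fun _ _ _ => rfl
  inf_smul := fun _ _ _ => rfl
  smul_le := fun _ _ _ h => h

end Unit

section OGroup

/-- A totally ordered abelian group as an `ℓ`-group. -/
instance instLGroupO {R : Type} [CommGroup R] [LinearOrder R] [IsOrderedMonoid R] : LGroup R where
  mul_le_left := fun a b c h => mul_le_mul_right h c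
  mul_le_right := fun a b c h => mul_le_mul_left h c

/-- A totally ordered abelian group with `x_* = x⁻¹` as an `m`-group. -/
@[reducible] def mgroupInv (R : Type) [CommGroup R] [LinearOrder R] [IsOrderedMonoid R] :
    MGroup R where
  st := fun x => x⁻¹
  st_mul := fun a b => mul_inv _ _
  st_st := fun a => inv_inv _
  st_sup := fun a b => inv_sup _ _
  st_inf := fun a b => inv_inf _ _

/-- The regular action of a totally ordered abelian group. -/
instance instLActO {R : Type} [CommGroup R] [LinearOrder R] [IsOrderedMonoid R] : LAct R R where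
  toMulAction := Monoid.toMulAction R
  sup_smul := fun g h ω => by
    simp only [smul_eq_mul]
    rw [sup_mul]
  inf_smul := fun g h ω => by
    simp only [smul_eq_mul]
    rw [inf_mul]
  smul_le := fun g ω ω' h => mul_le_mul_right h g

end OGroup

section Double

/-- The double `L × L^r` of an `ℓ`-group, where `L^r` is `L` with the reversed order, and
`(a, b)_* = (b, a)`. -/
def Dbl (L : Type) : Type := L × Lᵒᵈ

instance {L : Type} [LGroup L] : LGroup (Dbl L) where
  toGroup := (inferInstance : Group (L × Lᵒᵈ))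
  toLattice := (inferInstance : Lattice (L × Lᵒᵈ))
  mul_le_left := by
    intro a b c h
    exact ⟨LGroup.mul_le_left _ _ _ h.1, LGroup.mul_le_left (G := L) b.2 a.2 c.2 h.2⟩
  mul_le_right := by
    intro a b c h
    exact ⟨LGroup.mul_le_right _ _ _ h.1, LGroup.mul_le_right (G := L) b.2 a.2 c.2 h.2⟩

instance {L : Type} [LGroup L] : MGroup (Dbl L) where
  st := fun x => ((x.2 : L), (x.1 : L))
  st_mul := fun a b => rfl
  st_st := fun a => rfl
  st_sup := fun a b => rfl
  st_inf := fun a b => rfl

/-- first coordinate -/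
def Dbl.fst {L : Type} (x : Dbl L) : L := x.1
/-- second coordinate -/
def Dbl.snd {L : Type} (x : Dbl L) : L := x.2
/-- pairs -/
def Dbl.mk {L : Type} (a b : L) : Dbl L := (a, b)

variable {L : Type} [LGroup L]

theorem Dbl.ext {x y : Dbl L} (h1 : x.fst = y.fst) (h2 : x.snd = y.snd) : x = y :=
  Prod.ext h1 h2
theorem Dbl.mul_fst (x y : Dbl L) : (x * y).fst = x.fst * y.fst := rfl
theorem Dbl.mul_snd (x y : Dbl L) : (x * y).snd = x.snd * y.snd := rfl
theorem Dbl.one_fst : (1 : Dbl L).fst = 1 := rfl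
theorem Dbl.one_snd : (1 : Dbl L).snd = 1 := rfl
theorem Dbl.sup_fst (x y : Dbl L) : (x ⊔ y).fst = x.fst ⊔ y.fst := rfl
theorem Dbl.sup_snd (x y : Dbl L) : (x ⊔ y).snd = x.snd ⊓ y.snd := rfl
theorem Dbl.inf_fst (x y : Dbl L) : (x ⊓ y).fst = x.fst ⊓ y.fst := rfl
theorem Dbl.inf_snd (x y : Dbl L) : (x ⊓ y).snd = x.snd ⊔ y.snd := rfl
theorem Dbl.st_fst (x : Dbl L) : (st x).fst = x.snd := rfl
theorem Dbl.st_snd (x : Dbl L) : (st x).snd = x.fst := rfl
theorem Dbl.mk_fst (a b : L) : (Dbl.mk a b).fst = a := rfl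
theorem Dbl.mk_snd (a b : L) : (Dbl.mk a b).snd = b := rfl

/-- The double acts on chains through the first coordinate. -/
instance {Ω : Type} [LinearOrder Ω] [LAct L Ω] : LAct (Dbl L) Ω where
  smul := fun x ω => x.fst • ω
  one_smul := fun ω => one_smul L ω
  mul_smul := fun x y ω => mul_smul x.fst y.fst ω
  sup_smul := fun x y ω => LAct.sup_smul x.fst y.fst ω
  inf_smul := fun x y ω => LAct.inf_smul x.fst y.fst ω
  smul_le := fun x ω ω' h => LAct.smul_le x.fst ω ω' h

theorem Dbl.smul_def {Ω : Type} [LinearOrder Ω] [LAct L Ω] (x : Dbl L) (ω : Ω) :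
    x • ω = x.fst • ω := rfl

end Double

section Wr

/-- Pairs `(r, c)` with `r ∈ R` and `c : Q → H`, where `R` acts on `Q` through `π`. -/
@[ext] structure Wr {R Q : Type} [CommGroup R] [CommGroup Q] (π : R →* Q) (H : Type) where
  fst : R
  snd : Q → H

variable {R Q : Type} [CommGroup R] [CommGroup Q] (π : R →* Q) {H : Type}

instance instGroupWr [Group H] : Group (Wr π H) where
  mul x y := ⟨x.fst * y.fst, fun q => x.snd (π y.fst * q) * y.snd q⟩
  one := ⟨1, 1⟩
  inv x := ⟨x.fst⁻¹, fun q => (x.snd (π x.fst⁻¹ * q))⁻¹⟩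
  mul_assoc x y z := by
    apply Wr.ext
    · exact mul_assoc _ _ _
    · funext q
      change x.snd (π y.fst * (π z.fst * q)) * y.snd (π z.fst * q) * z.snd q =
        x.snd (π (y.fst * z.fst) * q) * (y.snd (π z.fst * q) * z.snd q)
      rw [map_mul, mul_assoc, mul_assoc]
  one_mul x := by
    apply Wr.ext
    · exact one_mul _
    · funext q
      exact one_mul _
  mul_one x := by
    apply Wr.ext
    · exact mul_one _
    · funext q
      change x.snd (π 1 * q) * 1 = x.snd q
      rw [map_one, one_mul, mul_one]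
  inv_mul_cancel x := by
    apply Wr.ext
    · exact inv_mul_cancel _
    · funext q
      change (x.snd (π x.fst⁻¹ * (π x.fst * q)))⁻¹ * x.snd q = 1
      rw [← mul_assoc, ← map_mul, inv_mul_cancel, map_one, one_mul, inv_mul_cancel]

theorem Wr.mul_fst [Group H] (x y : Wr π H) : (x * y).fst = x.fst * y.fst := rfl
theorem Wr.mul_snd [Group H] (x y : Wr π H) (q : Q) :
    (x * y).snd q = x.snd (π y.fst * q) * y.snd q := rfl
theorem Wr.one_fst [Group H] : (1 : Wr π H).fst = 1 := rfl
theorem Wr.one_snd [Group H] : (1 : Wr π H).snd = 1 := rfl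

variable [LinearOrder R] [IsOrderedMonoid R]

/-- the lexicographic order -/
instance instLEWr [Lattice H] : LE (Wr π H) :=
  ⟨fun x y => x.fst < y.fst ∨ (x.fst = y.fst ∧ x.snd ≤ y.snd)⟩

theorem Wr.le_def [Lattice H] (x y : Wr π H) :
    x ≤ y ↔ x.fst < y.fst ∨ (x.fst = y.fst ∧ x.snd ≤ y.snd) := Iff.rfl

instance instPartialOrderWr [Lattice H] : PartialOrder (Wr π H) where
  le_refl x := Or.inr ⟨rfl, le_rfl⟩
  le_trans x y z := by
    intro h1 h2
    rw [Wr.le_def] at *
    rcases h1 with h1 | ⟨h1, h1'⟩ <;> rcases h2 with h2 | ⟨h2, h2'⟩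
    · exact Or.inl (h1.trans h2)
    · exact Or.inl (h2 ▸ h1)
    · exact Or.inl (h1 ▸ h2)
    · exact Or.inr ⟨h1.trans h2, h1'.trans h2'⟩
  le_antisymm x y := by
    intro h1 h2
    rw [Wr.le_def] at *
    rcases h1 with h1 | ⟨h1, h1'⟩ <;> rcases h2 with h2 | ⟨h2, h2'⟩
    · exact absurd h2 h1.not_gt
    · exact absurd h2 h1.ne'
    · exact absurd h1 h2.ne'
    · exact Wr.ext h1 (le_antisymm h1' h2')

open Classical in
/-- lexicographic join -/
noncomputable def Wr.lsup [Lattice H] (x y : Wr π H) : Wr π H :=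
  if x.fst < y.fst then y else if y.fst < x.fst then x else ⟨x.fst, x.snd ⊔ y.snd⟩

open Classical in
/-- lexicographic meet -/
noncomputable def Wr.linf [Lattice H] (x y : Wr π H) : Wr π H :=
  if x.fst < y.fst then x else if y.fst < x.fst then y else ⟨x.fst, x.snd ⊓ y.snd⟩

noncomputable instance instLatticeWr [Lattice H] : Lattice (Wr π H) where
  sup := Wr.lsup π
  inf := Wr.linf π
  le_sup_left x y := by
    change x ≤ Wr.lsup π x y
    unfold Wr.lsup
    rw [Wr.le_def]
    rcases lt_trichotomy x.fst y.fst with h | h | h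
    · rw [if_pos h]; exact Or.inl h
    · rw [if_neg h.not_lt, if_neg h.not_gt]; exact Or.inr ⟨rfl, le_sup_left⟩
    · rw [if_neg h.not_gt, if_pos h]; exact Or.inr ⟨rfl, le_rfl⟩
  le_sup_right x y := by
    change y ≤ Wr.lsup π x y
    unfold Wr.lsup
    rw [Wr.le_def]
    rcases lt_trichotomy x.fst y.fst with h | h | h
    · rw [if_pos h]; exact Or.inr ⟨rfl, le_rfl⟩
    · rw [if_neg h.not_lt, if_neg h.not_gt]; exact Or.inr ⟨h.symm, le_sup_right⟩
    · rw [if_neg h.not_gt, if_pos h]; exact Or.inl h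
  sup_le x y z := by
    intro h1 h2
    change Wr.lsup π x y ≤ z
    unfold Wr.lsup
    rcases lt_trichotomy x.fst y.fst with h | h | h
    · rw [if_pos h]; exact h2
    · rw [if_neg h.not_lt, if_neg h.not_gt]
      rw [Wr.le_def] at *
      rcases h1 with h1 | ⟨h1, h1'⟩
      · exact Or.inl h1
      · rcases h2 with h2 | ⟨h2, h2'⟩
        · exact Or.inl (by rw [h]; exact h2)
        · exact Or.inr ⟨h1, sup_le h1' h2'⟩
    · rw [if_neg h.not_gt, if_pos h]; exact h1
  inf_le_left x y := by
    change Wr.linf π x y ≤ x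
    unfold Wr.linf
    rw [Wr.le_def]
    rcases lt_trichotomy x.fst y.fst with h | h | h
    · rw [if_pos h]; exact Or.inr ⟨rfl, le_rfl⟩
    · rw [if_neg h.not_lt, if_neg h.not_gt]; exact Or.inr ⟨rfl, inf_le_left⟩
    · rw [if_neg h.not_gt, if_pos h]; exact Or.inl h
  inf_le_right x y := by
    change Wr.linf π x y ≤ y
    unfold Wr.linf
    rw [Wr.le_def]
    rcases lt_trichotomy x.fst y.fst with h | h | h
    · rw [if_pos h]; exact Or.inl h
    · rw [if_neg h.not_lt, if_neg h.not_gt]; exact Or.inr ⟨h, inf_le_right⟩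
    · rw [if_neg h.not_gt, if_pos h]; exact Or.inr ⟨rfl, le_rfl⟩
  le_inf z x y := by
    intro h1 h2
    change z ≤ Wr.linf π x y
    unfold Wr.linf
    rcases lt_trichotomy x.fst y.fst with h | h | h
    · rw [if_pos h]; exact h1
    · rw [if_neg h.not_lt, if_neg h.not_gt]
      rw [Wr.le_def] at *
      rcases h1 with h1 | ⟨h1, h1'⟩
      · exact Or.inl h1
      · rcases h2 with h2 | ⟨h2, h2'⟩
        · exact Or.inl (by rw [h]; exact h2)
        · exact Or.inr ⟨h1, le_inf h1' h2'⟩
    · rw [if_neg h.not_gt, if_pos h]; exact h2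

theorem Wr.sup_of_lt [Lattice H] {x y : Wr π H} (h : x.fst < y.fst) : x ⊔ y = y := by
  change Wr.lsup π x y = y
  unfold Wr.lsup
  rw [if_pos h]

theorem Wr.sup_of_gt [Lattice H] {x y : Wr π H} (h : y.fst < x.fst) : x ⊔ y = x := by
  change Wr.lsup π x y = x
  unfold Wr.lsup
  rw [if_neg h.not_gt, if_pos h]

theorem Wr.sup_of_eq [Lattice H] {x y : Wr π H} (h : x.fst = y.fst) :
    x ⊔ y = ⟨x.fst, x.snd ⊔ y.snd⟩ := by
  change Wr.lsup π x y = _
  unfold Wr.lsup
  rw [if_neg h.not_lt, if_neg h.not_gt]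

theorem Wr.inf_of_lt [Lattice H] {x y : Wr π H} (h : x.fst < y.fst) : x ⊓ y = x := by
  change Wr.linf π x y = x
  unfold Wr.linf
  rw [if_pos h]

theorem Wr.inf_of_gt [Lattice H] {x y : Wr π H} (h : y.fst < x.fst) : x ⊓ y = y := by
  change Wr.linf π x y = y
  unfold Wr.linf
  rw [if_neg h.not_gt, if_pos h]

theorem Wr.inf_of_eq [Lattice H] {x y : Wr π H} (h : x.fst = y.fst) :
    x ⊓ y = ⟨x.fst, x.snd ⊓ y.snd⟩ := by
  change Wr.linf π x y = _
  unfold Wr.linf
  rw [if_neg h.not_lt, if_neg h.not_gt]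

theorem Wr.sup_fst [Lattice H] (x y : Wr π H) : (x ⊔ y).fst = x.fst ⊔ y.fst := by
  rcases lt_trichotomy x.fst y.fst with h | h | h
  · rw [Wr.sup_of_lt π h, sup_eq_right.2 h.le]
  · rw [Wr.sup_of_eq π h, h, sup_idem]
  · rw [Wr.sup_of_gt π h, sup_eq_left.2 h.le]

theorem Wr.inf_fst [Lattice H] (x y : Wr π H) : (x ⊓ y).fst = x.fst ⊓ y.fst := by
  rcases lt_trichotomy x.fst y.fst with h | h | h
  · rw [Wr.inf_of_lt π h, inf_eq_left.2 h.le]
  · rw [Wr.inf_of_eq π h, h, inf_idem]
  · rw [Wr.inf_of_gt π h, inf_eq_right.2 h.le]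

noncomputable instance instLGroupWr [LGroup H] : LGroup (Wr π H) where
  toGroup := instGroupWr π
  toLattice := instLatticeWr π
  mul_le_left := by
    intro a b c h
    rw [Wr.le_def] at *
    rcases h with h | ⟨h, h'⟩
    · left
      rw [Wr.mul_fst, Wr.mul_fst]
      exact mul_lt_mul_right h _
    · right
      refine ⟨by rw [Wr.mul_fst, Wr.mul_fst, h], ?_⟩
      intro q
      rw [Wr.mul_snd, Wr.mul_snd, h]
      exact LGroup.mul_le_left _ _ _ (h' q)
  mul_le_right := by
    intro a b c h
    rw [Wr.le_def] at *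
    rcases h with h | ⟨h, h'⟩
    · left
      rw [Wr.mul_fst, Wr.mul_fst]
      exact mul_lt_mul_left h _
    · right
      refine ⟨by rw [Wr.mul_fst, Wr.mul_fst, h], ?_⟩
      intro q
      rw [Wr.mul_snd, Wr.mul_snd]
      exact LGroup.mul_le_right _ _ _ (h' _)

/-- The action on the lexicographic product. -/
noncomputable instance instLActWr [LGroup H] {Ω : Type} [LinearOrder Ω] [LAct H Ω] :
    LAct (Wr π H) (R ×ₗ Ω) where
  smul x p := toLex (x.fst * (ofLex p).1, x.snd (π (ofLex p).1) • (ofLex p).2)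
  one_smul p := by
    change toLex ((1 : R) * (ofLex p).1, (1 : H) • (ofLex p).2) = p
    rw [one_mul, one_smul]
    rfl
  mul_smul x y p := by
    change toLex (x.fst * y.fst * (ofLex p).1,
      (x.snd (π y.fst * π (ofLex p).1) * y.snd (π (ofLex p).1)) • (ofLex p).2) =
      toLex (x.fst * (y.fst * (ofLex p).1),
        x.snd (π (y.fst * (ofLex p).1)) • y.snd (π (ofLex p).1) • (ofLex p).2)
    rw [mul_assoc, map_mul, mul_smul]
  sup_smul x y p := by
    change toLex ((x ⊔ y).fst * (ofLex p).1, (x ⊔ y).snd (π (ofLex p).1) • (ofLex p).2) =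
      max (toLex (x.fst * (ofLex p).1, x.snd (π (ofLex p).1) • (ofLex p).2))
       (toLex (y.fst * (ofLex p).1, y.snd (π (ofLex p).1) • (ofLex p).2))
    rcases lt_trichotomy x.fst y.fst with h | h | h
    · rw [Wr.sup_of_lt π h, max_eq_right]
      rw [Prod.Lex.toLex_le_toLex]
      exact Or.inl (mul_lt_mul_left h _)
    · rw [Wr.sup_of_eq π h]
      change toLex (x.fst * (ofLex p).1,
        (x.snd (π (ofLex p).1) ⊔ y.snd (π (ofLex p).1)) • (ofLex p).2) = _
      rw [LAct.sup_smul, h]
      rcases le_total (x.snd (π (ofLex p).1) • (ofLex p).2)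
        (y.snd (π (ofLex p).1) • (ofLex p).2) with h' | h'
      · rw [max_eq_right h', max_eq_right]
        rw [Prod.Lex.toLex_le_toLex]
        exact Or.inr ⟨rfl, h'⟩
      · rw [max_eq_left h', max_eq_left]
        rw [Prod.Lex.toLex_le_toLex]
        exact Or.inr ⟨rfl, h'⟩
    · rw [Wr.sup_of_gt π h, max_eq_left]
      rw [Prod.Lex.toLex_le_toLex]
      exact Or.inl (mul_lt_mul_left h _)
  inf_smul x y p := by
    change toLex ((x ⊓ y).fst * (ofLex p).1, (x ⊓ y).snd (π (ofLex p).1) • (ofLex p).2) =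
      min (toLex (x.fst * (ofLex p).1, x.snd (π (ofLex p).1) • (ofLex p).2))
       (toLex (y.fst * (ofLex p).1, y.snd (π (ofLex p).1) • (ofLex p).2))
    rcases lt_trichotomy x.fst y.fst with h | h | h
    · rw [Wr.inf_of_lt π h, min_eq_left]
      rw [Prod.Lex.toLex_le_toLex]
      exact Or.inl (mul_lt_mul_left h _)
    · rw [Wr.inf_of_eq π h]
      change toLex (x.fst * (ofLex p).1,
        (x.snd (π (ofLex p).1) ⊓ y.snd (π (ofLex p).1)) • (ofLex p).2) = _
      rw [LAct.inf_smul, h]
      rcases le_total (x.snd (π (ofLex p).1) • (ofLex p).2)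
        (y.snd (π (ofLex p).1) • (ofLex p).2) with h' | h'
      · rw [min_eq_left h', min_eq_left]
        rw [Prod.Lex.toLex_le_toLex]
        exact Or.inr ⟨rfl, h'⟩
      · rw [min_eq_right h', min_eq_right]
        rw [Prod.Lex.toLex_le_toLex]
        exact Or.inr ⟨rfl, h'⟩
    · rw [Wr.inf_of_gt π h, min_eq_right]
      rw [Prod.Lex.toLex_le_toLex]
      exact Or.inl (mul_lt_mul_left h _)
  smul_le x p p' h := by
    change toLex (x.fst * (ofLex p).1, x.snd (π (ofLex p).1) • (ofLex p).2) ≤
      toLex (x.fst * (ofLex p').1, x.snd (π (ofLex p').1) • (ofLex p').2)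
    rw [Prod.Lex.toLex_le_toLex]
    rw [Prod.Lex.le_iff] at h
    rcases h with h | ⟨h, h'⟩
    · exact Or.inl (mul_lt_mul_right h _)
    · right
      refine ⟨by rw [h], ?_⟩
      simp only
      rw [h]
      exact LAct.smul_le _ _ _ h'

theorem Wr.smul_def [LGroup H] {Ω : Type} [LinearOrder Ω] [LAct H Ω] (x : Wr π H) (r : R)
    (ω : Ω) : x • (toLex (r, ω) : R ×ₗ Ω) = toLex (x.fst * r, x.snd (π r) • ω) := rfl

end Wr

end Pool.Agent.Lib.MP_67fdd1_al
end

section

set_option autoImplicit false
set_option linter.unusedVariables false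
set_option linter.unusedSectionVars false

namespace Pool.Agent.Lib.MP_67fdd1_al

open MGroup

theorem prd_mono {X X' Y Y' : MClass} (h1 : ∀ (G : Type) [MGroup G], X G → X' G)
    (h2 : ∀ (G : Type) [MGroup G], Y G → Y' G) (G : Type) [MGroup G] (h : Prd X Y G) :
    Prd X' Y' G := by
  obtain ⟨N, iN, K, iK, i, p, a1, a2, a3, a4, a5, a6, a7⟩ := h
  exact ⟨N, iN, K, iK, i, p, a1, a2, a3, a4, a5, h1 N a6, h2 K a7⟩

/-- Products of classes closed under powers are closed under powers. -/
theorem prd_pow {X Y : MClass} (h1 : ∀ (G Q : Type) [MGroup G], X G → X (Q → G))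
    (h2 : ∀ (G Q : Type) [MGroup G], Y G → Y (Q → G)) (G Q : Type) [MGroup G] (h : Prd X Y G) :
    Prd X Y (Q → G) := by
  obtain ⟨N, iN, K, iK, i, p, a1, a2, a3, a4, a5, a6, a7⟩ := h
  refine ⟨Q → N, inferInstance, Q → K, inferInstance, fun f q => i (f q), fun f q => p (f q),
    ?_, ?_, ?_, ?_, ?_, h1 N Q a6, h2 K Q a7⟩
  · exact ⟨fun a b => funext fun q => a1.map_mul _ _, fun a b => funext fun q => a1.map_sup _ _,
      fun a b => funext fun q => a1.map_inf _ _, fun a => funext fun q => a1.map_st _⟩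
  · intro f g hfg
    funext q
    exact a2 (congrFun hfg q)
  · exact ⟨fun a b => funext fun q => a3.map_mul _ _, fun a b => funext fun q => a3.map_sup _ _,
      fun a b => funext fun q => a3.map_inf _ _, fun a => funext fun q => a3.map_st _⟩
  · intro f
    choose g hg using a4
    exact ⟨fun q => g (f q), funext fun q => hg _⟩
  · intro f
    constructor
    · intro hf
      have : ∀ q, ∃ n, i n = f q := fun q => (a5 (f q)).1 (congrFun hf q)
      choose g hg using this
      exact ⟨g, funext hg⟩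
    · rintro ⟨n, hn⟩
      funext q
      exact (a5 (f q)).2 ⟨n q, congrFun hn q⟩

theorem digit_pow (b : Bool) (G Q : Type) [MGroup G] (h : Digit b G) : Digit b (Q → G) := by
  unfold Digit at *
  cases b
  · simp only [Bool.false_eq_true, if_false] at *
    intro a
    funext q
    exact h (a q)
  · simp only [if_true] at *
    intro a b
    funext q
    exact h (a q) (b q)

theorem xfin_pow (ε : ℕ → Bool) (n : ℕ) : ∀ (G Q : Type) [MGroup G], XFin ε n G →
    XFin ε n (Q → G) := by
  induction n with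
  | zero => intro G Q _ h; exact digit_pow _ G Q h
  | succ n ih =>
    intro G Q _ h
    exact prd_pow ih (fun G Q _ h => digit_pow _ G Q h) G Q h

section

variable {R Q : Type} [CommGroup R] [CommGroup Q] [LinearOrder R] [IsOrderedMonoid R]
  (π : R →* Q)

/-- The `m`-group structure on the wreath product over a set on which squares act trivially. -/
@[reducible] noncomputable def mgroupWr (hπ : ∀ r : R, π r * π r = 1) (H : Type) [MGroup H] :
    MGroup (Wr π H) where
  toLGroup := instLGroupWr π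
  st := fun x => ⟨x.fst⁻¹, fun q => st (x.snd q)⟩
  st_mul := by
    intro a b
    apply Wr.ext
    · exact mul_inv _ _
    · funext q
      change st (a.snd (π b.fst * q) * b.snd q) = st (a.snd (π b.fst⁻¹ * q)) * st (b.snd q)
      have : π b.fst⁻¹ = π b.fst := by
        rw [map_inv]
        exact inv_eq_of_mul_eq_one_left (hπ _)
      rw [this, st_mul]
  st_st := by
    intro a
    apply Wr.ext
    · exact inv_inv _
    · funext q
      exact st_st _
  st_sup := by
    intro a b
    rcases lt_trichotomy a.fst b.fst with h | h | h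
    · rw [Wr.sup_of_lt π h, Wr.inf_of_gt π]
      exact inv_lt_inv_iff.2 h
    · rw [Wr.sup_of_eq π h, Wr.inf_of_eq π]
      · apply Wr.ext
        · rfl
        · funext q
          exact st_sup _ _
      · exact congrArg (fun r : R => r⁻¹) h
    · rw [Wr.sup_of_gt π h, Wr.inf_of_lt π]
      exact inv_lt_inv_iff.2 h
  st_inf := by
    intro a b
    rcases lt_trichotomy a.fst b.fst with h | h | h
    · rw [Wr.inf_of_lt π h, Wr.sup_of_gt π]
      exact inv_lt_inv_iff.2 h
    · rw [Wr.inf_of_eq π h, Wr.sup_of_eq π]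
      · apply Wr.ext
        · rfl
        · funext q
          exact st_inf _ _
      · exact congrArg (fun r : R => r⁻¹) h
    · rw [Wr.inf_of_gt π h, Wr.sup_of_lt π]
      exact inv_lt_inv_iff.2 h

theorem wr_prd_z {X : MClass} (hπ : ∀ r : R, π r * π r = 1) (H : Type) [MGroup H]
    (hX : X (Q → H)) : @Prd X ClassZ (Wr π H) (mgroupWr π hπ H) := by
  let _ : MGroup (Wr π H) := mgroupWr π hπ H
  let _ : MGroup R := mgroupInv R
  refine ⟨Q → H, inferInstance, R, mgroupInv R, fun f => ⟨1, f⟩, fun x => x.fst, ?_, ?_, ?_, ?_,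
    ?_, hX, ?_⟩
  · refine ⟨?_, ?_, ?_, ?_⟩
    · intro a b
      apply Wr.ext
      · exact (one_mul (1 : R)).symm
      · funext q
        change a q * b q = a (π 1 * q) * b q
        rw [map_one, one_mul]
    · intro a b
      exact (Wr.sup_of_eq π (x := ⟨1, a⟩) (y := ⟨1, b⟩) rfl).symm
    · intro a b
      exact (Wr.inf_of_eq π (x := ⟨1, a⟩) (y := ⟨1, b⟩) rfl).symm
    · intro a
      apply Wr.ext
      · exact inv_one.symm
      · rfl
  · intro f g h
    exact congrArg Wr.snd h
  · exact ⟨fun a b => rfl, fun a b => Wr.sup_fst π a b, fun a b => Wr.inf_fst π a b, fun a => rfl⟩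
  · intro r
    exact ⟨⟨r, 1⟩, rfl⟩
  · intro x
    constructor
    · intro h
      exact ⟨x.snd, Wr.ext h.symm rfl⟩
    · rintro ⟨n, rfl⟩
      rfl
  · intro a
    rfl

theorem dbl_wr_prd_a {X : MClass} (H : Type) [LGroup H]
    (hX : X (Q → Dbl H)) : Prd X ClassA (Dbl (Wr π H)) := by
  refine ⟨Q → Dbl H, inferInstance, Dbl R, inferInstance,
    fun f => Dbl.mk ⟨1, fun q => (f q).fst⟩ ⟨1, fun q => (f q).snd⟩,
    fun x => Dbl.mk x.fst.fst x.snd.fst, ?_, ?_, ?_, ?_, ?_, hX, ?_⟩
  · refine ⟨?_, ?_, ?_, ?_⟩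
    · intro a b
      apply Dbl.ext
      · apply Wr.ext
        · exact (one_mul (1 : R)).symm
        · funext q
          change (a q * b q).fst = (a (π 1 * q)).fst * (b q).fst
          rw [map_one, one_mul, Dbl.mul_fst]
      · apply Wr.ext
        · exact (one_mul (1 : R)).symm
        · funext q
          change (a q * b q).snd = (a (π 1 * q)).snd * (b q).snd
          rw [map_one, one_mul, Dbl.mul_snd]
    · intro a b
      apply Dbl.ext
      · exact (Wr.sup_of_eq π (x := ⟨1, fun q => (a q).fst⟩) (y := ⟨1, fun q => (b q).fst⟩)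
          rfl).symm
      · exact (Wr.inf_of_eq π (x := ⟨1, fun q => (a q).snd⟩) (y := ⟨1, fun q => (b q).snd⟩)
          rfl).symm
    · intro a b
      apply Dbl.ext
      · exact (Wr.inf_of_eq π (x := ⟨1, fun q => (a q).fst⟩) (y := ⟨1, fun q => (b q).fst⟩)
          rfl).symm
      · exact (Wr.sup_of_eq π (x := ⟨1, fun q => (a q).snd⟩) (y := ⟨1, fun q => (b q).snd⟩)
          rfl).symm
    · intro a
      rfl
  · intro f g h
    funext q
    apply Dbl.ext
    · exact congrFun (congrArg (fun x : Dbl (Wr π H) => x.fst.snd) h) q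
    · exact congrFun (congrArg (fun x : Dbl (Wr π H) => x.snd.snd) h) q
  · refine ⟨fun a b => rfl, ?_, ?_, fun a => rfl⟩
    · intro a b
      apply Dbl.ext
      · exact Wr.sup_fst π a.fst b.fst
      · exact Wr.inf_fst π a.snd b.snd
    · intro a b
      apply Dbl.ext
      · exact Wr.inf_fst π a.fst b.fst
      · exact Wr.sup_fst π a.snd b.snd
  · intro r
    exact ⟨Dbl.mk ⟨r.fst, 1⟩ ⟨r.snd, 1⟩, rfl⟩
  · intro x
    constructor
    · intro h
      refine ⟨fun q => Dbl.mk (x.fst.snd q) (x.snd.snd q), ?_⟩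
      apply Dbl.ext
      · exact Wr.ext (congrArg Dbl.fst h).symm rfl
      · exact Wr.ext (congrArg Dbl.snd h).symm rfl
    · rintro ⟨n, rfl⟩
      rfl
  · intro a b
    apply Dbl.ext
    · exact mul_comm a.fst b.fst
    · exact mul_comm a.snd b.snd

end

/-- The classes `𝒜^{n+1}`. -/
theorem xfin_true_succ (n : ℕ) {G : Type} [MGroup G]
    (h : Prd (XFin (fun _ => true) n) ClassA G) : XFin (fun _ => true) (n + 1) G := by
  change Prd _ (Digit true) G
  unfold Digit
  simpa using h

theorem xfin_false_succ (n : ℕ) {G : Type} [MGroup G]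
    (h : Prd (XFin (fun _ => false) n) ClassZ G) : XFin (fun _ => false) (n + 1) G := by
  change Prd _ (Digit false) G
  unfold Digit
  simpa using h

theorem xfin_true_unit : XFin (fun _ => true) 0 (Dbl PUnit.{1}) := by
  change Digit true _
  unfold Digit
  simp only [if_true]
  intro a b
  rfl

theorem xfin_false_unit : XFin (fun _ => false) 0 PUnit.{1} := by
  change Digit false _
  unfold Digit
  simp only [Bool.false_eq_true, if_false]
  intro a
  rfl

/-- Varieties are closed under subalgebras. -/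
theorem holds_of_injective {G H : Type} [MGroup G] [MGroup H] (f : H → G) (hf : IsMHom f)
    (hinj : Function.Injective f) (p : MTerm × MTerm) (h : Holds G p) : Holds H p := by
  have f1 : f 1 = 1 := by
    have h1 : f 1 * f 1 = f 1 * 1 := by rw [← hf.map_mul, mul_one, mul_one]
    exact mul_left_cancel h1
  have finv : ∀ a, f a⁻¹ = (f a)⁻¹ := by
    intro a
    apply eq_inv_of_mul_eq_one_left
    rw [← hf.map_mul, inv_mul_cancel, f1]
  have key : ∀ (v : ℕ → H) (t : MTerm), f (t.eval v) = t.eval (fun i => f (v i)) := by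
    intro v t
    induction t with
    | var i => rfl
    | one => exact f1
    | mul a b iha ihb => simp only [MTerm.eval, hf.map_mul, iha, ihb]
    | inv a iha => simp only [MTerm.eval, finv, iha]
    | sup a b iha ihb => simp only [MTerm.eval, hf.map_sup, iha, ihb]
    | inf a b iha ihb => simp only [MTerm.eval, hf.map_inf, iha, ihb]
    | st a iha => simp only [MTerm.eval, hf.map_st, iha]
  intro v
  apply hinj
  rw [key, key]
  exact h _

theorem variety_sub {X : MClass} (hX : IsVariety X) {G H : Type} [MGroup G] [MGroup H]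
    (f : H → G) (hf : IsMHom f) (hinj : Function.Injective f) (h : X G) : X H := by
  obtain ⟨E, hE⟩ := hX
  rw [hE] at h ⊢
  exact fun p hp => holds_of_injective f hf hinj p (h p hp)

end Pool.Agent.Lib.MP_67fdd1_al
end
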