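import Mathlib
import Pool.Agent.Lib.MP_67fdd1_al.Prime
import Pool.Agent.Lib.MP_67fdd1_al.Classes

section

section

set_option autoImplicit false
set_option linter.unusedVariables false
set_option linter.unusedSectionVars false

namespace Pool.Agent.Lib.MP_67fdd1_al

open MGroup

section Values

variable {G : Type} [LGroup G]

theorem inf_mul_le {x y z : G} (hx : 1 ≤ x) (hy : 1 ≤ y) (hz : 1 ≤ z) :
    x ⊓ (y * z) ≤ (x ⊓ y) * (x ⊓ z) := by
  rw [mul_inf, inf_mul, inf_mul]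
  refine le_inf (le_inf ?_ ?_) (le_inf ?_ ?_)
  · exact inf_le_left.trans (le_mul_of_one_le_right' hx)
  · exact inf_le_left.trans (le_mul_of_one_le_left' hy)
  · exact inf_le_left.trans (le_mul_of_one_le_right' hz)
  · exact inf_le_right

/-- The convex `ℓ`-subgroup generated by a monoid of positive elements. -/
def CLof (M : Submonoid G) (hM : ∀ y ∈ M, 1 ≤ y) : Subgroup G where
  carrier := {x | ∃ y ∈ M, x ≤ y ∧ x⁻¹ ≤ y}
  one_mem' := ⟨1, M.one_mem, le_rfl, by simp⟩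
  mul_mem' := by
    rintro a b ⟨y, hy, h1, h2⟩ ⟨z, hz, h3, h4⟩
    refine ⟨y * z * (z * y), M.mul_mem (M.mul_mem hy hz) (M.mul_mem hz hy), ?_, ?_⟩
    · refine (mul_le_mul' h1 h3).trans ?_
      exact le_mul_of_one_le_right' (one_le_mul (hM z hz) (hM y hy))
    · rw [mul_inv_rev]
      refine (mul_le_mul' h4 h2).trans ?_
      exact le_mul_of_one_le_left' (one_le_mul (hM y hy) (hM z hz))
  inv_mem' := by
    rintro a ⟨y, hy, h1, h2⟩
    exact ⟨y, hy, h2, by rwa [inv_inv]⟩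

theorem isCL_CLof (M : Submonoid G) (hM : ∀ y ∈ M, 1 ≤ y) : IsCL (CLof M hM) where
  pos := by
    rintro a ⟨y, hy, h1, h2⟩
    refine ⟨y, hy, sup_le h1 (hM y hy), ?_⟩
    rw [inv_sup, inv_one]
    exact inf_le_right.trans (hM y hy)
  conv := by
    rintro a b h1 h2 ⟨y, hy, h3, h4⟩
    refine ⟨y, hy, h2.trans h3, ?_⟩
    exact (inv_le_one'.2 h1).trans (hM y hy)

theorem isCL_bot : IsCL (⊥ : Subgroup G) where
  pos := by
    intro a ha
    rw [Subgroup.mem_bot] at ha ⊢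
    rw [ha, sup_idem]
  conv := by
    intro a b h1 h2 hb
    rw [Subgroup.mem_bot] at hb ⊢
    rw [hb] at h2
    exact le_antisymm h2 h1

theorem isCL_sInf (S : Set (Subgroup G)) (h : ∀ W ∈ S, IsCL W) : IsCL (sInf S) where
  pos := by
    intro a ha
    rw [Subgroup.mem_sInf] at ha ⊢
    exact fun W hW => (h W hW).pos (ha W hW)
  conv := by
    intro a b h1 h2 hb
    rw [Subgroup.mem_sInf] at hb ⊢
    exact fun W hW => (h W hW).conv h1 h2 (hb W hW)

theorem isCL_inf {A B : Subgroup G} (hA : IsCL A) (hB : IsCL B) : IsCL (A ⊓ B) where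
  pos := fun ha => ⟨hA.pos ha.1, hB.pos ha.2⟩
  conv := fun h1 h2 hb => ⟨hA.conv h1 h2 hb.1, hB.conv h1 h2 hb.2⟩

/-- The cover of a convex `ℓ`-subgroup. -/
def cover (V : Subgroup G) : Subgroup G := sInf {W | IsCL W ∧ V < W}

theorem isCL_cover (V : Subgroup G) : IsCL (cover V) := isCL_sInf _ (fun _ hW => hW.1)

theorem le_cover (V : Subgroup G) : V ≤ cover V := le_sInf (fun _ hW => hW.2.le)

theorem cover_le {V W : Subgroup G} (hW : IsCL W) (h : V < W) : cover V ≤ W :=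
  sInf_le ⟨hW, h⟩

/-- Convex `ℓ`-subgroups maximal with respect to not containing a given finite set. -/
theorem exists_value (F : Finset G) (H0 : Subgroup G) (hH0 : IsCL H0) (hF : ¬ (F : Set G) ⊆ H0) :
    ∃ V : Subgroup G, IsCL V ∧ H0 ≤ V ∧ ¬ (F : Set G) ⊆ V ∧
      ∀ W : Subgroup G, IsCL W → V < W → (F : Set G) ⊆ W := by
  have := zorn_le_nonempty₀ {V : Subgroup G | IsCL V ∧ H0 ≤ V ∧ ¬ (F : Set G) ⊆ V} ?_ H0
    ⟨hH0, le_rfl, hF⟩
  · obtain ⟨V, hV0, hV⟩ := this
    refine ⟨V, hV.prop.1, hV.prop.2.1, hV.prop.2.2, ?_⟩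
    intro W hW hVW
    by_contra hcon
    exact hVW.not_ge (hV.le_of_ge ⟨hW, hV.prop.2.1.trans hVW.le, hcon⟩ hVW.le)
  · intro c hc hchain y hy
    have hne : c.Nonempty := ⟨y, hy⟩
    have hdir : DirectedOn (· ≤ ·) c := hchain.directedOn
    refine ⟨sSup c, ⟨?_, ?_, ?_⟩, fun z hz => le_sSup hz⟩
    · constructor
      · intro a ha
        rw [Subgroup.mem_sSup_of_directedOn hne hdir] at ha ⊢
        obtain ⟨s, hs, has⟩ := ha
        exact ⟨s, hs, (hc hs).1.pos has⟩
      · intro a b h1 h2 hb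
        rw [Subgroup.mem_sSup_of_directedOn hne hdir] at hb ⊢
        obtain ⟨s, hs, has⟩ := hb
        exact ⟨s, hs, (hc hs).1.conv h1 h2 has⟩
    · exact (hc hy).2.1.trans (le_sSup hy)
    · intro hcon
      have : ∀ F' : Finset G, (F' : Set G) ⊆ (sSup c : Subgroup G) →
          ∃ s ∈ c, (F' : Set G) ⊆ (s : Subgroup G) := by
        classical
        intro F'
        induction F' using Finset.induction_on with
        | empty => intro _; exact ⟨y, hy, by simp⟩
        | insert a F' ha ih =>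
          intro h
          rw [Finset.coe_insert, Set.insert_subset_iff] at h
          obtain ⟨s, hs, hs'⟩ := ih h.2
          have h1 : a ∈ (sSup c : Subgroup G) := h.1
          rw [Subgroup.mem_sSup_of_directedOn hne hdir] at h1
          obtain ⟨t, ht, ht'⟩ := h1
          obtain ⟨u, hu, hsu, htu⟩ := hdir s hs t ht
          refine ⟨u, hu, ?_⟩
          rw [Finset.coe_insert, Set.insert_subset_iff]
          exact ⟨htu ht', hs'.trans hsu⟩
      obtain ⟨s, hs, hs'⟩ := this F hcon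
      exact (hc hs).2.2 hs'

/-- Values of elements are prime. -/
theorem value_prime (w : G) (V : Subgroup G) (hV : IsCL V) (hw : w ∉ V)
    (hmax : ∀ W : Subgroup G, IsCL W → V < W → w ∈ W) (g : G) : g ⊔ 1 ∈ V ∨ g⁻¹ ⊔ 1 ∈ V := by
  by_contra hcon
  push Not at hcon
  obtain ⟨ha, hb⟩ := hcon
  have hab : (g ⊔ 1) ⊓ (g⁻¹ ⊔ 1) = 1 := by
    have h1 : g⁻¹ ⊔ 1 = g⁻¹ * (g ⊔ 1) := by rw [mul_sup, inv_mul_cancel, mul_one, sup_comm]
    have h2 : (g ⊔ 1) ⊓ (g⁻¹ ⊔ 1) = (1 ⊓ g⁻¹) * (g ⊔ 1) := by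
      rw [inf_mul, one_mul, ← h1]
    rw [h2]
    have h3 : (1 : G) ⊓ g⁻¹ = (g ⊔ 1)⁻¹ := by rw [inv_sup, inv_one, inf_comm]
    rw [h3, inv_mul_cancel]
  generalize g ⊔ 1 = a at ha hab
  generalize g⁻¹ ⊔ 1 = b at hb hab
  have ha1 : 1 ≤ a := by rw [← hab]; exact inf_le_left
  have hb1 : 1 ≤ b := by rw [← hab]; exact inf_le_right
  have pos : ∀ c : G, 1 ≤ c → ∀ y ∈ Submonoid.closure ({x | x ∈ V ∧ 1 ≤ x} ∪ {c}), 1 ≤ y := by
    intro c hc y hy
    induction hy using Submonoid.closure_induction with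
    | mem x hx =>
      rcases hx with hx | hx
      · exact hx.2
      · rw [Set.mem_singleton_iff] at hx
        rw [hx]; exact hc
    | one => exact le_rfl
    | mul x y _ _ hx hy => exact one_le_mul hx hy
  have key : ∀ c : G, c ∉ V → (hc : 1 ≤ c) →
      ∃ y ∈ Submonoid.closure ({x | x ∈ V ∧ 1 ≤ x} ∪ {c}), w ≤ y ∧ w⁻¹ ≤ y := by
    intro c hc hc1
    have h1 := hmax (CLof _ (pos c hc1)) (isCL_CLof _ _) ?_
    · exact h1
    · refine lt_of_le_of_ne ?_ ?_
      · intro x hx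
        refine ⟨(x ⊔ 1) * (x⁻¹ ⊔ 1), ?_, ?_, ?_⟩
        · apply Submonoid.mul_mem
          · exact Submonoid.subset_closure (Or.inl ⟨hV.pos hx, le_sup_right⟩)
          · exact Submonoid.subset_closure (Or.inl ⟨hV.pos (V.inv_mem hx), le_sup_right⟩)
        · exact le_sup_left.trans (le_mul_of_one_le_right' le_sup_right)
        · exact le_sup_left.trans (le_mul_of_one_le_left' le_sup_right)
      · intro heq
        apply hc
        rw [heq]
        refine ⟨c, Submonoid.subset_closure (Or.inr rfl), le_rfl, ?_⟩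
        exact (inv_le_one'.2 hc1).trans hc1
  obtain ⟨y, hy, hy1, hy2⟩ := key a ha ha1
  obtain ⟨z, hz, hz1, hz2⟩ := key b hb hb1
  have hVinf : ∀ x ∈ V, 1 ≤ x → ∀ u : G, 1 ≤ u → x ⊓ u ∈ V := fun x hx hx1 u hu =>
    hV.conv (le_inf hx1 hu) inf_le_left hx
  have h1 : ∀ z ∈ Submonoid.closure ({x | x ∈ V ∧ 1 ≤ x} ∪ {b}), a ⊓ z ∈ V := by
    intro z hz
    induction hz using Submonoid.closure_induction with
    | mem x hx =>
      rcases hx with hx | hx
      · rw [inf_comm]; exact hVinf x hx.1 hx.2 a ha1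
      · rw [Set.mem_singleton_iff] at hx
        rw [hx, hab]; exact V.one_mem
    | one => rw [inf_eq_right.2 ha1]; exact V.one_mem
    | mul x y hx0 hy0 hx hy =>
      have px := pos b hb1 x hx0
      have py := pos b hb1 y hy0
      exact hV.conv (le_inf ha1 (one_le_mul px py)) (inf_mul_le ha1 px py) (V.mul_mem hx hy)
  have h2 : ∀ y ∈ Submonoid.closure ({x | x ∈ V ∧ 1 ≤ x} ∪ {a}), z ⊓ y ∈ V := by
    intro y hy
    have pz := pos b hb1 z hz
    induction hy using Submonoid.closure_induction with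
    | mem x hx =>
      rcases hx with hx | hx
      · rw [inf_comm]; exact hVinf x hx.1 hx.2 z pz
      · rw [Set.mem_singleton_iff] at hx
        rw [hx, inf_comm]; exact h1 z hz
    | one => rw [inf_eq_right.2 pz]; exact V.one_mem
    | mul x y hx0 hy0 hx hy =>
      have px := pos a ha1 x hx0
      have py := pos a ha1 y hy0
      exact hV.conv (le_inf pz (one_le_mul px py)) (inf_mul_le pz px py) (V.mul_mem hx hy)
  apply hw
  refine hV.mem_of_le_of_le (a := (z ⊓ y)⁻¹) (c := z ⊓ y) ?_ (le_inf hz1 hy1)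
    (V.inv_mem (h2 y hy)) (h2 y hy)
  rw [inv_le']
  exact le_inf hz2 hy2

/-- For every `w ≠ 1` there is a prime not containing `w`, maximal with this property. -/
theorem exists_prime_value (w : G) (hw : w ≠ 1) : ∃ P : PSub G, w ∉ P.H ∧
    ∀ W : Subgroup G, IsCL W → P.H < W → w ∈ W := by
  obtain ⟨V, h1, h2, h3, h4⟩ := exists_value {w} ⊥ isCL_bot (by simpa using hw)
  have h3' : w ∉ V := by simpa using h3
  have h4' : ∀ W : Subgroup G, IsCL W → V < W → w ∈ W := by simpa using h4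
  exact ⟨⟨V, h1, value_prime w V h1 h3' h4'⟩, h3', h4'⟩

end Values

end Pool.Agent.Lib.MP_67fdd1_al
end

section

set_option autoImplicit false
set_option linter.unusedVariables false
set_option linter.unusedSectionVars false

namespace Pool.Agent.Lib.MP_67fdd1_al

open MGroup

/-- Transitivity of an action on a chain. -/
def Trans (G Ω : Type) [LGroup G] [LinearOrder Ω] [LAct G Ω] : Prop :=
  ∀ a b : Ω, ∃ g : G, g • a = b

/-- Primitivity (with respect to convex congruences) of an action on a chain. -/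
def Prim (G Ω : Type) [LGroup G] [LinearOrder Ω] [LAct G Ω] : Prop :=
  ∀ r : Ω → Ω → Prop, Equivalence r → (∀ (g : G) (a b : Ω), r a b → r (g • a) (g • b)) →
    (∀ a b c : Ω, a ≤ b → b ≤ c → r a c → r a b) → (∀ a b, r a b → a = b) ∨ (∀ a b, r a b)

section SymReg

variable {G Ω : Type} [MGroup G] [LinearOrder Ω] [LAct G Ω]

theorem fix_sup_one {g : G} {a : Ω} (h : g • a = a) : (g ⊔ 1) • a = a := by
  rw [LAct.sup_smul, h, one_smul, max_self]

theorem fix_inv {g : G} {a : Ω} (h : g • a = a) : g⁻¹ • a = a := by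
  rw [inv_smul_eq_iff, h]

theorem sym_normalizer (α : Ω) (hsym : ∀ (g : G) (a : Ω), g • a = a → st g • a = a) (k : G) :
    k⁻¹ * st k ∈ Subgroup.normalizer (MulAction.stabilizer G α : Set G) := by
  have key : ∀ (k u : G), u • α = α → (k⁻¹ * st k * u * (k⁻¹ * st k)⁻¹) • α = α := by
    intro k u hu
    have h1 : st u • α = α := hsym u α hu
    have h2 : (k * st u * k⁻¹) • (k • α) = k • α := by
      rw [smul_smul, inv_mul_cancel_right, mul_smul, h1]
    have h3 := hsym _ _ h2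
    rw [st_mul, st_mul, st_st, st_inv] at h3
    have h4 : k⁻¹ * st k * u * (k⁻¹ * st k)⁻¹ = k⁻¹ * ((st k * u * (st k)⁻¹) * k) := by group
    rw [h4, mul_smul, mul_smul, h3, inv_smul_smul]
  rw [Subgroup.mem_normalizer_iff]
  intro u
  rw [MulAction.mem_stabilizer_iff, MulAction.mem_stabilizer_iff]
  constructor
  · exact key k u
  · intro h
    have h1 := key (st k) _ h
    rw [st_st] at h1
    have h2 : (st k)⁻¹ * k * (k⁻¹ * st k * u * (k⁻¹ * st k)⁻¹) * ((st k)⁻¹ * k)⁻¹ = u := by group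
    rwa [h2] at h1

/-- If all point stabilisers of a transitive primitive action are invariant under the star, then
they are trivial. -/
theorem sym_regular (htr : Trans G Ω) (hpr : Prim G Ω)
    (hsym : ∀ (g : G) (a : Ω), g • a = a → st g • a = a) (g : G) (a b : Ω) (hg : g • a = a) :
    g • b = b := by
  by_contra hcon
  -- a positive element fixing `a` and moving `b` upwards
  obtain ⟨v, hv1, hva, hvb⟩ : ∃ v : G, 1 ≤ v ∧ v • a = a ∧ b < v • b := by
    rcases lt_or_gt_of_ne hcon with h | h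
    · refine ⟨g⁻¹ ⊔ 1, le_sup_right, fix_sup_one (fix_inv hg), ?_⟩
      rw [LAct.sup_smul, one_smul]
      refine lt_of_lt_of_le ?_ (le_max_left _ _)
      rw [← smul_lt_iff g, smul_inv_smul]
      exact h
    · refine ⟨g ⊔ 1, le_sup_right, fix_sup_one hg, ?_⟩
      rw [LAct.sup_smul, one_smul]
      exact lt_of_lt_of_le h (le_max_left _ _)
  clear hcon hg
  obtain ⟨g, hgb⟩ := htr a b
  let v' : G := (st v)⁻¹
  have hv'1 : 1 ≤ v' := by
    change 1 ≤ (st v)⁻¹
    rw [one_le_inv', ← st_one]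
    exact st_anti hv1
  have hv'a : v' • a = a := fix_inv (hsym v a hva)
  let n : G := g⁻¹ * (v' * v) * g
  have hn1 : 1 ≤ n := by
    have := mul_le_mul_left (mul_le_mul_right (one_le_mul hv'1 hv1) g⁻¹) g
    simpa using this
  have hna : a < n • a := by
    change a < (g⁻¹ * (v' * v) * g) • a
    rw [mul_smul, hgb, mul_smul, ← smul_lt_iff g, smul_inv_smul, hgb, mul_smul]
    refine lt_of_lt_of_le hvb ?_
    have := smul_mono hv'1 (v • b)
    rwa [one_smul] at this
  have hnN : n ∈ Subgroup.normalizer (MulAction.stabilizer G a : Set G) := by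
    have h1 := Subgroup.mul_mem _ (sym_normalizer a hsym g)
      (Subgroup.inv_mem _ (sym_normalizer a hsym (v * g)))
    convert h1 using 1
    change g⁻¹ * ((st v)⁻¹ * v) * g = _
    rw [st_mul]
    group
  have hfix : ∀ (j : ℤ) (u : G), u • a = a → (u * n ^ j) • a = n ^ j • a := by
    intro j u hu
    have h1 := Subgroup.zpow_mem _ hnN (-j)
    rw [Subgroup.mem_normalizer_iff] at h1
    have h2 := (h1 u).1 (by rwa [MulAction.mem_stabilizer_iff])
    rw [MulAction.mem_stabilizer_iff] at h2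
    have h3 : u * n ^ j = n ^ j * (n ^ (-j) * u * (n ^ (-j))⁻¹) := by
      simp [mul_assoc]
    rw [h3, mul_smul, h2]
  choose rep hrep using fun ω : Ω => htr a ω
  let Z : ℤ → Ω → Ω := fun j ω => rep ω • (n ^ j • a)
  have Z1 : ∀ (j : ℤ) (k : G), Z j (k • a) = k • (n ^ j • a) := by
    intro j k
    change rep (k • a) • (n ^ j • a) = _
    have h1 : (k⁻¹ * rep (k • a)) • a = a := by
      rw [mul_smul, hrep, inv_smul_smul]
    have h2 := hfix j _ h1
    rw [mul_smul, mul_smul, inv_smul_eq_iff] at h2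
    exact h2
  have Z2 : ∀ (j : ℤ) (k : G) (ω : Ω), Z j (k • ω) = k • Z j ω := by
    intro j k ω
    obtain ⟨m, rfl⟩ := htr a ω
    rw [smul_smul, Z1, Z1, mul_smul]
  have Z3 : ∀ (j : ℤ) (ω ω' : Ω), ω ≤ ω' → Z j ω ≤ Z j ω' := by
    intro j ω ω' h
    obtain ⟨m, rfl⟩ := htr a ω
    obtain ⟨m', rfl⟩ := htr a ω'
    have h1 : (m'⁻¹ * m) • a ≤ a := by
      rw [← smul_le_iff m', ← mul_smul, mul_inv_cancel_left]
      exact h
    have h2 : ((m'⁻¹ * m) ⊓ 1) • a = (m'⁻¹ * m) • a := by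
      rw [LAct.inf_smul, one_smul, min_eq_left h1]
    have h3 : Z j ((m'⁻¹ * m) • a) ≤ Z j a := by
      rw [← h2, Z2]
      have := smul_mono (inf_le_right : (m'⁻¹ * m) ⊓ 1 ≤ 1) (Z j a)
      rwa [one_smul] at this
    have h4 := LAct.smul_le m' _ _ h3
    rw [← Z2, ← Z2, smul_smul, mul_inv_cancel_left] at h4
    exact h4
  have Z4 : ∀ (i j : ℤ) (ω : Ω), Z i (Z j ω) = Z (i + j) ω := by
    intro i j ω
    obtain ⟨m, rfl⟩ := htr a ω
    rw [Z1, Z1, smul_smul, Z1, smul_smul, mul_assoc, ← zpow_add, add_comm j i, mul_smul]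
  have Z0 : ∀ ω : Ω, Z 0 ω = ω := by
    intro ω
    change rep ω • (n ^ (0 : ℤ) • a) = ω
    rw [zpow_zero, one_smul, hrep]
  have Z5 : ∀ (i j : ℤ) (ω : Ω), i ≤ j → Z i ω ≤ Z j ω := by
    intro i j ω hij
    obtain ⟨m, rfl⟩ := htr a ω
    rw [Z1, Z1]
    apply LAct.smul_le
    apply smul_mono
    obtain ⟨k, rfl⟩ := Int.le.dest hij
    rw [zpow_add, zpow_natCast]
    exact le_mul_of_one_le_right' (one_le_pow_of_one_le' hn1 k)
  have hpr' := hpr (fun ω ω' => ∃ k : ℕ, Z (-k) ω ≤ ω' ∧ ω' ≤ Z k ω) ?_ ?_ ?_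
  · rcases hpr' with h | h
    · have := h a (n • a) ⟨1, ?_, ?_⟩
      · exact hna.ne this
      · refine (Z5 (-(1:ℕ)) 0 a (by norm_num)).trans ?_
        rw [Z0]
        exact hna.le
      · have h1 := Z1 1 1
        rw [one_smul, one_smul, zpow_one] at h1
        rw [Nat.cast_one, h1]
    · obtain ⟨m, hm1, hm2⟩ := h a b
      have Za : ∀ j : ℤ, Z j a = n ^ j • a := by
        intro j
        have h1 := Z1 j 1
        rwa [one_smul, one_smul] at h1
      rw [Za] at hm1 hm2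
      -- powers of `v' v` keep `b` below `n ^ m • a`
      have hvv : ∀ k : ℕ, ((v' * v) ^ k) • b ≤ n ^ (m : ℤ) • a := by
        intro k
        have h1 : ((v' * v) ^ k) • a = a := by
          have h2 : v' * v ∈ MulAction.stabilizer G a := by
            rw [MulAction.mem_stabilizer_iff, mul_smul, hva, hv'a]
          have h3 := Subgroup.pow_mem _ h2 k
          rwa [MulAction.mem_stabilizer_iff] at h3
        have h4 := hfix m _ h1
        rw [mul_smul] at h4
        rw [← h4]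
        exact LAct.smul_le _ _ _ hm2
      have hvk : ∀ k : ℕ, ((v' * v) ^ k) • b = Z k b := by
        intro k
        rw [← hgb, Z1, smul_smul, smul_smul]
        congr 1
        change _ = g * (g⁻¹ * (v' * v) * g) ^ (k : ℤ)
        rw [zpow_natCast]
        have : ∀ k : ℕ, g * (g⁻¹ * (v' * v) * g) ^ k = (v' * v) ^ k * g := by
          intro k
          induction k with
          | zero => simp
          | succ k ih =>
            rw [pow_succ, ← mul_assoc, ih, pow_succ]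
            group
        exact (this k).symm
      have h5 := hvv (m + m + 1)
      rw [hvk] at h5
      have h6 : Z ((m + m + 1 : ℕ) : ℤ) (n ^ (-(m : ℤ)) • a) ≤ n ^ (m : ℤ) • a :=
        (Z3 _ _ _ hm1).trans h5
      rw [← Za, Z4, ← Za] at h6
      have h7 : ((m + m + 1 : ℕ) : ℤ) + -(m : ℤ) = m + 1 := by push_cast; ring
      rw [h7, add_comm, ← Z4] at h6
      have h8 : Z (m : ℤ) a < Z 1 (Z (m : ℤ) a) := by
        have : ∀ ω : Ω, ω < Z 1 ω := by
          intro ω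
          obtain ⟨k, rfl⟩ := htr a ω
          rw [Z1, zpow_one, smul_lt_iff]
          exact hna
        exact this _
      exact absurd h6 h8.not_ge
  · refine ⟨?_, ?_, ?_⟩
    · intro ω
      refine ⟨0, ?_, ?_⟩
      · simp [Z0]
      · simp [Z0]
    · rintro ω ω' ⟨k, h1, h2⟩
      refine ⟨k, ?_, ?_⟩
      · have := Z3 (-(k : ℤ)) _ _ h2
        rwa [Z4, neg_add_cancel, Z0] at this
      · have := Z3 (k : ℤ) _ _ h1
        rwa [Z4, add_neg_cancel, Z0] at this
    · rintro ω ω' ω'' ⟨k, h1, h2⟩ ⟨l, h3, h4⟩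
      refine ⟨k + l, ?_, ?_⟩
      · refine le_trans ?_ h3
        have := Z3 (-(l : ℤ)) _ _ h1
        rw [Z4] at this
        refine le_trans (le_of_eq ?_) this
        congr 1
        push_cast
        ring
      · refine h4.trans ?_
        have := Z3 (l : ℤ) _ _ h2
        rw [Z4] at this
        refine this.trans (le_of_eq ?_)
        congr 1
        push_cast
        ring
  · rintro k ω ω' ⟨l, h1, h2⟩
    refine ⟨l, ?_, ?_⟩
    · rw [Z2]; exact LAct.smul_le _ _ _ h1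
    · rw [Z2]; exact LAct.smul_le _ _ _ h2
  · rintro ω ω' ω'' h1 h2 ⟨k, h3, h4⟩
    refine ⟨k, ?_, h2.trans h4⟩
    refine le_trans ?_ h1
    have := Z5 (-(k : ℤ)) 0 ω (by simp)
    rwa [Z0] at this

end SymReg

end Pool.Agent.Lib.MP_67fdd1_al
end
end

section

section

set_option autoImplicit false
set_option linter.unusedVariables false
set_option linter.unusedSectionVars false

namespace Pool.Agent.Lib.MP_67fdd1_al

open MGroup

/-- Sub-`m`-groups. -/
structure MSub (G : Type) [MGroup G] where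
  U : Subgroup G
  sup_mem : ∀ {a b : G}, a ∈ U → b ∈ U → a ⊔ b ∈ U
  st_mem : ∀ {a : G}, a ∈ U → st a ∈ U

/-- The underlying type of a sub-`m`-group. -/
def MSub.T {G : Type} [MGroup G] (S : MSub G) : Type := S.U

section MSubT
variable {G : Type} [MGroup G] (S : MSub G)

theorem MSub.inf_mem {a b : G} (ha : a ∈ S.U) (hb : b ∈ S.U) : a ⊓ b ∈ S.U := by
  have h : a ⊓ b = (a⁻¹ ⊔ b⁻¹)⁻¹ := by rw [inv_sup, inv_inv, inv_inv]
  rw [h]
  exact S.U.inv_mem (S.sup_mem (S.U.inv_mem ha) (S.U.inv_mem hb))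

/-- inclusion -/
def MSub.coe (x : S.T) : G := x.1

theorem MSub.coe_mem (x : S.T) : S.coe x ∈ S.U := x.2

theorem MSub.coe_inj {x y : S.T} (h : S.coe x = S.coe y) : x = y := Subtype.ext h

/-- elements of the sub-`m`-group -/
def MSub.el (x : G) (h : x ∈ S.U) : S.T := ⟨x, h⟩

theorem MSub.coe_el (x : G) (h : x ∈ S.U) : S.coe (S.el x h) = x := rfl

instance : MGroup S.T where
  toGroup := (inferInstance : Group S.U)
  le := fun x y => x.1 ≤ y.1
  le_refl := fun x => le_refl x.1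
  le_trans := fun x y z h1 h2 => le_trans (a := x.1) h1 h2
  le_antisymm := fun x y h1 h2 => Subtype.ext (le_antisymm h1 h2)
  sup := fun x y => ⟨x.1 ⊔ y.1, S.sup_mem x.2 y.2⟩
  inf := fun x y => ⟨x.1 ⊓ y.1, S.inf_mem x.2 y.2⟩
  le_sup_left := fun x y => (le_sup_left : x.1 ≤ x.1 ⊔ y.1)
  le_sup_right := fun x y => (le_sup_right : y.1 ≤ x.1 ⊔ y.1)
  sup_le := fun x y z h1 h2 => (sup_le h1 h2 : x.1 ⊔ y.1 ≤ z.1)
  inf_le_left := fun x y => (inf_le_left : x.1 ⊓ y.1 ≤ x.1)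
  inf_le_right := fun x y => (inf_le_right : x.1 ⊓ y.1 ≤ y.1)
  le_inf := fun x y z h1 h2 => (le_inf h1 h2 : x.1 ≤ y.1 ⊓ z.1)
  mul_le_left := fun a b c h => LGroup.mul_le_left a.1 b.1 c.1 h
  mul_le_right := fun a b c h => LGroup.mul_le_right a.1 b.1 c.1 h
  st := fun x => ⟨st x.1, S.st_mem x.2⟩
  st_mul := fun a b => Subtype.ext (st_mul _ _)
  st_st := fun a => Subtype.ext (st_st _)
  st_sup := fun a b => Subtype.ext (st_sup _ _)
  st_inf := fun a b => Subtype.ext (st_inf _ _)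

theorem MSub.coe_mul (x y : S.T) : S.coe (x * y) = S.coe x * S.coe y := rfl
theorem MSub.coe_one : S.coe 1 = 1 := rfl
theorem MSub.coe_inv (x : S.T) : S.coe x⁻¹ = (S.coe x)⁻¹ := rfl
theorem MSub.coe_sup (x y : S.T) : S.coe (x ⊔ y) = S.coe x ⊔ S.coe y := rfl
theorem MSub.coe_inf (x y : S.T) : S.coe (x ⊓ y) = S.coe x ⊓ S.coe y := rfl
theorem MSub.coe_st (x : S.T) : S.coe (st x) = st (S.coe x) := rfl
theorem MSub.coe_le (x y : S.T) : x ≤ y ↔ S.coe x ≤ S.coe y := Iff.rfl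

theorem MSub.coe_hom : IsMHom S.coe :=
  ⟨fun _ _ => rfl, fun _ _ => rfl, fun _ _ => rfl, fun _ => rfl⟩

/-- The trace of a prime on a sub-`m`-group. -/
def MSub.trace (V : PSub G) : PSub S.T where
  H := V.H.comap S.U.subtype
  cl := ⟨fun {a} h => V.cl.pos (a := S.coe a) h,
    fun {a b} h1 h2 h => V.cl.conv (a := S.coe a) (b := S.coe b) h1 h2 h⟩
  pr := fun a => V.pr (S.coe a)

theorem MSub.mem_trace (V : PSub G) (x : S.T) : x ∈ (S.trace V).H ↔ S.coe x ∈ V.H := Iff.rfl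

theorem MSub.trace_pt_eq (V : PSub G) (x y : S.T) :
    (S.trace V).pt x = (S.trace V).pt y ↔ V.pt (S.coe x) = V.pt (S.coe y) := by
  rw [PSub.pt_eq, PSub.pt_eq]
  exact Iff.rfl

theorem MSub.trace_pt_le (V : PSub G) (x y : S.T) :
    (S.trace V).pt x ≤ (S.trace V).pt y ↔ V.pt (S.coe x) ≤ V.pt (S.coe y) := by
  rw [PSub.pt_le_pt, PSub.pt_le_pt]
  exact Iff.rfl

end MSubT

theorem trans_cos {G : Type} [LGroup G] (P : PSub G) : Trans G (Cos P) := by
  intro a b
  obtain ⟨g, rfl⟩ := P.exists_rep a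
  obtain ⟨h, rfl⟩ := P.exists_rep b
  exact ⟨h * g⁻¹, by rw [P.smul_pt, inv_mul_cancel_right]⟩

section Red

variable {G : Type} [MGroup G]

/-- The image of a subgroup under the star. -/
def stSub (H : Subgroup G) : Subgroup G where
  carrier := {x | st x ∈ H}
  one_mem' := by
    change st (1 : G) ∈ H
    rw [st_one]; exact H.one_mem
  mul_mem' := by
    intro a b ha hb
    change st (a * b) ∈ H
    rw [st_mul]; exact H.mul_mem ha hb
  inv_mem' := by
    intro a ha
    change st a⁻¹ ∈ H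
    rw [st_inv]; exact H.inv_mem ha

theorem mem_stSub {H : Subgroup G} {x : G} : x ∈ stSub H ↔ st x ∈ H := Iff.rfl

theorem isCL_stSub {H : Subgroup G} (hH : IsCL H) : IsCL (stSub H) where
  pos := by
    intro a ha
    rw [mem_stSub] at *
    rw [st_sup, st_one]
    exact hH.inf_mem ha H.one_mem
  conv := by
    intro a b h1 h2 hb
    rw [mem_stSub] at *
    have h3 := st_anti h1
    have h4 := st_anti h2
    rw [st_one] at h3
    exact hH.mem_of_le_of_le h4 h3 hb H.one_mem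

theorem isCL_coverInf (V : Subgroup G) : IsCL (cover V ⊓ stSub (cover V)) :=
  isCL_inf (isCL_cover V) (isCL_stSub (isCL_cover V))

/-- The sub-`m`-group `V^* ∩ (V^*)_*`. -/
def covSub (V : PSub G) : MSub G where
  U := cover V.H ⊓ stSub (cover V.H)
  sup_mem := fun ha hb => (isCL_coverInf V.H).sup_mem ha hb
  st_mem := by
    intro a ha
    refine ⟨ha.2, ?_⟩
    change st (st a) ∈ cover V.H
    rw [st_st]
    exact ha.1

theorem act_as_pos (V : PSub G) (y : G) (hy : y ∈ cover V.H) (hy1 : 1 ≤ y) :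
    ∃ u ∈ (covSub V).U, ∀ h ∈ cover V.H, V.pt (y * h) = V.pt (u * h) := by
  by_cases hc : cover V.H ≤ stSub (cover V.H)
  · exact ⟨y, ⟨hy, hc hy⟩, fun _ _ => rfl⟩
  · obtain ⟨c, hc1, hc2⟩ := SetLike.not_le_iff_exists.1 hc
    -- a positive element of `(V^*)_*` outside `V^*`
    obtain ⟨m, hm1, hm2, hm3⟩ : ∃ m : G, 1 ≤ m ∧ m ∈ stSub (cover V.H) ∧ m ∉ cover V.H := by
      have h0 : st c ∈ stSub (cover V.H) := by rw [mem_stSub, st_st]; exact hc1
      have h1 : st c ∉ cover V.H := hc2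
      by_cases h2 : st c ⊔ 1 ∈ cover V.H
      · refine ⟨(st c)⁻¹ ⊔ 1, le_sup_right, ?_, ?_⟩
        · exact (isCL_stSub (isCL_cover V.H)).pos (Subgroup.inv_mem _ h0)
        · intro h3
          exact h1 ((isCL_cover V.H).mem_of_parts h2 h3)
      · exact ⟨st c ⊔ 1, le_sup_right, (isCL_stSub (isCL_cover V.H)).pos h0, h2⟩
    refine ⟨y ⊓ m, ⟨?_, ?_⟩, ?_⟩
    · exact (isCL_cover V.H).conv (le_inf hy1 hm1) inf_le_left hy
    · exact (isCL_stSub (isCL_cover V.H)).conv (le_inf hy1 hm1) inf_le_right hm2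
    · intro h hh
      rw [inf_mul, V.pt_inf, eq_comm, min_eq_left]
      rw [V.pt_le_pt]
      rcases V.rel_total (y * h) (m * h) with h1 | h1
      · exact h1
      · exfalso
        apply hm3
        have h2 : (y * h)⁻¹ * (m * h) ⊔ 1 ∈ cover V.H := le_cover V.H h1
        have h3 : y * h * ((y * h)⁻¹ * (m * h) ⊔ 1) * h⁻¹ ∈ cover V.H :=
          Subgroup.mul_mem _ (Subgroup.mul_mem _ (Subgroup.mul_mem _ hy hh) h2)
            (Subgroup.inv_mem _ hh)
        refine (isCL_cover V.H).conv hm1 ?_ h3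
        have h4 := mul_le_mul_left (mul_le_mul_right
          (le_sup_left : (y * h)⁻¹ * (m * h) ≤ (y * h)⁻¹ * (m * h) ⊔ 1) (y * h)) h⁻¹
        rwa [mul_inv_cancel_left, mul_inv_cancel_right] at h4

theorem act_as (V : PSub G) (y : G) (hy : y ∈ cover V.H) :
    ∃ u ∈ (covSub V).U, ∀ h ∈ cover V.H, V.pt (y * h) = V.pt (u * h) := by
  obtain ⟨u1, hu1, h1⟩ := act_as_pos V (y ⊔ 1) ((isCL_cover V.H).pos hy) le_sup_right
  obtain ⟨u2, hu2, h2⟩ := act_as_pos V (y⁻¹ ⊔ 1)
    ((isCL_cover V.H).pos (Subgroup.inv_mem _ hy)) le_sup_right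
  refine ⟨u1 * u2⁻¹, Subgroup.mul_mem _ hu1 (Subgroup.inv_mem _ hu2), ?_⟩
  intro h hh
  have h3 : u2⁻¹ * h ∈ cover V.H := Subgroup.mul_mem _ (Subgroup.inv_mem _ hu2.1) hh
  have h4 := h2 _ h3
  rw [mul_inv_cancel_left, ← V.smul_pt, ← eq_inv_smul_iff, V.smul_pt] at h4
  have h5 : V.pt ((y ⊔ 1) * (u2⁻¹ * h)) = V.pt (y * h) := by
    rw [← V.smul_pt (y ⊔ 1), h4, V.smul_pt, ← mul_assoc, pos_neg_eq]
  rw [mul_assoc, ← h1 _ h3, h5]

theorem prim_covSub (V : PSub G) : Prim (covSub V).T (Cos ((covSub V).trace V)) := by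
  intro r hr hinv hconv
  let S := covSub V
  let V' := S.trace V
  have key : ∀ u w : S.T, V.pt (S.coe u) = V.pt (S.coe w) → r (V'.pt u) (V'.pt 1) →
      r (V'.pt w) (V'.pt 1) := by
    intro u w h1 h2
    rw [← (S.trace_pt_eq V u w).2 h1]
    exact h2
  have hone : r (V'.pt 1) (V'.pt 1) := hr.refl _
  have hmul : ∀ u w : S.T, r (V'.pt u) (V'.pt 1) → r (V'.pt w) (V'.pt 1) →
      r (V'.pt (u * w)) (V'.pt 1) := by
    intro u w hu hw
    have h1 := hinv u _ _ hw
    rw [V'.smul_pt, V'.smul_pt, mul_one] at h1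
    exact hr.trans h1 hu
  have hinv' : ∀ u : S.T, r (V'.pt u) (V'.pt 1) → r (V'.pt u⁻¹) (V'.pt 1) := by
    intro u hu
    have h1 := hinv u⁻¹ _ _ hu
    rw [V'.smul_pt, V'.smul_pt, mul_one, inv_mul_cancel] at h1
    exact hr.symm h1
  let Ct : Subgroup G :=
    { carrier := {y | y ∈ cover V.H ∧ ∃ u : S.T, r (V'.pt u) (V'.pt 1) ∧
        V.pt y = V.pt (S.coe u)}
      one_mem' := ⟨Subgroup.one_mem _, 1, hone, rfl⟩
      mul_mem' := by
        rintro y1 y2 ⟨hy1, u1, hu1, e1⟩ ⟨hy2, u2, hu2, e2⟩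
        refine ⟨Subgroup.mul_mem _ hy1 hy2, ?_⟩
        obtain ⟨w, hw, hw'⟩ := act_as V y1 hy1
        refine ⟨S.el w hw * u2, ?_, ?_⟩
        · apply hmul _ _ _ hu2
          apply key u1 _ _ hu1
          rw [← e1]
          have := hw' 1 (Subgroup.one_mem _)
          rwa [mul_one, mul_one] at this
        · rw [← V.smul_pt, e2, V.smul_pt]
          exact hw' _ (S.coe_mem u2).1
      inv_mem' := by
        rintro y ⟨hy, u, hu, e⟩
        refine ⟨Subgroup.inv_mem _ hy, ?_⟩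
        obtain ⟨w, hw, hw'⟩ := act_as V y hy
        refine ⟨(S.el w hw)⁻¹, ?_, ?_⟩
        · apply hinv'
          apply key u _ _ hu
          rw [← e]
          have := hw' 1 (Subgroup.one_mem _)
          rwa [mul_one, mul_one] at this
        · have := hw' w⁻¹ (Subgroup.inv_mem _ hw.1)
          rw [mul_inv_cancel, ← V.smul_pt, ← eq_inv_smul_iff, V.smul_pt, mul_one] at this
          exact this.symm }
  have hCt : IsCL Ct := by
    constructor
    · rintro y ⟨hy, u, hu, e⟩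
      refine ⟨(isCL_cover V.H).pos hy, u ⊔ 1, ?_, ?_⟩
      · rw [V'.pt_sup]
        rcases max_choice (V'.pt u) (V'.pt 1) with h | h
        · rw [h]; exact hu
        · rw [h]; exact hone
      · rw [V.pt_sup, e, S.coe_sup, V.pt_sup, S.coe_one]
    · rintro a b h1 h2 ⟨hb, u, hu, e⟩
      have ha : a ∈ cover V.H := (isCL_cover V.H).conv h1 h2 hb
      obtain ⟨w, hw, hw'⟩ := act_as V a ha
      have e2 := hw' 1 (Subgroup.one_mem _)
      rw [mul_one, mul_one] at e2
      refine ⟨ha, S.el w hw, ?_, e2⟩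
      apply hr.symm
      apply hconv _ _ (V'.pt u) _ _ (hr.symm hu)
      · rw [S.trace_pt_le, S.coe_el, ← e2]
        exact V.pt_mono h1
      · rw [S.trace_pt_le, S.coe_el, ← e2, ← e]
        exact V.pt_mono h2
  have hVCt : V.H ≤ Ct := by
    intro v hv
    refine ⟨le_cover V.H hv, 1, hone, ?_⟩
    rw [S.coe_one, V.pt_eq, mul_one]
    exact V.H.inv_mem hv
  rcases hVCt.eq_or_lt with heq | hlt
  · left
    intro a b hab
    obtain ⟨u, rfl⟩ := V'.exists_rep a
    obtain ⟨w, rfl⟩ := V'.exists_rep b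
    have h1 := hinv w⁻¹ _ _ hab
    rw [V'.smul_pt, V'.smul_pt, inv_mul_cancel] at h1
    have h2 : S.coe (w⁻¹ * u) ∈ Ct := ⟨(S.coe_mem _).1, _, h1, rfl⟩
    rw [← heq] at h2
    exact (V'.pt_eq.2 h2).symm
  · right
    have hall : ∀ u : S.T, r (V'.pt u) (V'.pt 1) := by
      intro u
      obtain ⟨_, w, hw, e⟩ := cover_le hCt hlt (S.coe_mem u).1
      exact key w u e.symm hw
    intro a b
    obtain ⟨u, rfl⟩ := V'.exists_rep a
    obtain ⟨w, rfl⟩ := V'.exists_rep b
    exact hr.trans (hall u) (hr.symm (hall w))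

theorem normal_of_trivial (V : PSub G)
    (h : ∀ (g : (covSub V).T) (a b : Cos ((covSub V).trace V)), g • a = a → g • b = b)
    (v : G) (hv : v ∈ V.H) (y : G) (hy : y ∈ cover V.H) : y⁻¹ * v * y ∈ V.H := by
  let S := covSub V
  let V' := S.trace V
  obtain ⟨w, hw, hw'⟩ := act_as V v (le_cover V.H hv)
  obtain ⟨u, hu, hu'⟩ := act_as V y hy
  have ew := hw' 1 (Subgroup.one_mem _)
  have eu := hu' 1 (Subgroup.one_mem _)
  rw [mul_one, mul_one] at ew eu
  have e1 : V.pt v = V.pt 1 := by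
    rw [V.pt_eq, mul_one]; exact V.H.inv_mem hv
  have h1 : S.el w hw • V'.pt 1 = V'.pt 1 := by
    rw [V'.smul_pt, mul_one, S.trace_pt_eq, S.coe_el, ← ew, e1, S.coe_one]
  have h2 := h _ _ (V'.pt (S.el u hu)) h1
  rw [V'.smul_pt, S.trace_pt_eq, S.coe_mul, S.coe_el, S.coe_el] at h2
  have h3 : V.pt y = V.pt (v * y) := by
    rw [← V.smul_pt, eu, V.smul_pt, hw' u hu.1, h2]
  have := V.pt_eq.1 h3
  rwa [← mul_assoc] at this

end Red

end Pool.Agent.Lib.MP_67fdd1_al
end

section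

set_option autoImplicit false
set_option linter.unusedVariables false
set_option linter.unusedSectionVars false

namespace Pool.Agent.Lib.MP_67fdd1_al

open MGroup

/-- The Baker-Pixley argument: pairwise satisfiable finite systems of constraints preserved by a
majority operation are satisfiable. -/
theorem baker_pixley {G C : Type} [Nonempty G] [DecidableEq C] (sat : G → C → Prop)
    (maj : G → G → G → G)
    (h12 : ∀ g1 g2 g3 c, sat g1 c → sat g2 c → sat (maj g1 g2 g3) c)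
    (h23 : ∀ g1 g2 g3 c, sat g2 c → sat g3 c → sat (maj g1 g2 g3) c)
    (h13 : ∀ g1 g2 g3 c, sat g1 c → sat g3 c → sat (maj g1 g2 g3) c) :
    ∀ (n : ℕ) (S : Finset C), S.card = n → (∀ c ∈ S, ∀ d ∈ S, ∃ g, sat g c ∧ sat g d) →
      ∃ g, ∀ c ∈ S, sat g c := by
  intro n
  induction n using Nat.strong_induction_on with
  | _ n ih =>
    intro S hS hpair
    by_cases h2 : 2 < S.card
    · obtain ⟨a, ha, b, hb, c, hc, hab, hac, hbc⟩ := Finset.two_lt_card.1 h2
      have key : ∀ x ∈ S, ∃ g, ∀ c ∈ S, c ≠ x → sat g c := by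
        intro x hx
        obtain ⟨g, hg⟩ := ih (S.erase x).card (by rw [← hS]; exact Finset.card_erase_lt_of_mem hx)
          (S.erase x) rfl (fun c hc d hd => hpair c (Finset.mem_of_mem_erase hc) d
            (Finset.mem_of_mem_erase hd))
        exact ⟨g, fun c hc hcx => hg c (Finset.mem_erase.2 ⟨hcx, hc⟩)⟩
      obtain ⟨g1, hg1⟩ := key a ha
      obtain ⟨g2, hg2⟩ := key b hb
      obtain ⟨g3, hg3⟩ := key c hc
      refine ⟨maj g1 g2 g3, ?_⟩
      intro d hd
      by_cases hda : d = a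
      · subst hda
        exact h23 _ _ _ _ (hg2 d hd hab) (hg3 d hd hac)
      · by_cases hdb : d = b
        · subst hdb
          exact h13 _ _ _ _ (hg1 d hd hda) (hg3 d hd hbc)
        · exact h12 _ _ _ _ (hg1 d hd hda) (hg2 d hd hdb)
    · have h3 : S.card ≤ 2 := not_lt.1 h2
      interval_cases hc : S.card
      · rw [Finset.card_eq_zero] at hc
        subst hc
        exact ⟨Classical.arbitrary G, by simp⟩
      · rw [Finset.card_eq_one] at hc
        obtain ⟨a, rfl⟩ := hc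
        obtain ⟨g, hg, _⟩ := hpair a (by simp) a (by simp)
        exact ⟨g, by simpa using hg⟩
      · rw [Finset.card_eq_two] at hc
        obtain ⟨a, b, _, rfl⟩ := hc
        obtain ⟨g, hg, hg'⟩ := hpair a (by simp) b (by simp)
        exact ⟨g, by simpa using ⟨hg, hg'⟩⟩

section Core

variable {G Ω : Type} [MGroup G] [LinearOrder Ω] [LAct G Ω]

/-- Point stabilisers of a primitive action are maximal. -/
theorem fix_max (htr : Trans G Ω) (hpr : Prim G Ω) {a b : Ω} (hab : a ≠ b)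
    (h : ∀ g : G, g • b = b → g • a = a) (g : G) (hg : g • a = a) : g • b = b := by
  choose rep hrep using fun ω : Ω => htr b ω
  let φ : Ω → Ω := fun ω => rep ω • a
  have hφ : ∀ k : G, φ (k • b) = k • a := by
    intro k
    have h1 := h (k⁻¹ * rep (k • b)) (by rw [mul_smul, hrep, inv_smul_smul])
    rw [mul_smul, inv_smul_eq_iff] at h1
    exact h1
  have hφe : ∀ (k : G) (ω : Ω), φ (k • ω) = k • φ ω := by
    intro k ω
    obtain ⟨m, rfl⟩ := htr b ω
    rw [smul_smul, hφ, hφ, mul_smul]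
  have hφm : ∀ ω ω' : Ω, ω ≤ ω' → φ ω ≤ φ ω' := by
    intro ω ω' hle
    obtain ⟨k, hk⟩ := htr ω' ω
    have h1 : (k ⊓ 1) • ω' = ω := by
      rw [LAct.inf_smul, one_smul, hk, min_eq_left hle]
    rw [← h1, hφe]
    have := smul_mono (inf_le_right : k ⊓ 1 ≤ 1) (φ ω')
    rwa [one_smul] at this
  rcases hpr (fun ω ω' => φ ω = φ ω') ⟨fun _ => rfl, fun h => h.symm, fun h h' => h.trans h'⟩
    (fun k ω ω' h => by rw [hφe, hφe, h])
    (fun x y z h1 h2 h3 => le_antisymm (hφm _ _ h1) (by rw [h3]; exact hφm _ _ h2)) with h1 | h1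
  · apply h1
    rw [hφ]
    have := hφ 1
    rw [one_smul, one_smul] at this
    rw [this, hg]
  · exfalso
    obtain ⟨k, hk⟩ := htr a b
    have h2 := h1 (k • b) ((1 : G) • b)
    rw [hφ, hφ, one_smul] at h2
    exact hab (h2.symm.trans hk)

/-- orbit of a pair -/
def Orb (G : Type) {Ω : Type} [MGroup G] [LinearOrder Ω] [LAct G Ω] (x0 y0 x y : Ω) : Prop :=
  ∃ g : G, g • x0 = x ∧ g • y0 = y

theorem orb_smul {x0 y0 x y : Ω} (h : Orb G x0 y0 x y) (g : G) :
    Orb G x0 y0 (g • x) (g • y) := by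
  obtain ⟨k, rfl, rfl⟩ := h
  exact ⟨g * k, mul_smul _ _ _, mul_smul _ _ _⟩

theorem orb_trans {x0 y0 x y x' y' : Ω} (h : Orb G x0 y0 x y) (h' : Orb G x0 y0 x' y') :
    ∃ g : G, g • x = x' ∧ g • y = y' := by
  obtain ⟨k, rfl, rfl⟩ := h
  obtain ⟨k', rfl, rfl⟩ := h'
  exact ⟨k' * k⁻¹, by rw [mul_smul, inv_smul_smul], by rw [mul_smul, inv_smul_smul]⟩

theorem orb_convex (htr : Trans G Ω) {x0 y0 x y1 y2 y3 : Ω} (h1 : Orb G x0 y0 x y1)
    (h3 : Orb G x0 y0 x y3) (h12 : y1 ≤ y2) (h23 : y2 ≤ y3) : Orb G x0 y0 x y2 := by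
  obtain ⟨g1, a1, b1⟩ := h1
  obtain ⟨g3, a3, b3⟩ := h3
  obtain ⟨k, hk⟩ := htr y0 y2
  rcases le_total (k • x0) x with h | h
  · refine ⟨k ⊔ g1, ?_, ?_⟩
    · rw [LAct.sup_smul, a1, max_eq_right h]
    · rw [LAct.sup_smul, hk, b1, max_eq_left h12]
  · refine ⟨k ⊓ g3, ?_, ?_⟩
    · rw [LAct.inf_smul, a3, min_eq_right h]
    · rw [LAct.inf_smul, hk, b3, min_eq_left h23]

theorem orb_lt {x0 y0 x y : Ω} (h0 : x0 < y0) (h : Orb G x0 y0 x y) : x < y := by
  obtain ⟨k, rfl, rfl⟩ := h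
  exact (smul_lt_iff k _ _).2 h0

theorem orb_down (htr : Trans G Ω) {x0 y0 x x' y : Ω} (hx : x ≤ x') (h : Orb G x0 y0 x' y) :
    ∃ y' ≤ y, Orb G x0 y0 x y' := by
  obtain ⟨k, hk⟩ := htr x' x
  refine ⟨(k ⊓ 1) • y, ?_, ?_⟩
  · rw [LAct.inf_smul, one_smul]
    exact min_le_right _ _
  · have := orb_smul h (k ⊓ 1)
    rwa [LAct.inf_smul, one_smul, hk, min_eq_left hx] at this

theorem orb_up (htr : Trans G Ω) {x0 y0 x x' y : Ω} (hx : x ≤ x') (h : Orb G x0 y0 x y) :
    ∃ y', y ≤ y' ∧ Orb G x0 y0 x' y' := by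
  obtain ⟨k, hk⟩ := htr x x'
  refine ⟨(k ⊔ 1) • y, ?_, ?_⟩
  · rw [LAct.sup_smul, one_smul]
    exact le_max_right _ _
  · have := orb_smul h (k ⊔ 1)
    rwa [LAct.sup_smul, one_smul, hk, max_eq_left hx] at this

theorem orb_F2 (htr : Trans G Ω) (hpr : Prim G Ω) {x0 y0 : Ω} (h0 : x0 < y0)
    (h : G) (hx : h • x0 = x0) (hy : h • y0 ≠ y0) :
    ∃ x x' y : Ω, x < x' ∧ Orb G x0 y0 x y ∧ Orb G x0 y0 x' y := by
  by_contra hcon
  have huniq : ∀ x x' y : Ω, Orb G x0 y0 x y → Orb G x0 y0 x' y → x = x' := by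
    intro x x' y h1 h2
    rcases lt_trichotomy x x' with h3 | h3 | h3
    · exact absurd ⟨x, x', y, h3, h1, h2⟩ hcon
    · exact h3
    · exact absurd ⟨x', x, y, h3, h2, h1⟩ hcon
  have hprim := hpr (fun y y' => ∃ x, Orb G x0 y0 x y ∧ Orb G x0 y0 x y') ?_ ?_ ?_
  · rcases hprim with h1 | h1
    · exact hy (h1 _ _ ⟨x0, ⟨h, hx, rfl⟩, ⟨1, one_smul _ _, one_smul _ _⟩⟩)
    · obtain ⟨x, h2, h3⟩ := h1 x0 y0
      have h4 := huniq x x0 y0 h3 ⟨1, one_smul _ _, one_smul _ _⟩
      rw [h4] at h2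
      exact lt_irrefl _ (orb_lt h0 h2)
  · refine ⟨?_, ?_, ?_⟩
    · intro y
      obtain ⟨k, hk⟩ := htr y0 y
      exact ⟨k • x0, ⟨k, rfl, hk⟩, ⟨k, rfl, hk⟩⟩
    · rintro y y' ⟨x, h1, h2⟩
      exact ⟨x, h2, h1⟩
    · rintro y y' y'' ⟨x, h1, h2⟩ ⟨x', h3, h4⟩
      have := huniq _ _ _ h2 h3
      subst this
      exact ⟨x, h1, h4⟩
  · rintro k y y' ⟨x, h1, h2⟩
    exact ⟨k • x, orb_smul h1 k, orb_smul h2 k⟩
  · rintro a b c h1 h2 ⟨x, h3, h4⟩
    exact ⟨x, h3, orb_convex htr h3 h4 h1 h2⟩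

theorem orb_F3 (htr : Trans G Ω) (hpr : Prim G Ω) {x0 y0 : Ω} (h0 : x0 < y0) {x x'' : Ω}
    (hx : x < x'') : ∃ y, Orb G x0 y0 x y ∧ ∀ z, Orb G x0 y0 x'' z → y < z := by
  by_contra hcon
  push Not at hcon
  have hprim := hpr (fun a b => (∀ y, Orb G x0 y0 a y → ∃ z ≤ y, Orb G x0 y0 b z) ∧
    (∀ y, Orb G x0 y0 b y → ∃ z ≤ y, Orb G x0 y0 a z)) ?_ ?_ ?_
  · rcases hprim with h1 | h1
    · apply hx.ne
      apply h1
      refine ⟨?_, fun y hy => orb_down htr hx.le hy⟩
      intro y hy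
      obtain ⟨z, hz, hz'⟩ := hcon y hy
      exact ⟨z, hz', hz⟩
    · obtain ⟨z, hz, hz'⟩ := (h1 x0 y0).1 y0 ⟨1, one_smul _ _, one_smul _ _⟩
      exact absurd (orb_lt h0 hz') hz.not_gt
  · refine ⟨?_, ?_, ?_⟩
    · intro a
      exact ⟨fun y hy => ⟨y, le_rfl, hy⟩, fun y hy => ⟨y, le_rfl, hy⟩⟩
    · rintro a b ⟨h1, h2⟩
      exact ⟨h2, h1⟩
    · rintro a b c ⟨h1, h2⟩ ⟨h3, h4⟩
      constructor
      · intro y hy
        obtain ⟨z, hz, hz'⟩ := h1 y hy
        obtain ⟨u, hu, hu'⟩ := h3 z hz'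
        exact ⟨u, hu.trans hz, hu'⟩
      · intro y hy
        obtain ⟨z, hz, hz'⟩ := h4 y hy
        obtain ⟨u, hu, hu'⟩ := h2 z hz'
        exact ⟨u, hu.trans hz, hu'⟩
  · have : ∀ (g : G) (a b : Ω), (∀ y, Orb G x0 y0 a y → ∃ z ≤ y, Orb G x0 y0 b z) →
        (∀ y, Orb G x0 y0 (g • a) y → ∃ z ≤ y, Orb G x0 y0 (g • b) z) := by
      intro g a b H y hy
      have h1 := orb_smul hy g⁻¹
      rw [inv_smul_smul] at h1
      obtain ⟨z, hz, hz'⟩ := H _ h1
      refine ⟨g • z, ?_, orb_smul hz' g⟩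
      have := LAct.smul_le g _ _ hz
      rwa [smul_inv_smul] at this
    rintro g a b ⟨h1, h2⟩
    exact ⟨this g a b h1, this g b a h2⟩
  · rintro a b c hab hbc ⟨h1, h2⟩
    refine ⟨?_, fun y hy => orb_down htr hab hy⟩
    intro y hy
    obtain ⟨z, hz, hz'⟩ := h1 y hy
    obtain ⟨u, hu, hu'⟩ := orb_down htr hbc hz'
    exact ⟨u, hu.trans hz, hu'⟩

/-- There is an orbit of increasing pairs which is initial in the second coordinate. -/
theorem exists_initial (htr : Trans G Ω) (hpr : Prim G Ω) {a b : Ω} (g : G) (hga : g • a = a)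
    (hgb : g • b ≠ b) : ∃ x x' : Ω, x < x' ∧ (∃ g : G, g • x = x ∧ g • x' < x') ∧
      ∀ x'', x < x'' → x'' < x' → ∃ g : G, g • x = x ∧ g • x' < x'' := by
  -- arrange that the moved point is above the fixed point
  obtain ⟨x0, y0, h, h0, hx, hy⟩ : ∃ (x0 y0 : Ω) (h : G), x0 < y0 ∧ h • x0 = x0 ∧
      h • y0 ≠ y0 := by
    have hab : a ≠ b := by
      intro h
      exact hgb (by rw [← h, hga])
    rcases lt_or_gt_of_ne hab with h1 | h1
    · exact ⟨a, b, g, h1, hga, hgb⟩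
    · by_contra hcon
      push Not at hcon
      exact hgb (fix_max htr hpr hab (fun k hk => hcon b a k h1 hk) g hga)
  obtain ⟨x, x', y, hxx', o1, o2⟩ := orb_F2 htr hpr h0 h hx hy
  have key : ∀ x'', x < x'' → ∃ g : G, g • x = x ∧ g • x' < x'' := by
    intro x'' hx''
    obtain ⟨y1, o3, o4⟩ := orb_F3 htr hpr h0 hx''
    obtain ⟨k, k1, k2⟩ := orb_trans o1 o3
    refine ⟨k, k1, ?_⟩
    by_contra hcon
    have h5 := orb_smul o2 k
    rw [k2] at h5
    obtain ⟨z, hz, hz'⟩ := orb_down htr (not_lt.1 hcon) h5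
    exact absurd (o4 z hz') hz.not_gt
  exact ⟨x, x', hxx', key x' hxx', fun x'' h1 _ => key x'' h1⟩

theorem initial_F5 (htr : Trans G Ω) {x x' : Ω} (hxx' : x < x')
    (H : ∀ x'', x < x'' → x'' < x' → ∃ g : G, g • x = x ∧ g • x' < x'') {p q q' : Ω}
    (h : Orb G x x' p q) (h1 : p < q') (h2 : q' ≤ q) : Orb G x x' p q' := by
  rcases h2.eq_or_lt with h3 | h3
  · rw [h3]; exact h
  · obtain ⟨k, hk1, hk2⟩ := h
    obtain ⟨g, hg1, hg2⟩ := H (k⁻¹ • q') (by rw [← smul_lt_iff k, smul_inv_smul, hk1]; exact h1)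
      (by rw [← smul_lt_iff k, smul_inv_smul, hk2]; exact h3)
    refine orb_convex htr (y1 := (k * g) • x') (y3 := q) ⟨k * g, ?_, rfl⟩ ⟨k, hk1, hk2⟩ ?_ h2
    · rw [mul_smul, hg1, hk1]
    · rw [← smul_lt_iff k, smul_inv_smul, ← mul_smul] at hg2
      exact hg2.le

/-- Existence of points for which pairs `(g α, g_* α)` fill a square. -/
theorem exists_square (htr : Trans G Ω) (hpr : Prim G Ω) {a b : Ω} (g : G) (hga : g • a = a)
    (hgb : g • b ≠ b) : ∃ α c : Ω, α < c ∧ ∀ x y : Ω, α ≤ x → x ≤ c → α ≤ y → y ≤ c →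
      ∃ g : G, g • α = x ∧ st g • α = y := by
  -- a base point with asymmetric stabiliser
  obtain ⟨α, q, hq1, hq2⟩ : ∃ (α : Ω) (q : G), st q • α = α ∧ q • α ≠ α := by
    by_contra hcon
    push Not at hcon
    apply hgb
    apply sym_regular htr hpr _ g a b hga
    intro k c hk
    exact hcon c (st k) (by rw [st_st]; exact hk)
  obtain ⟨q, hq1, hq2, hq3⟩ : ∃ q : G, 1 ≤ q ∧ st q • α = α ∧ α < q • α := by
    rcases lt_or_gt_of_ne hq2 with h | h
    · refine ⟨q⁻¹ ⊔ 1, le_sup_right, ?_, ?_⟩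
      · rw [st_sup, st_one, st_inv, LAct.inf_smul, one_smul, fix_inv hq1, min_self]
      · rw [LAct.sup_smul, one_smul]
        refine lt_of_lt_of_le ?_ (le_max_left _ _)
        rw [← smul_lt_iff q, smul_inv_smul]
        exact h
    · refine ⟨q ⊔ 1, le_sup_right, ?_, ?_⟩
      · rw [st_sup, st_one, LAct.inf_smul, one_smul, hq1, min_self]
      · rw [LAct.sup_smul, one_smul]
        exact lt_of_lt_of_le h (le_max_left _ _)
  clear hga hgb
  -- exactness of the action of the group of all `q` with `q_*` fixing `α`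
  have exact1 : ∀ y : Ω, α ≤ y → y ≤ q • α → ∃ k : G, 1 ≤ k ∧ k ≤ q ∧ st k • α = α ∧
      k • α = y := by
    intro y h1 h2
    obtain ⟨k, hk⟩ := htr α y
    obtain ⟨k', hk1, hk2⟩ : ∃ k' : G, st k' • α = α ∧ k' • α = y := by
      rcases le_total (st k • α) α with h | h
      · refine ⟨k ⊓ q, ?_, ?_⟩
        · rw [st_inf, LAct.sup_smul, hq2, max_eq_right h]
        · rw [LAct.inf_smul, hk, min_eq_left h2]
      · refine ⟨k ⊔ 1, ?_, ?_⟩
        · rw [st_sup, st_one, LAct.inf_smul, one_smul, min_eq_right h]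
        · rw [LAct.sup_smul, hk, one_smul, max_eq_left h1]
    refine ⟨(k' ⊔ 1) ⊓ q, le_inf le_sup_right hq1, inf_le_right, ?_, ?_⟩
    · rw [st_inf, st_sup, st_one, LAct.sup_smul, LAct.inf_smul, one_smul, hk1, hq2, min_self,
        max_self]
    · rw [LAct.inf_smul, LAct.sup_smul, one_smul, hk2, max_eq_left h1, min_eq_left h2]
  refine ⟨α, min (q • α) (st q • (q • α)), ?_, ?_⟩
  · rw [lt_min_iff]
    refine ⟨hq3, ?_⟩
    have := (smul_lt_iff (st q) _ _).2 hq3
    rwa [hq2] at this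
  · intro x y hx1 hx2 hy1 hy2
    obtain ⟨k, k1, k2, k3, k4⟩ := exact1 x hx1 (hx2.trans (min_le_left _ _))
    have hex := exact1 ((st k)⁻¹ • y) ?_ ?_
    · obtain ⟨l, l1, l2, l3, l4⟩ := hex
      refine ⟨k * st l, ?_, ?_⟩
      · rw [mul_smul, l3, k4]
      · rw [st_mul, st_st, mul_smul, l4, smul_inv_smul]
    · have h1 : 1 ≤ (st k)⁻¹ := by
        rw [one_le_inv', ← st_one]
        exact st_anti k1
      have h2 := smul_mono h1 y
      rw [one_smul] at h2
      exact hy1.trans h2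
    · have h1 : (st k)⁻¹ ≤ (st q)⁻¹ := inv_le_inv_iff.2 (st_anti k2)
      refine (smul_mono h1 y).trans ?_
      rw [← smul_le_iff (st q), smul_inv_smul]
      exact hy2.trans (min_le_right _ _)

/-- A nonregular primitive transitive `m`-group contains arbitrary finite patterns. -/
theorem exists_pattern (htr : Trans G Ω) (hpr : Prim G Ω) {a b : Ω} (g : G) (hga : g • a = a)
    (hgb : g • b ≠ b) : ∃ Δ : Set Ω, Δ.Nonempty ∧ (∀ z ∈ Δ, ∃ z' ∈ Δ, z' < z) ∧
      (∀ x ∈ Δ, ∀ y ∈ Δ, ∀ x' ∈ Δ, ∀ y' ∈ Δ, x < y → x' < y' →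
        ∃ g : G, g • x = x' ∧ g • y = y') ∧
      (∀ x ∈ Δ, ∀ y ∈ Δ, ∀ x' ∈ Δ, ∀ y' ∈ Δ, ∃ g : G, g • x = x' ∧ st g • y = y') := by
  obtain ⟨x, x', hxx', ⟨g0, hg0, hg0'⟩, H⟩ := exists_initial htr hpr g hga hgb
  obtain ⟨α, c, hαc, hsq⟩ := exists_square htr hpr g hga hgb
  have hlt : ∀ {p q : Ω}, Orb G x x' p q → p < q := fun h => orb_lt hxx' h
  refine ⟨{z | Orb G x x' α z ∧ z ≤ c}, ?_, ?_, ?_, ?_⟩
  · obtain ⟨k, hk⟩ := htr x α
    have h1 : Orb G x x' α (k • x') := ⟨k, hk, rfl⟩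
    refine ⟨min (k • x') c, ?_, min_le_right _ _⟩
    exact initial_F5 htr hxx' H h1 (lt_min (hlt h1) hαc) (min_le_left _ _)
  · rintro z ⟨⟨k, hk1, hk2⟩, h2⟩
    refine ⟨(k * g0) • x', ⟨⟨k * g0, by rw [mul_smul, hg0, hk1], rfl⟩, ?_⟩, ?_⟩
    · rw [← smul_lt_iff k, hk2, ← mul_smul] at hg0'
      exact hg0'.le.trans h2
    · rw [← smul_lt_iff k, hk2, ← mul_smul] at hg0'
      exact hg0'
  · rintro p ⟨hp, _⟩ q ⟨hq, _⟩ p' ⟨hp', _⟩ q' ⟨hq', _⟩ h1 h2
    have key : ∀ p q : Ω, Orb G x x' α p → Orb G x x' α q → p < q → Orb G x x' p q := by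
      intro p q hp hq hpq
      obtain ⟨s, hs, hs'⟩ := orb_up htr (hlt hp).le hq
      exact initial_F5 htr hxx' H hs' hpq hs
    exact orb_trans (key p q hp hq h1) (key p' q' hp' hq' h2)
  · rintro p ⟨hp, p2⟩ q ⟨hq, q2⟩ p' ⟨hp', p2'⟩ q' ⟨hq', q2'⟩
    obtain ⟨k, k1, k2⟩ := hsq p q (hlt hp).le p2 (hlt hq).le q2
    obtain ⟨l, l1, l2⟩ := hsq p' q' (hlt hp').le p2' (hlt hq').le q2'
    refine ⟨l * k⁻¹, ?_, ?_⟩
    · rw [mul_smul, ← k1, inv_smul_smul, l1]
    · rw [st_mul, st_inv, mul_smul, ← k2, inv_smul_smul, l2]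

/-- The majority term. -/
def maj (x y z : G) : G := (x ⊔ y) ⊓ (y ⊔ z) ⊓ (z ⊔ x)

theorem exists_seq (Δ : Set Ω) (h1 : Δ.Nonempty) (h2 : ∀ z ∈ Δ, ∃ z' ∈ Δ, z' < z) :
    ∃ f : ℕ → Ω, (∀ n, f n ∈ Δ) ∧ ∀ m n, m < n → f n < f m := by
  obtain ⟨z0, hz0⟩ := h1
  choose! nx hnx hnx' using h2
  let f : ℕ → Ω := fun n => nx^[n] z0
  have hf : ∀ n, f n ∈ Δ := by
    intro n
    induction n with
    | zero => exact hz0
    | succ n ih =>
      change nx^[n + 1] z0 ∈ Δ
      rw [Function.iterate_succ_apply']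
      exact hnx _ ih
  have hf' : ∀ n, f (n + 1) < f n := by
    intro n
    change nx^[n + 1] z0 < nx^[n] z0
    rw [Function.iterate_succ_apply']
    exact hnx' _ (hf n)
  have hanti : StrictAnti f := strictAnti_nat_of_succ_lt hf'
  exact ⟨f, hf, fun m n hmn => hanti hmn⟩

open Classical in
/-- Holland's theorem for `m`-groups: a nonregular primitive transitive `m`-group generates the
variety of all `m`-groups. -/
theorem holland_core (htr : Trans G Ω) (hpr : Prim G Ω) {a b : Ω} (g : G) (hga : g • a = a)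
    (hgb : g • b ≠ b) (p : MTerm × MTerm) (hp : Holds G p) (K : Type) [MGroup K] : Holds K p := by
  by_contra hK
  unfold Holds at hK
  push Not at hK
  obtain ⟨v, hv⟩ := hK
  have hw : p.1.eval v * (p.2.eval v)⁻¹ ≠ 1 := fun h => hv (mul_inv_eq_one.1 h)
  obtain ⟨P, hP, _⟩ := exists_prime_value _ hw
  have hα : (p.1.eval v * (p.2.eval v)⁻¹) • P.pt 1 ≠ P.pt 1 := by
    rw [P.smul_pt, mul_one, ne_eq, P.pt_eq, mul_one]
    intro h
    exact hP (by simpa using P.H.inv_mem h)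
  obtain ⟨T, hT, htrans⟩ := transfer p v (P.pt 1) hα
  obtain ⟨Δ, d1, d2, d3, d4⟩ := exists_pattern htr hpr g hga hgb
  obtain ⟨f, f1, f2⟩ := exists_seq Δ d1 d2
  let e : Cos P → Ω := fun t => f (T.filter (fun s => t < s)).card
  have he : StrictMonoOn e T := by
    intro t ht t' ht' htt'
    apply f2
    apply Finset.card_lt_card
    rw [Finset.ssubset_iff_of_subset]
    · exact ⟨t', Finset.mem_filter.2 ⟨ht', htt'⟩, by simp⟩
    · intro s hs
      rw [Finset.mem_filter] at hs ⊢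
      exact ⟨hs.1, htt'.trans hs.2⟩
  have heΔ : ∀ t, e t ∈ Δ := fun t => f1 _
  -- constraints
  let sat : G → Bool × Ω × Ω → Prop := fun g c =>
    (if c.1 then st g • c.2.1 else g • c.2.1) = c.2.2
  have hsat1 : ∀ (x y z : G) (c : Bool × Ω × Ω), sat x c → sat y c → sat (maj x y z) c := by
    rintro x y z ⟨k, s, t⟩ h1 h2
    cases k
    · change x • s = t at h1
      change y • s = t at h2
      change ((x ⊔ y) ⊓ (y ⊔ z) ⊓ (z ⊔ x)) • s = t
      rw [LAct.inf_smul, LAct.inf_smul, LAct.sup_smul, LAct.sup_smul, LAct.sup_smul, h1, h2]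
      rw [max_self, min_eq_left (le_max_left _ _), min_eq_left (le_max_right _ _)]
    · change st x • s = t at h1
      change st y • s = t at h2
      change st ((x ⊔ y) ⊓ (y ⊔ z) ⊓ (z ⊔ x)) • s = t
      rw [st_inf, st_inf, st_sup, st_sup, st_sup, LAct.sup_smul, LAct.sup_smul, LAct.inf_smul,
        LAct.inf_smul, LAct.inf_smul, h1, h2]
      rw [min_self, max_eq_left (min_le_left _ _), max_eq_left (min_le_right _ _)]
  have hmaj1 : ∀ x y z : G, maj x y z = maj y z x := by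
    intro x y z
    unfold maj
    rw [inf_assoc, inf_comm]
  have hsat2 : ∀ (x y z : G) (c : Bool × Ω × Ω), sat y c → sat z c → sat (maj x y z) c := by
    intro x y z c h1 h2
    rw [hmaj1]
    exact hsat1 _ _ _ _ h1 h2
  have hsat3 : ∀ (x y z : G) (c : Bool × Ω × Ω), sat x c → sat z c → sat (maj x y z) c := by
    intro x y z c h1 h2
    rw [hmaj1, hmaj1]
    exact hsat1 _ _ _ _ h2 h1
  have hex : ∀ i : ℕ, ∃ g : G, (∀ t ∈ T, v i • t ∈ T → g • e t = e (v i • t)) ∧
      (∀ t ∈ T, st (v i) • t ∈ T → st g • e t = e (st (v i) • t)) := by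
    intro i
    let S : Finset (Bool × Ω × Ω) :=
      ((T.filter (fun t => v i • t ∈ T)).image (fun t => (false, e t, e (v i • t)))) ∪
      ((T.filter (fun t => st (v i) • t ∈ T)).image (fun t => (true, e t, e (st (v i) • t))))
    have hbp := baker_pixley sat maj hsat1 hsat2 hsat3 S.card S rfl ?_
    · obtain ⟨g, hg⟩ := hbp
      refine ⟨g, ?_, ?_⟩
      · intro t ht ht'
        exact hg (false, e t, e (v i • t)) (Finset.mem_union_left _ (Finset.mem_image.2
          ⟨t, Finset.mem_filter.2 ⟨ht, ht'⟩, rfl⟩))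
      · intro t ht ht'
        exact hg (true, e t, e (st (v i) • t)) (Finset.mem_union_right _ (Finset.mem_image.2
          ⟨t, Finset.mem_filter.2 ⟨ht, ht'⟩, rfl⟩))
    · intro c hc d hd
      rw [Finset.mem_union, Finset.mem_image, Finset.mem_image] at hc hd
      have same : ∀ (k : K) (s t : Cos P), s ∈ T → t ∈ T → k • s ∈ T → k • t ∈ T →
          ∃ g : G, g • e s = e (k • s) ∧ g • e t = e (k • t) := by
        intro k s t hs ht hks hkt
        rcases lt_trichotomy s t with h | h | h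
        · exact d3 _ (heΔ _) _ (heΔ _) _ (heΔ _) _ (heΔ _) (he hs ht h)
            (he hks hkt ((smul_lt_iff k _ _).2 h))
        · subst h
          obtain ⟨g, hg⟩ := htr (e s) (e (k • s))
          exact ⟨g, hg, hg⟩
        · obtain ⟨g, hg1, hg2⟩ := d3 _ (heΔ _) _ (heΔ _) _ (heΔ _) _ (heΔ _) (he ht hs h)
            (he hkt hks ((smul_lt_iff k _ _).2 h))
          exact ⟨g, hg2, hg1⟩
      rcases hc with ⟨s, hs, rfl⟩ | ⟨s, hs, rfl⟩ <;> rcases hd with ⟨t, ht, rfl⟩ | ⟨t, ht, rfl⟩ <;>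
        rw [Finset.mem_filter] at hs ht
      · exact same (v i) s t hs.1 ht.1 hs.2 ht.2
      · exact d4 _ (heΔ _) _ (heΔ _) _ (heΔ _) _ (heΔ _)
      · obtain ⟨g, hg1, hg2⟩ := d4 _ (heΔ t) _ (heΔ s) _ (heΔ (v i • t)) _ (heΔ (st (v i) • s))
        exact ⟨g, hg2, hg1⟩
      · obtain ⟨g, hg1, hg2⟩ := same (st (v i)) s t hs.1 ht.1 hs.2 ht.2
        refine ⟨st g, ?_, ?_⟩
        · change st (st g) • e s = e (st (v i) • s)
          rw [st_st]; exact hg1
        · change st (st g) • e t = e (st (v i) • t)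
          rw [st_st]; exact hg2
  choose v' hv'1 hv'2 using hex
  exact htrans G Ω e v' he hv'1 hv'2 hp

end Core

/-- In a proper variety of `m`-groups, covers of primes are normal. -/
theorem cover_normal {G : Type} [MGroup G] (p : MTerm × MTerm) (hp : Holds G p) (K : Type)
    [MGroup K] (hK : ¬ Holds K p) (V : PSub G) (v : G) (hv : v ∈ V.H) (y : G)
    (hy : y ∈ cover V.H) : y⁻¹ * v * y ∈ V.H := by
  apply normal_of_trivial V _ v hv y hy
  intro g a b hga
  by_contra hgb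
  exact hK (holland_core (trans_cos _) (prim_covSub V) g hga hgb p
    (holds_of_injective (covSub V).coe (covSub V).coe_hom (fun x y h => (covSub V).coe_inj h) p hp)
    K)

end Pool.Agent.Lib.MP_67fdd1_al
end

section

set_option autoImplicit false
set_option linter.unusedVariables false
set_option linter.unusedSectionVars false

namespace Pool.Agent.Lib.MP_67fdd1_al

open MGroup

/-! ### Hölder's theorem: archimedean totally ordered groups are commutative -/

section Hoelder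

variable {R : Type} [Group R] [LinearOrder R] [MulLeftMono R] [MulRightMono R]

theorem exists_zpow_le (harch : ∀ x y : R, 1 < x → ∃ n : ℕ, y ≤ x ^ n) {x : R} (hx : 1 < x)
    (a : R) : ∃ m : ℤ, x ^ m ≤ a ∧ a < x ^ (m + 1) := by
  have hmono : ∀ i j : ℤ, i ≤ j → x ^ i ≤ x ^ j := by
    intro i j hij
    obtain ⟨k, rfl⟩ := Int.le.dest hij
    rw [zpow_add, zpow_natCast]
    exact le_mul_of_one_le_right' (one_le_pow_of_one_le' hx.le k)
  have hlt : ∀ i : ℤ, x ^ i < x ^ (i + 1) := by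
    intro i
    rw [zpow_add_one]
    exact lt_mul_of_one_lt_right' _ hx
  obtain ⟨n, hn⟩ := harch x a hx
  obtain ⟨k, hk⟩ := harch x a⁻¹ hx
  obtain ⟨m, hm, hm'⟩ := Int.exists_greatest_of_bdd (P := fun m : ℤ => x ^ m ≤ a) ⟨n, by
    intro z hz
    by_contra hcon
    push Not at hcon
    have h1 := hmono (n + 1) z (by omega)
    have h2 := hlt n
    rw [zpow_natCast] at h2
    exact absurd (h1.trans (hz.trans hn)) h2.not_ge⟩ ⟨-k, by
    rw [zpow_neg, zpow_natCast, inv_le']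
    exact hk⟩
  refine ⟨m, hm, ?_⟩
  by_contra hcon
  have := hm' (m + 1) (not_lt.1 hcon)
  omega

theorem hoelder (harch : ∀ x y : R, 1 < x → ∃ n : ℕ, y ≤ x ^ n) (a b : R) : a * b = b * a := by
  by_cases hmin : ∃ x : R, 1 < x ∧ ∀ y : R, 1 < y → x ≤ y
  · obtain ⟨x, hx, hx'⟩ := hmin
    have key : ∀ y : R, ∃ m : ℤ, y = x ^ m := by
      intro y
      obtain ⟨m, hm, hm'⟩ := exists_zpow_le harch hx y
      refine ⟨m, ?_⟩
      by_contra hcon
      have h1 : x ^ m < y := lt_of_le_of_ne hm (Ne.symm hcon)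
      have h2 : 1 < (x ^ m)⁻¹ * y := by
        rw [lt_inv_mul_iff_mul_lt, mul_one]; exact h1
      have h3 := hx' _ h2
      rw [le_inv_mul_iff_mul_le, ← zpow_add_one] at h3
      exact absurd h3 hm'.not_ge
    obtain ⟨m, rfl⟩ := key a
    obtain ⟨n, rfl⟩ := key b
    rw [← zpow_add, ← zpow_add, add_comm]
  · have key : ∀ a b : R, ¬ 1 < a * b * a⁻¹ * b⁻¹ := by
      intro a b hc
      obtain ⟨y, hy, hy'⟩ : ∃ y : R, 1 < y ∧ y < a * b * a⁻¹ * b⁻¹ := by
        by_contra hcon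
        push Not at hcon
        exact hmin ⟨_, hc, hcon⟩
      have hz : 1 < y⁻¹ * (a * b * a⁻¹ * b⁻¹) := by
        rw [lt_inv_mul_iff_mul_lt, mul_one]; exact hy'
      obtain ⟨x, hx, hxx⟩ : ∃ x : R, 1 < x ∧ x * x ≤ a * b * a⁻¹ * b⁻¹ := by
        refine ⟨min y (y⁻¹ * (a * b * a⁻¹ * b⁻¹)), lt_min hy hz, ?_⟩
        refine (mul_le_mul' (min_le_left _ _) (min_le_right _ _)).trans ?_
        rw [mul_inv_cancel_left]
      obtain ⟨m, hm, hm'⟩ := exists_zpow_le harch hx a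
      obtain ⟨n, hn, hn'⟩ := exists_zpow_le harch hx b
      have h1 : a * b < x ^ (m + 1) * x ^ (n + 1) := mul_lt_mul_of_lt_of_lt hm' hn'
      have h2 : a⁻¹ * b⁻¹ ≤ (x ^ m)⁻¹ * (x ^ n)⁻¹ :=
        mul_le_mul' (inv_le_inv_iff.2 hm) (inv_le_inv_iff.2 hn)
      have h3 : a * b * a⁻¹ * b⁻¹ < x * x := by
        have h4 : a * b * (a⁻¹ * b⁻¹) < x ^ (m + 1) * x ^ (n + 1) * ((x ^ m)⁻¹ * (x ^ n)⁻¹) :=
          mul_lt_mul_of_lt_of_le h1 h2
        have h5 : x ^ (m + 1) * x ^ (n + 1) * ((x ^ m)⁻¹ * (x ^ n)⁻¹) = x * x := by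
          rw [← zpow_neg, ← zpow_neg, ← zpow_add, ← zpow_add, ← zpow_add, ← sq, ← zpow_natCast]
          congr 1
          push_cast
          ring
        rw [h5, ← mul_assoc] at h4
        exact h4
      exact absurd hxx h3.not_ge
    have h1 := key a b
    have h2 := key b a
    have h3 : b * a * b⁻¹ * a⁻¹ = (a * b * a⁻¹ * b⁻¹)⁻¹ := by group
    rw [h3, one_lt_inv'] at h2
    have h4 : a * b * a⁻¹ * b⁻¹ = 1 := le_antisymm (not_lt.1 h1) (not_lt.1 h2)
    rw [mul_assoc, ← mul_inv_rev] at h4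
    exact mul_inv_eq_one.1 h4

end Hoelder

/-! ### Quotients -/

section Quot

variable {G : Type} [LGroup G]

/-- A prime `V` which is normal in a larger subgroup `C`. -/
structure NPair (G : Type) [LGroup G] where
  V : PSub G
  C : Subgroup G
  le : V.H ≤ C
  normal : ∀ v ∈ V.H, ∀ y ∈ C, y⁻¹ * v * y ∈ V.H

instance (D : NPair G) : (D.V.H.subgroupOf D.C).Normal where
  conj_mem := by
    intro n hn g
    rw [Subgroup.mem_subgroupOf] at *
    have := D.normal _ hn _ (D.C.inv_mem g.2)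
    simpa using this

/-- The quotient `C / V`. -/
def NPair.R (D : NPair G) : Type := D.C ⧸ D.V.H.subgroupOf D.C

instance (D : NPair G) : Group D.R := inferInstanceAs (Group (D.C ⧸ D.V.H.subgroupOf D.C))

/-- The quotient map. -/
def NPair.q (D : NPair G) (c : D.C) : D.R := (QuotientGroup.mk c : D.C ⧸ D.V.H.subgroupOf D.C)

theorem NPair.q_mul (D : NPair G) (a b : D.C) : D.q (a * b) = D.q a * D.q b := rfl
theorem NPair.q_one (D : NPair G) : D.q 1 = 1 := rfl
theorem NPair.q_inv (D : NPair G) (a : D.C) : D.q a⁻¹ = (D.q a)⁻¹ := rfl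

theorem NPair.q_surj (D : NPair G) (r : D.R) : ∃ c, D.q c = r := by
  obtain ⟨c, hc⟩ := QuotientGroup.mk_surjective r
  exact ⟨c, hc⟩

theorem NPair.q_eq (D : NPair G) (a b : D.C) : D.q a = D.q b ↔ D.V.pt (a : G) = D.V.pt b := by
  rw [PSub.pt_eq]
  exact QuotientGroup.eq

/-- The embedding of the quotient in the chain of cosets. -/
noncomputable def NPair.toCos (D : NPair G) (r : D.R) : Cos D.V :=
  D.V.pt ((Classical.choose (D.q_surj r) : D.C) : G)

theorem NPair.toCos_q (D : NPair G) (a : D.C) : D.toCos (D.q a) = D.V.pt (a : G) := by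
  unfold NPair.toCos
  rw [← D.q_eq]
  exact Classical.choose_spec (D.q_surj (D.q a))

theorem NPair.toCos_inj (D : NPair G) : Function.Injective D.toCos := by
  intro r s h
  obtain ⟨a, rfl⟩ := D.q_surj r
  obtain ⟨b, rfl⟩ := D.q_surj s
  rw [D.toCos_q, D.toCos_q] at h
  exact (D.q_eq a b).2 h

noncomputable instance (D : NPair G) : LinearOrder D.R := LinearOrder.lift' D.toCos D.toCos_inj

theorem NPair.q_le (D : NPair G) (a b : D.C) : D.q a ≤ D.q b ↔ D.V.rel (a : G) b := by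
  rw [← D.V.pt_le_pt, ← D.toCos_q, ← D.toCos_q]
  rfl

instance (D : NPair G) : MulLeftMono D.R where
  elim := by
    intro c a b h
    obtain ⟨a, rfl⟩ := D.q_surj a
    obtain ⟨b, rfl⟩ := D.q_surj b
    obtain ⟨c, rfl⟩ := D.q_surj c
    change D.q c * D.q a ≤ D.q c * D.q b
    rw [D.q_le] at h
    rw [← D.q_mul, ← D.q_mul, D.q_le]
    exact (D.V.rel_left (c : G)).2 h

instance (D : NPair G) : MulRightMono D.R where
  elim := by
    intro c a b h
    obtain ⟨a, rfl⟩ := D.q_surj a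
    obtain ⟨b, rfl⟩ := D.q_surj b
    obtain ⟨c, rfl⟩ := D.q_surj c
    change D.q a * D.q c ≤ D.q b * D.q c
    rw [D.q_le] at h
    rw [← D.q_mul, ← D.q_mul, D.q_le]
    unfold PSub.rel at *
    have h1 := D.normal _ h c c.2
    rw [conj_sup_one] at h1
    have h2 : ((b : G) * c)⁻¹ * (a * c) = (c : G)⁻¹ * ((b : G)⁻¹ * a) * c := by group
    change ((b : G) * c)⁻¹ * (a * c) ⊔ 1 ∈ D.V.H
    rw [h2]
    exact h1

theorem NPair.q_max (D : NPair G) (a b : D.C) (c : D.C) (h : (c : G) = (a : G) ⊔ b) :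
    D.q c = max (D.q a) (D.q b) := by
  apply D.toCos_inj
  have h1 : D.toCos (max (D.q a) (D.q b)) = max (D.toCos (D.q a)) (D.toCos (D.q b)) := by
    rcases le_total (D.q a) (D.q b) with h2 | h2
    · rw [max_eq_right h2, max_eq_right]
      exact h2
    · rw [max_eq_left h2, max_eq_left]
      exact h2
  rw [h1, D.toCos_q, D.toCos_q, D.toCos_q, h, D.V.pt_sup]

/-- If `C` is the cover of `V`, the quotient is archimedean. -/
theorem NPair.arch (D : NPair G) (hC : D.C = cover D.V.H) (x y : D.R) (hx : 1 < x) :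
    ∃ n : ℕ, y ≤ x ^ n := by
  let B : Subgroup G :=
    { carrier := {h | ∃ hh : h ∈ D.C, ∃ n : ℕ, D.q ⟨h, hh⟩ ≤ x ^ n ∧ (D.q ⟨h, hh⟩)⁻¹ ≤ x ^ n}
      one_mem' := by
        refine ⟨D.C.one_mem, 0, ?_, ?_⟩
        · rw [pow_zero]; exact le_of_eq D.q_one
        · rw [pow_zero, inv_le_one']; exact le_of_eq D.q_one.symm
      mul_mem' := by
        rintro a b ⟨ha, n, h1, h2⟩ ⟨hb, m, h3, h4⟩
        refine ⟨D.C.mul_mem ha hb, n + m, ?_, ?_⟩
        · rw [pow_add]
          exact mul_le_mul' h1 h3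
        · have : (D.q ⟨a * b, D.C.mul_mem ha hb⟩)⁻¹ = (D.q ⟨b, hb⟩)⁻¹ * (D.q ⟨a, ha⟩)⁻¹ := by
            rw [← mul_inv_rev]; rfl
          rw [this, add_comm, pow_add]
          exact mul_le_mul' h4 h2
      inv_mem' := by
        rintro a ⟨ha, n, h1, h2⟩
        refine ⟨D.C.inv_mem ha, n, h2, ?_⟩
        have : (D.q ⟨a⁻¹, D.C.inv_mem ha⟩)⁻¹ = D.q ⟨a, ha⟩ := by
          rw [← D.q_inv]
          congr 1
          exact Subtype.ext (inv_inv a)
        rw [this]
        exact h1 }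
  have hCL : IsCL D.C := by rw [hC]; exact isCL_cover _
  have hB : IsCL B := by
    constructor
    · rintro a ⟨ha, n, h1, h2⟩
      refine ⟨hCL.pos ha, n, ?_, ?_⟩
      · rw [D.q_max ⟨a, ha⟩ 1 _ rfl, max_le_iff]
        exact ⟨h1, one_le_pow_of_one_le' hx.le n⟩
      · refine le_trans ?_ (one_le_pow_of_one_le' hx.le n)
        rw [inv_le_one', D.q_max ⟨a, ha⟩ 1 _ rfl]
        exact le_max_right _ _
    · rintro a b h1 h2 ⟨hb, n, h3, h4⟩
      have ha : a ∈ D.C := hCL.conv h1 h2 hb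
      refine ⟨ha, n, ?_, ?_⟩
      · refine le_trans ?_ h3
        rw [D.q_le]
        exact D.V.rel_of_le h2
      · refine le_trans ?_ (one_le_pow_of_one_le' hx.le n)
        rw [inv_le_one', ← D.q_one, D.q_le]
        exact D.V.rel_of_le h1
  have hVB : D.V.H < B := by
    refine lt_of_le_of_ne ?_ ?_
    · intro v hv
      have h1 : D.q ⟨v, D.le hv⟩ = 1 := by
        rw [← D.q_one, D.q_eq, PSub.pt_eq]
        change v⁻¹ * 1 ∈ D.V.H
        rw [mul_one]
        exact D.V.H.inv_mem hv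
      refine ⟨D.le hv, 0, ?_, ?_⟩
      · rw [pow_zero, h1]
      · rw [pow_zero, h1, inv_one]
    · intro heq
      obtain ⟨c, rfl⟩ := D.q_surj x
      have h1 : (c : G) ∈ B := by
        refine ⟨c.2, 1, ?_, ?_⟩
        · rw [pow_one]
        · rw [pow_one]
          exact (inv_le_one'.2 hx.le).trans hx.le
      rw [← heq] at h1
      apply hx.ne
      rw [← D.q_one, D.q_eq, PSub.pt_eq]
      change (1 : G)⁻¹ * c ∈ D.V.H
      rw [inv_one, one_mul]
      exact h1
  obtain ⟨c, rfl⟩ := D.q_surj y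
  have h1 : (c : G) ∈ B := by
    apply cover_le hB hVB
    rw [← hC]
    exact c.2
  obtain ⟨_, n, h2, _⟩ := h1
  exact ⟨n, h2⟩

/-- Existence of the abelian totally ordered quotient of a normal cover. -/
theorem exists_quotient (V : PSub G)
    (hn : ∀ v ∈ V.H, ∀ y ∈ cover V.H, y⁻¹ * v * y ∈ V.H) :
    ∃ (R : Type) (_ : CommGroup R) (_ : LinearOrder R) (_ : IsOrderedMonoid R) (ρ : G → R),
      (∀ a ∈ cover V.H, ∀ b ∈ cover V.H, ρ (a * b) = ρ a * ρ b) ∧
      (∀ a ∈ cover V.H, ∀ b ∈ cover V.H, ρ a ≤ ρ b ↔ V.rel a b) := by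
  classical
  let D : NPair G := ⟨V, cover V.H, le_cover _, hn⟩
  let cg : CommGroup D.R :=
    { (inferInstance : Group D.R) with mul_comm := hoelder (D.arch rfl) }
  refine ⟨D.R, cg, inferInstance, ?_, fun g => if h : g ∈ cover V.H then D.q ⟨g, h⟩ else 1,
    ?_, ?_⟩
  · exact IsOrderedMonoid.mk (fun a b h c => mul_le_mul_left h c)
      (fun a b h c => mul_le_mul_right h c)
  · intro a ha b hb
    beta_reduce
    rw [dif_pos ha, dif_pos hb, dif_pos (Subgroup.mul_mem _ ha hb)]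
    rfl
  · intro a ha b hb
    beta_reduce
    rw [dif_pos ha, dif_pos hb]
    exact D.q_le _ _

end Quot

end Pool.Agent.Lib.MP_67fdd1_al
end

section

set_option autoImplicit false
set_option linter.unusedVariables false
set_option linter.unusedSectionVars false

namespace Pool.Agent.Lib.MP_67fdd1_al

open MGroup

section

variable {G : Type} [LGroup G]

open Classical in
/-- Finite partial actions of normal-valued `ℓ`-groups embed in iterated wreath products of
totally ordered abelian groups. -/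
theorem claim4 (P : PSub G)
    (hNV : ∀ V : PSub G, P.H ≤ V.H → ∀ v ∈ V.H, ∀ y ∈ cover V.H, y⁻¹ * v * y ∈ V.H) :
    ∀ (k : ℕ) (T : Finset (Cos P)), T.card = k → P.pt 1 ∈ T → ∀ (ι : Type) (x : ι → G),
      ∃ (n : ℕ) (H : Type) (_ : LGroup H) (Ω' : Type) (_ : LinearOrder Ω') (_ : LAct H Ω')
        (e : Cos P → Ω') (x' : ι → H), XFin (fun _ => true) n (Dbl H) ∧ StrictMonoOn e T ∧
          ∀ l, ∀ t ∈ T, x l • t ∈ T → x' l • e t = e (x l • t) := by
  intro k
  induction k using Nat.strong_induction_on with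
  | _ k ih =>
  intro T hT h1T ι x
  by_cases hone : ∀ t ∈ T, t = P.pt 1
  · refine ⟨0, PUnit, inferInstance, PUnit, inferInstance, inferInstance, fun _ => PUnit.unit,
      fun _ => 1, xfin_true_unit, ?_, fun _ _ _ _ => rfl⟩
    intro s hs t ht hst
    exact absurd hst (by rw [hone s hs, hone t ht]; exact lt_irrefl _)
  · push Not at hone
    obtain ⟨t1, ht1, ht1'⟩ := hone
    choose rep hrep using fun t : Cos P => P.exists_rep t
    have hF : ¬ ((T.image rep : Finset G) : Set G) ⊆ P.H := by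
      intro hcon
      apply ht1'
      have h1 : rep t1 ∈ P.H := hcon (Finset.mem_coe.2 (Finset.mem_image_of_mem rep ht1))
      rw [← hrep t1, P.pt_eq, mul_one]
      exact P.H.inv_mem h1
    obtain ⟨V0, hV1, hV2, hV3, hV4⟩ := exists_value (T.image rep) P.H P.cl hF
    let V : PSub G := P.up V0 hV1 hV2
    have hPV : P.H ≤ V.H := hV2
    have hTC : ∀ t ∈ T, rep t ∈ cover V.H := by
      intro t ht
      unfold cover
      rw [Subgroup.mem_sInf]
      intro W hW
      exact hV4 W hW.1 hW.2 (Finset.mem_coe.2 (Finset.mem_image_of_mem rep ht))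
    obtain ⟨tb, htb, htb'⟩ : ∃ t ∈ T, rep t ∉ V.H := by
      by_contra hcon
      push Not at hcon
      apply hV3
      intro g hg
      obtain ⟨t, ht, rfl⟩ := Finset.mem_image.1 (Finset.mem_coe.1 hg)
      exact hcon t ht
    obtain ⟨R, i1, i2, i3, ρ, hρ1, hρ2⟩ := exists_quotient V (hNV V hPV)
    have hC1 : (1 : G) ∈ cover V.H := Subgroup.one_mem _
    have hρone : ρ 1 = 1 := by
      have h1 := hρ1 1 hC1 1 hC1
      rw [mul_one] at h1
      exact (mul_eq_left.1 h1.symm)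
    have hρinj : ∀ a ∈ cover V.H, ∀ b ∈ cover V.H, ρ a = ρ b → V.pt a = V.pt b := by
      intro a ha b hb h
      exact V.rel_antisymm ((hρ2 a ha b hb).1 h.le) ((hρ2 b hb a ha).1 h.ge)
    have hρP : ∀ p ∈ P.H, ρ p = 1 := by
      intro p hp
      have hpV : p ∈ V.H := hPV hp
      have hpC : p ∈ cover V.H := le_cover _ hpV
      rw [← hρone]
      apply le_antisymm
      · rw [hρ2 p hpC 1 hC1]
        apply V.rel_of_eq
        rw [V.pt_eq, mul_one]
        exact V.H.inv_mem hpV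
      · rw [hρ2 1 hC1 p hpC]
        apply V.rel_of_eq
        rw [V.pt_eq, inv_one, one_mul]
        exact hpV
    let r : Cos P → R := fun t => ρ (rep t)
    have hkey : ∀ t ∈ T, ∀ g ∈ cover V.H, P.pt g = t → ρ g = r t := by
      intro t ht g hg hgt
      have h1 : g⁻¹ * rep t ∈ P.H := by
        rw [← P.pt_eq, hgt, hrep]
      have h2 := hρ1 g hg _ (le_cover _ (hPV h1))
      rw [mul_inv_cancel_left, hρP _ h1, mul_one] at h2
      exact h2.symm
    let b : R → G := fun s => if h : ∃ t, t ∈ T ∧ r t = s then rep h.choose else 1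
    have hb : ∀ t ∈ T, ∃ t0 ∈ T, r t0 = r t ∧ b (r t) = rep t0 := by
      intro t ht
      have h : ∃ t', t' ∈ T ∧ r t' = r t := ⟨t, ht, rfl⟩
      refine ⟨h.choose, h.choose_spec.1, h.choose_spec.2, ?_⟩
      change (if h : ∃ t', t' ∈ T ∧ r t' = r t then rep h.choose else 1) = _
      rw [dif_pos h]
    let φ : Cos P → Cos P := fun t => (b (r t))⁻¹ • t
    have hφ1 : ∀ t ∈ T, ∃ t0 ∈ T, r t0 = r t ∧ φ t0 = P.pt 1 := by
      intro t ht
      obtain ⟨t0, h1, h2, h3⟩ := hb t ht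
      refine ⟨t0, h1, h2, ?_⟩
      change (b (r t0))⁻¹ • t0 = P.pt 1
      rw [h2, h3]
      nth_rewrite 2 [← hrep t0]
      rw [P.smul_pt, inv_mul_cancel]
    let T' : Finset (Cos P) := T.image φ
    have hcard : T'.card < k := by
      rw [← hT]
      refine lt_of_le_of_ne Finset.card_image_le ?_
      intro heq
      have hinj : Set.InjOn φ T := Finset.card_image_iff.1 heq
      obtain ⟨ta, a1, a2, a3⟩ := hφ1 _ h1T
      obtain ⟨tc, c1, c2, c3⟩ := hφ1 _ htb
      have h1 : ta = tc := hinj (Finset.mem_coe.2 a1) (Finset.mem_coe.2 c1) (a3.trans c3.symm)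
      apply htb'
      have h2 : r tb = r (P.pt 1) := by rw [← c2, ← h1, a2]
      have h3 : r (P.pt 1) = 1 := by
        have h4 := hkey _ h1T 1 hC1 rfl
        rw [← h4, hρone]
      have h5 : ρ (rep tb) = ρ 1 := by rw [hρone, ← h3, ← h2]
      have h6 := hρinj _ (hTC tb htb) 1 hC1 h5
      rw [V.pt_eq, mul_one] at h6
      simpa using V.H.inv_mem h6
    have h1T' : P.pt 1 ∈ T' := by
      obtain ⟨ta, a1, a2, a3⟩ := hφ1 _ h1T
      rw [← a3]
      exact Finset.mem_image_of_mem φ a1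
    obtain ⟨n, H, iH, Ω'', iΩ, iA, e'', x'', hX, he, hx⟩ := ih T'.card hcard T' rfl h1T' (ι × R)
      (fun lr => (b (ρ (x lr.1) * lr.2))⁻¹ * x lr.1 * b lr.2)
    refine ⟨n + 1, Wr (MonoidHom.id R) H, inferInstance, R ×ₗ Ω'', inferInstance, inferInstance,
      fun t => toLex (r t, e'' (φ t)), fun l => ⟨ρ (x l), fun q => x'' (l, q)⟩, ?_, ?_, ?_⟩
    · exact xfin_true_succ n (dbl_wr_prd_a (MonoidHom.id R) H (xfin_pow _ n _ _ hX))
    · intro s hs t ht hst
      have h1 : r s ≤ r t := by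
        change ρ (rep s) ≤ ρ (rep t)
        rw [hρ2 _ (hTC s hs) _ (hTC t ht)]
        rw [← hrep s, ← hrep t] at hst
        have h2 := P.pt_le_pt.1 hst.le
        exact hPV h2
      rw [Prod.Lex.toLex_lt_toLex]
      rcases h1.lt_or_eq with h2 | h2
      · exact Or.inl h2
      · right
        refine ⟨h2, ?_⟩
        apply he (Finset.mem_coe.2 (Finset.mem_image_of_mem φ hs))
          (Finset.mem_coe.2 (Finset.mem_image_of_mem φ ht))
        change (b (r s))⁻¹ • s < (b (r t))⁻¹ • t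
        rw [h2, smul_lt_iff]
        exact hst
    · intro l t ht hlt
      have h1 : (x l * rep t)⁻¹ * rep (x l • t) ∈ P.H := by
        rw [← P.pt_eq, hrep, ← P.smul_pt, hrep]
      have hxC : x l ∈ cover V.H := by
        have h2 := Subgroup.mul_mem _ (Subgroup.mul_mem _ (hTC _ hlt)
          (Subgroup.inv_mem _ (le_cover _ (hPV h1)))) (Subgroup.inv_mem _ (hTC _ ht))
        have h3 : rep (x l • t) * ((x l * rep t)⁻¹ * rep (x l • t))⁻¹ * (rep t)⁻¹ = x l := by
          group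
        rwa [h3] at h2
      have h4 : ρ (x l) * r t = r (x l • t) := by
        rw [← hkey _ hlt (x l * rep t) (Subgroup.mul_mem _ hxC (hTC t ht))
          (by rw [← P.smul_pt, hrep]), hρ1 _ hxC _ (hTC t ht)]
      have h5 : ((b (ρ (x l) * r t))⁻¹ * x l * b (r t)) • φ t = φ (x l • t) := by
        change ((b (ρ (x l) * r t))⁻¹ * x l * b (r t)) • (b (r t))⁻¹ • t =
          (b (r (x l • t)))⁻¹ • x l • t
        rw [smul_smul, mul_inv_cancel_right, mul_smul, h4]
      have h6 := hx (l, r t) (φ t) (Finset.mem_image_of_mem φ ht) (by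
        change ((b (ρ (x l) * r t))⁻¹ * x l * b (r t)) • φ t ∈ T'
        rw [h5]
        exact Finset.mem_image_of_mem φ hlt)
      change x'' (l, r t) • e'' (φ t) =
        e'' (((b (ρ (x l) * r t))⁻¹ * x l * b (r t)) • φ t) at h6
      rw [h5] at h6
      rw [Wr.smul_def, h4]
      change toLex (r (x l • t), x'' (l, r t) • e'' (φ t)) = _
      rw [h6]

end

/-- If all covers of primes in an `m`-group are normal, it belongs to the join of the powers of
the class of abelian `m`-groups. -/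
theorem normal_valued_mem {G : Type} [MGroup G]
    (hNV : ∀ V : PSub G, ∀ v ∈ V.H, ∀ y ∈ cover V.H, y⁻¹ * v * y ∈ V.H) :
    XEps (fun _ => true) G := by
  intro p hp
  by_contra hG
  unfold Holds at hG
  push Not at hG
  obtain ⟨v, hv⟩ := hG
  have hw : p.1.eval v * (p.2.eval v)⁻¹ ≠ 1 := fun h => hv (mul_inv_eq_one.1 h)
  obtain ⟨P, hP, _⟩ := exists_prime_value _ hw
  have hα : (p.1.eval v * (p.2.eval v)⁻¹) • P.pt 1 ≠ P.pt 1 := by
    rw [P.smul_pt, mul_one, ne_eq, P.pt_eq, mul_one]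
    intro h
    exact hP (by simpa using P.H.inv_mem h)
  obtain ⟨T, hT, htrans⟩ := transfer p v (P.pt 1) hα
  obtain ⟨n, H, iH, Ω', iΩ, iA, e, x', hX, he, hx⟩ := claim4 P (fun V _ => hNV V) T.card T rfl hT
    (ℕ × Bool) (fun ib => if ib.2 then st (v ib.1) else v ib.1)
  refine htrans (Dbl H) Ω' e (fun i => Dbl.mk (x' (i, false)) (x' (i, true))) he ?_ ?_
    (hp n (Dbl H) hX)
  · intro i t ht ht'
    exact hx (i, false) t ht ht'
  · intro i t ht ht'
    exact hx (i, true) t ht ht'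

end Pool.Agent.Lib.MP_67fdd1_al
end
end
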