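import Mathlib
import Pool.Agent.Lib.MP_67fdd1_al.Classes
import Pool.Agent.Lib.MP_67fdd1_al.NormalValued

section

set_option autoImplicit false
set_option linter.unusedVariables false
set_option linter.unusedSectionVars false

namespace Pool.Agent.Lib.MP_67fdd1_al

open MGroup

section Split

variable {A : Type} [AddCommGroup A] [LinearOrder A] [IsOrderedAddMonoid A]

/-- The elements infinitely small with respect to `a₀`. -/
def small (a₀ : A) (h0 : 0 ≤ a₀) : Submodule ℤ A where
  carrier := {x | ∀ n : ℕ, n • |x| ≤ a₀}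
  zero_mem' := by
    intro n
    rw [abs_zero, nsmul_zero]
    exact h0
  add_mem' := by
    intro x y hx hy n
    have h1 : |x + y| ≤ 2 • max |x| |y| := by
      refine (abs_add_le x y).trans ?_
      rw [two_nsmul]
      exact add_le_add (le_max_left _ _) (le_max_right _ _)
    refine (nsmul_le_nsmul_right h1 n).trans ?_
    rw [← mul_nsmul']
    rcases max_choice |x| |y| with h | h
    · rw [h]; exact hx _
    · rw [h]; exact hy _
  smul_mem' := by
    intro c x hx n
    rw [abs_zsmul, ← natCast_zsmul, smul_smul]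
    have h1 : (n : ℤ) * |c| = ((n * c.natAbs : ℕ) : ℤ) := by
      push_cast
      rw [Int.abs_eq_natAbs]
    rw [h1, natCast_zsmul]
    exact hx _

theorem mem_small {a₀ : A} {h0 : 0 ≤ a₀} {x : A} : x ∈ small a₀ h0 ↔ ∀ n : ℕ, n • |x| ≤ a₀ :=
  Iff.rfl

theorem small_convex {a₀ : A} {h0 : 0 ≤ a₀} {x y : A} (hxy : |x| ≤ |y|) (hy : y ∈ small a₀ h0) :
    x ∈ small a₀ h0 := fun n => (nsmul_le_nsmul_right hxy n).trans (hy n)

theorem exists_dominant [Module.Finite ℤ A] [Nontrivial A] :
    ∃ a₀ : A, 0 < a₀ ∧ ∀ x : A, ∃ m : ℕ, 0 < m ∧ |x| ≤ m • a₀ := by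
  obtain ⟨s, hs⟩ := (Module.finite_def.1 (inferInstance : Module.Finite ℤ A))
  obtain ⟨z, hz⟩ := exists_ne (0 : A)
  refine ⟨|z| + ∑ g ∈ s, |g|, ?_, ?_⟩
  · exact add_pos_of_pos_of_nonneg (abs_pos.2 hz) (Finset.sum_nonneg (fun g _ => abs_nonneg g))
  · intro x
    have hx : x ∈ Submodule.span ℤ (s : Set A) := by rw [hs]; exact Submodule.mem_top
    have ha : 0 ≤ |z| + ∑ g ∈ s, |g| :=
      add_nonneg (abs_nonneg _) (Finset.sum_nonneg (fun g _ => abs_nonneg g))
    induction hx using Submodule.span_induction with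
    | mem g hg =>
      refine ⟨1, one_pos, ?_⟩
      rw [one_nsmul]
      refine (Finset.single_le_sum (fun g _ => abs_nonneg g) hg).trans ?_
      exact le_add_of_nonneg_left (abs_nonneg _)
    | zero => exact ⟨1, one_pos, by rw [abs_zero, one_nsmul]; exact ha⟩
    | add x y _ _ hx hy =>
      obtain ⟨m, hm, hm'⟩ := hx
      obtain ⟨k, hk, hk'⟩ := hy
      refine ⟨m + k, by omega, ?_⟩
      rw [add_nsmul]
      exact (abs_add_le x y).trans (add_le_add hm' hk')
    | smul c x _ hx =>
      obtain ⟨m, hm, hm'⟩ := hx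
      refine ⟨(c.natAbs + 1) * m, by positivity, ?_⟩
      rw [abs_zsmul, Int.abs_eq_natAbs, natCast_zsmul, mul_nsmul']
      refine (nsmul_le_nsmul_right hm' _).trans ?_
      exact nsmul_le_nsmul_left (nsmul_nonneg ha _) (by omega)

/-- Splitting of a nontrivial finitely generated totally ordered abelian group. -/
theorem exists_split [Module.Finite ℤ A] [Nontrivial A] :
    ∃ (D : Submodule ℤ A) (π : A →ₗ[ℤ] A), (∀ x y : A, |x| ≤ |y| → y ∈ D → x ∈ D) ∧
      (∀ x, x - π x ∈ D) ∧ (∀ x, π x = 0 ↔ x ∈ D) ∧ (∀ x, π (π x) = π x) ∧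
      Module.finrank ℤ D < Module.finrank ℤ A ∧
      (∀ δ u : A, (∀ k : ℕ, k • |δ| ≤ |u|) → δ ∈ D) := by
  obtain ⟨a₀, ha0, ha⟩ := exists_dominant (A := A)
  let D := small a₀ ha0.le
  have hD1 : a₀ ∉ D := by
    intro h
    have := h 2
    rw [abs_of_pos ha0, two_nsmul] at this
    exact absurd this (not_le.2 (lt_add_of_pos_left a₀ ha0))
  have htf : Module.IsTorsionFree ℤ (A ⧸ D) := by
    constructor
    intro n hn
    have hn0 : n ≠ 0 := by
      rintro rfl
      exact not_isRegular_zero hn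
    intro x y hxy
    obtain ⟨x, rfl⟩ := Submodule.mkQ_surjective D x
    obtain ⟨y, rfl⟩ := Submodule.mkQ_surjective D y
    have h1 : n • (x - y) ∈ D := by
      rw [← Submodule.ker_mkQ D, LinearMap.mem_ker, map_smul, map_sub, smul_sub]
      exact sub_eq_zero.2 hxy
    have h2 : x - y ∈ D := by
      apply small_convex _ h1
      rw [abs_zsmul]
      have h3 : (1 : ℤ) ≤ |n| := Int.one_le_abs hn0
      calc |x - y| = (1 : ℤ) • |x - y| := by rw [one_zsmul]
        _ ≤ |n| • |x - y| := zsmul_le_zsmul_left (abs_nonneg _) h3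
    have h3 : D.mkQ (x - y) = 0 := by
      rw [← LinearMap.mem_ker, Submodule.ker_mkQ]; exact h2
    rw [map_sub] at h3
    exact sub_eq_zero.1 h3
  obtain ⟨s, hs⟩ := Module.projective_lifting_property D.mkQ
    (LinearMap.id : (A ⧸ D) →ₗ[ℤ] (A ⧸ D)) (Submodule.mkQ_surjective D)
  have hs' : ∀ q, D.mkQ (s q) = q := fun q => by
    have := LinearMap.congr_fun hs q
    simpa using this
  refine ⟨D, s ∘ₗ D.mkQ, fun x y h1 h2 => small_convex h1 h2, ?_, ?_, ?_, ?_, ?_⟩
  · intro x
    have h1 : D.mkQ (x - s (D.mkQ x)) = 0 := by rw [map_sub, hs', sub_self]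
    rwa [← LinearMap.mem_ker, Submodule.ker_mkQ] at h1
  · intro x
    constructor
    · intro h
      change s (D.mkQ x) = 0 at h
      have h2 := hs' (D.mkQ x)
      rw [h, map_zero] at h2
      rw [← Submodule.ker_mkQ D, LinearMap.mem_ker]
      exact h2.symm
    · intro h
      rw [← Submodule.ker_mkQ D, LinearMap.mem_ker] at h
      change s (D.mkQ x) = 0
      rw [h, map_zero]
  · intro x
    change s (D.mkQ (s (D.mkQ x))) = s (D.mkQ x)
    rw [hs']
  · have h1 := D.finrank_quotient_add_finrank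
    have h2 : 0 < Module.finrank ℤ (A ⧸ D) := by
      have : Nontrivial (A ⧸ D) := by
        rw [Submodule.Quotient.nontrivial_iff]
        intro h
        apply hD1
        rw [h]
        exact Submodule.mem_top
      exact Module.finrank_pos
    omega
  · intro δ u h n
    obtain ⟨m, hm, hm'⟩ := ha u
    have h1 : (m * n) • |δ| ≤ m • a₀ := (h (m * n)).trans hm'
    rw [mul_nsmul'] at h1
    exact le_of_nsmul_le_nsmul_right hm.ne' h1

end Split

section Claim5

open Classical in
/-- Partial contractive periodic actions on finitely generated totally ordered abelian groups are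
realised in powers of the class `𝒵`. -/
theorem claim5 : ∀ (N : ℕ) (A : Type) [AddCommGroup A] [LinearOrder A] [IsOrderedAddMonoid A]
    [Module.Finite ℤ A], Module.finrank ℤ A = N → ∀ (ι : Type) (rel : ι → A → A → Prop),
    (∀ l a b a' b' y, rel l a b → rel l a' b' →
      ∀ k : ℕ, k • |(b - a) - (b' - a')| ≤ |a - a' - 2 • y|) →
    ∃ (n : ℕ) (H : Type) (_ : MGroup H) (Ω : Type) (_ : LinearOrder Ω) (_ : LAct H Ω)
      (τ : Ω → Ω) (e : A → Ω) (x : ι → H), XFin (fun _ => false) n H ∧ StrictMono e ∧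
        (∀ (h : H) (ω : Ω), τ (h • ω) = st h • τ ω) ∧ (∀ a, e (-a) = τ (e a)) ∧
        ∀ l a b, rel l a b → x l • e a = e b := by
  intro N
  induction N using Nat.strong_induction_on with
  | _ N ih =>
  intro A _ _ _ _ hN ι rel hcontr
  rcases subsingleton_or_nontrivial A with hA | hA
  · refine ⟨0, PUnit, inferInstance, PUnit, inferInstance, inferInstance, id, fun _ => PUnit.unit,
      fun _ => 1, xfin_false_unit, ?_, fun _ _ => rfl, fun _ => rfl, fun _ _ _ _ => rfl⟩
    intro a b hab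
    exact absurd hab (by rw [Subsingleton.elim a b]; exact lt_irrefl _)
  · obtain ⟨D, π, hconv, hπ1, hπ2, hπ3, hrank, hinf⟩ := exists_split (A := A)
    have hδ : ∀ l a b a' b', rel l a b → rel l a' b' → (b - a) - (b' - a') ∈ D := by
      intro l a b a' b' h1 h2
      apply hinf _ (a - a')
      intro k
      have := hcontr l a b a' b' 0 h1 h2 k
      rwa [nsmul_zero, sub_zero] at this
    let R' : Submodule ℤ A := LinearMap.range π
    let R : Type := Multiplicative R'
    let sq : Subgroup R := (powMonoidHom 2 : R →* R).range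
    let Q : Type := R ⧸ sq
    let πq : R →* Q := QuotientGroup.mk' sq
    have hπq : ∀ r : R, πq r * πq r = 1 := by
      intro r
      rw [← map_mul]
      have h1 : r * r ∈ sq := ⟨r, pow_two r⟩
      exact (QuotientGroup.eq_one_iff (r * r)).2 h1
    have hπqeq : ∀ r r' : R, πq r = πq r' → ∃ u : R', (Multiplicative.toAdd r : R') - Multiplicative.toAdd r' = 2 • u := by
      intro r r' h
      have h1 : r'⁻¹ * r ∈ sq := QuotientGroup.eq.1 (show πq r' = πq r from h.symm)
      obtain ⟨u, hu⟩ := h1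
      refine ⟨Multiplicative.toAdd u, ?_⟩
      have h2 : u ^ 2 = r'⁻¹ * r := hu
      have h3 := congrArg Multiplicative.toAdd h2
      rw [toAdd_pow, toAdd_mul, toAdd_inv] at h3
      rw [h3]
      abel
    -- the projection to the complement
    let P : A → R' := fun a => ⟨π a, ⟨a, rfl⟩⟩
    have hP : ∀ a, ((P a : R') : A) = π a := fun a => rfl
    -- the translation length of a letter
    let c : ι → R' := fun l => if h : ∃ a b, rel l a b then P (h.choose_spec.choose - h.choose)
      else 0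
    have hc : ∀ l a b, rel l a b → c l = P (b - a) := by
      intro l a b hab
      have h : ∃ a b, rel l a b := ⟨a, b, hab⟩
      change (if h : ∃ a b, rel l a b then P (h.choose_spec.choose - h.choose) else 0) = _
      rw [dif_pos h]
      have h1 := hδ l _ _ _ _ h.choose_spec.choose_spec hab
      rw [← hπ2, map_sub, sub_eq_zero] at h1
      exact Subtype.ext h1
    obtain ⟨n, H, iH, Ω, iΩ, iA, τ, e, x, hX, he, hτ, hneg, hx⟩ := ih (Module.finrank ℤ D)
      (by rw [← hN]; exact hrank) D rfl (ι × Q)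
      (fun lq u v => ∃ a b, rel lq.1 a b ∧ πq (Multiplicative.ofAdd (P a)) = lq.2 ∧
        (u : A) = a - π a ∧ (v : A) = b - π b) (by
        rintro ⟨l, q⟩ u v u' v' y ⟨a, b, h1, h2, h3, h4⟩ ⟨a', b', h1', h2', h3', h4'⟩ k
        obtain ⟨ρ, hρ⟩ := hπqeq _ _ (h2.trans h2'.symm)
        rw [toAdd_ofAdd, toAdd_ofAdd] at hρ
        have hρ' : π a - π a' = 2 • (ρ : A) := congrArg (Submodule.subtype R') hρ
        have e1 : (((v - u) - (v' - u') : D) : A) = (b - a) - (b' - a') := by
          have h5 := hδ l a b a' b' h1 h1'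
          rw [← hπ2] at h5
          simp only [map_sub] at h5
          push_cast
          rw [h3, h4, h3', h4']
          have h7 : b - π b - (a - π a) - (b' - π b' - (a' - π a')) =
              (b - a - (b' - a')) - (π b - π a - (π b' - π a')) := by abel
          rw [h7, h5, sub_zero]
        have e2 : ((u - u' - 2 • y : D) : A) = a - a' - 2 • ((ρ : A) + (y : A)) := by
          push_cast
          rw [h3, h3', nsmul_add, ← hρ']
          abel
        have h6 := hcontr l a b a' b' ((ρ : A) + (y : A)) h1 h1' k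
        rw [← e1, ← e2] at h6
        exact h6)
    let iW : MGroup (Wr πq H) := mgroupWr πq hπq H
    let τ' : R ×ₗ Ω → R ×ₗ Ω := fun p => toLex ((ofLex p).1⁻¹, τ (ofLex p).2)
    have hd : ∀ a, a - π a ∈ D := hπ1
    let e' : A → R ×ₗ Ω := fun a => toLex (Multiplicative.ofAdd (P a), e ⟨a - π a, hd a⟩)
    refine ⟨n + 1, Wr πq H, iW, R ×ₗ Ω, inferInstance, instLActWr πq, τ', e',
      fun l => ⟨Multiplicative.ofAdd (c l), fun q => x (l, q)⟩, ?_, ?_, ?_, ?_, ?_⟩
    · exact xfin_false_succ n (wr_prd_z πq hπq H (xfin_pow _ n _ _ hX))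
    · intro a b hab
      change toLex (Multiplicative.ofAdd (P a), e ⟨a - π a, hd a⟩) <
        toLex (Multiplicative.ofAdd (P b), e ⟨b - π b, hd b⟩)
      rw [Prod.Lex.toLex_lt_toLex]
      rcases lt_trichotomy (π a) (π b) with h | h | h
      · exact Or.inl h
      · right
        refine ⟨?_, ?_⟩
        · change Multiplicative.ofAdd (P a) = Multiplicative.ofAdd (P b)
          rw [show P a = P b from Subtype.ext h]
        · apply he
          change a - π a < b - π b
          rw [h]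
          exact sub_lt_sub_right hab _
      · exfalso
        have h1 : (b - π b) - (a - π a) ∈ D := D.sub_mem (hd b) (hd a)
        have h2 : 0 < π a - π b := sub_pos.2 h
        have h3 : π a - π b < (b - π b) - (a - π a) := by
          have h4 : (b - π b) - (a - π a) = (π a - π b) + (b - a) := by abel
          rw [h4]
          exact lt_add_of_pos_right _ (sub_pos.2 hab)
        have h5 : π a - π b ∈ D := by
          apply hconv _ _ _ h1
          rw [abs_of_pos h2, abs_of_pos (h2.trans h3)]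
          exact h3.le
        rw [← hπ2, map_sub, hπ3, hπ3] at h5
        exact h2.ne' h5
    · intro h p
      change toLex ((h.fst * (ofLex p).1)⁻¹, τ (h.snd (πq (ofLex p).1) • (ofLex p).2)) =
        toLex (h.fst⁻¹ * (ofLex p).1⁻¹, st (h.snd (πq (ofLex p).1⁻¹)) • τ (ofLex p).2)
      have h1 : πq (ofLex p).1⁻¹ = πq (ofLex p).1 := by
        rw [map_inv]
        exact inv_eq_of_mul_eq_one_left (hπq _)
      rw [h1, hτ, mul_inv]
    · intro a
      change toLex (Multiplicative.ofAdd (P (-a)), e ⟨-a - π (-a), hd (-a)⟩) =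
        toLex ((Multiplicative.ofAdd (P a))⁻¹, τ (e ⟨a - π a, hd a⟩))
      rw [← hneg, ← ofAdd_neg]
      have h1 : P (-a) = - P a := Subtype.ext (map_neg π a)
      have h2 : (⟨-a - π (-a), hd (-a)⟩ : D) = -⟨a - π a, hd a⟩ := by
        apply Subtype.ext
        change -a - π (-a) = -(a - π a)
        rw [map_neg]
        abel
      rw [h1, h2]
    · intro l a b hab
      rw [Wr.smul_def]
      change toLex (Multiplicative.ofAdd (c l) * Multiplicative.ofAdd (P a),
        x (l, πq (Multiplicative.ofAdd (P a))) • e ⟨a - π a, hd a⟩) =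
        toLex (Multiplicative.ofAdd (P b), e ⟨b - π b, hd b⟩)
      rw [hx (l, πq (Multiplicative.ofAdd (P a))) ⟨a - π a, hd a⟩ ⟨b - π b, hd b⟩
        ⟨a, b, hab, rfl, rfl, rfl⟩, ← ofAdd_add, hc l a b hab]
      have h1 : P (b - a) + P a = P b := by
        apply Subtype.ext
        change π (b - a) + π a = π b
        rw [map_sub, sub_add_cancel]
      rw [h1]

end Claim5

end Pool.Agent.Lib.MP_67fdd1_al
end

section

section

set_option autoImplicit false
set_option linter.unusedVariables false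
set_option linter.unusedSectionVars false

namespace Pool.Agent.Lib.MP_67fdd1_al

open MGroup

section Prime'

variable {G : Type} [MGroup G]

/-- the order preserving anti-automorphism `x ↦ (x_*)⁻¹` -/
def pr (x : G) : G := (st x)⁻¹

theorem pr_mul (a b : G) : pr (a * b) = pr b * pr a := by
  unfold pr; rw [st_mul, mul_inv_rev]
theorem pr_pr (a : G) : pr (pr a) = a := by
  unfold pr; rw [st_inv, inv_inv, st_st]
theorem pr_one : pr (1 : G) = 1 := by
  unfold pr; rw [st_one, inv_one]
theorem pr_inv (a : G) : pr a⁻¹ = (pr a)⁻¹ := by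
  unfold pr; rw [st_inv]
theorem pr_sup (a b : G) : pr (a ⊔ b) = pr a ⊔ pr b := by
  unfold pr; rw [st_sup, inv_inf]
theorem pr_inf (a b : G) : pr (a ⊓ b) = pr a ⊓ pr b := by
  unfold pr; rw [st_inf, inv_sup]
theorem one_le_pr {a : G} (h : 1 ≤ a) : 1 ≤ pr a := by
  have := st_anti h
  rw [st_one] at this
  exact one_le_inv'.2 this

theorem disj_sup {a b : G} (h : a ⊓ b = 1) : a ⊔ b = a * b := by
  have h1 : a * (a ⊓ b)⁻¹ * b = a ⊔ b := by
    rw [inv_inf, mul_sup, mul_inv_cancel, sup_mul, one_mul, inv_mul_cancel_right, sup_comm]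
  rw [← h1, h, inv_one, mul_one]

theorem prime_disj (P : PSub G) {a b : G} (h : a ⊓ b = 1) : a ∈ P.H ∨ b ∈ P.H := by
  have h1 := disj_sup h
  have h2 : b ⊔ a = b * a := disj_sup (by rw [inf_comm]; exact h)
  have h3 := P.pr (a * b⁻¹)
  have e1 : a * b⁻¹ ⊔ 1 = a := by
    have : a * b⁻¹ ⊔ 1 = (a ⊔ b) * b⁻¹ := by rw [sup_mul, mul_inv_cancel]
    rw [this, h1, mul_inv_cancel_right]
  have e2 : (a * b⁻¹)⁻¹ ⊔ 1 = b := by
    have : (a * b⁻¹)⁻¹ ⊔ 1 = (b ⊔ a) * a⁻¹ := by
      rw [mul_inv_rev, inv_inv, sup_mul, mul_inv_cancel]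
    rw [this, h2, mul_inv_cancel_right]
  rwa [e1, e2] at h3

/-- The hypothesis: no copy of the double of the integers. -/
def NoDisj (G : Type) [MGroup G] : Prop := ∀ x : G, 1 ≤ x → x ⊓ pr x = 1 → x = 1

variable (hD : NoDisj G)
include hD

theorem prime_pr_pos (P : PSub G) (x : G) (hx : x ∈ P.H) (h1 : 1 ≤ x) : pr x ∈ P.H := by
  let c : G := x ⊓ pr x
  have hc1 : 1 ≤ c := le_inf h1 (one_le_pr h1)
  have hcx : c ≤ x := inf_le_left
  have hcP : c ∈ P.H := P.cl.conv hc1 hcx hx
  have hprc : pr c = c := by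
    change pr (x ⊓ pr x) = x ⊓ pr x
    rw [pr_inf, pr_pr, inf_comm]
  let w : G := (x * c⁻¹) ⊓ (c⁻¹ * x)
  have hw1 : 1 ≤ w := by
    refine le_inf ?_ ?_
    · rw [le_mul_inv_iff_mul_le, one_mul]; exact hcx
    · rw [le_inv_mul_iff_mul_le, mul_one]; exact hcx
  have hprw : pr w = (c⁻¹ * pr x) ⊓ (pr x * c⁻¹) := by
    change pr ((x * c⁻¹) ⊓ (c⁻¹ * x)) = _
    rw [pr_inf, pr_mul, pr_mul, pr_inv, hprc]
  have hww : w ⊓ pr w = 1 := by
    rw [hprw]
    change ((x * c⁻¹) ⊓ (c⁻¹ * x)) ⊓ ((c⁻¹ * pr x) ⊓ (pr x * c⁻¹)) = 1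
    have e1 : ((x * c⁻¹) ⊓ (c⁻¹ * x)) ⊓ ((c⁻¹ * pr x) ⊓ (pr x * c⁻¹)) =
        ((x * c⁻¹) ⊓ (pr x * c⁻¹)) ⊓ ((c⁻¹ * x) ⊓ (c⁻¹ * pr x)) := by ac_rfl
    rw [e1, ← inf_mul, ← mul_inf]
    change (c * c⁻¹) ⊓ (c⁻¹ * c) = 1
    rw [mul_inv_cancel, inv_mul_cancel, inf_idem]
  have hw : w = 1 := hD w hw1 hww
  rw [hw, pr_one] at hprw
  rcases prime_disj P hprw.symm with h | h
  · have := P.H.mul_mem hcP h
    rwa [mul_inv_cancel_left] at this
  · have := P.H.mul_mem h hcP
    rwa [inv_mul_cancel_right] at this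

theorem prime_st (P : PSub G) (x : G) (hx : x ∈ P.H) : st x ∈ P.H := by
  have h1 := prime_pr_pos hD P _ (P.cl.pos hx) le_sup_right
  have h2 := prime_pr_pos hD P _ (P.cl.pos (P.H.inv_mem hx)) le_sup_right
  have h3 : st x = (pr (x ⊔ 1))⁻¹ * pr (x⁻¹ ⊔ 1) := by
    conv_lhs => rw [← pos_neg_eq x]
    unfold pr
    rw [st_mul, st_inv, inv_inv]
  rw [h3]
  exact P.H.mul_mem (P.H.inv_mem h1) h2

theorem prime_pr (P : PSub G) (x : G) (hx : x ∈ P.H) : pr x ∈ P.H :=
  P.H.inv_mem (prime_st hD P x hx)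

theorem noA_normal (V : PSub G) (v : G) (hv : v ∈ V.H) (y : G) (hy : y ∈ cover V.H) :
    y⁻¹ * v * y ∈ V.H := by
  apply normal_of_trivial V _ v hv y hy
  refine sym_regular (trans_cos _) (prim_covSub V) ?_
  intro g a hga
  obtain ⟨u, rfl⟩ := ((covSub V).trace V).exists_rep a
  rw [PSub.smul_pt, MSub.trace_pt_eq, V.pt_eq] at hga ⊢
  rw [MSub.coe_mul, MSub.coe_st]
  rw [MSub.coe_mul] at hga
  generalize (covSub V).coe u = u at *
  generalize (covSub V).coe g = g at *
  have h1 : g ∈ (V.conj u).H := by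
    change g ∈ cj u V.H
    rw [mem_cj]
    have := V.H.inv_mem hga
    have e : (( g * u)⁻¹ * u)⁻¹ = u⁻¹ * g * u := by group
    rwa [e] at this
  have h2 := prime_st hD (V.conj u) g h1
  change st g ∈ cj u V.H at h2
  rw [mem_cj] at h2
  have := V.H.inv_mem h2
  have e : (u⁻¹ * st g * u)⁻¹ = (st g * u)⁻¹ * u := by group
  rwa [e] at this

theorem cover_st (V : PSub G) (x : G) (hx : x ∈ cover V.H) : st x ∈ cover V.H :=
  prime_st hD (V.up (cover V.H) (isCL_cover _) (le_cover _)) x hx

theorem cover_pr (V : PSub G) (x : G) (hx : x ∈ cover V.H) : pr x ∈ cover V.H :=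
  Subgroup.inv_mem _ (cover_st hD V x hx)

theorem noA_pt_pr (V : PSub G) (x : G) (hx : x ∈ cover V.H) : V.pt x = V.pt (pr x) := by
  have key : ∀ a ∈ cover V.H, ∀ b ∈ cover V.H, V.rel a b → V.rel (pr a) (pr b) := by
    intro a ha b hb h
    unfold PSub.rel at *
    have h1 := prime_pr hD V _ h
    rw [pr_sup, pr_one, pr_mul, pr_inv] at h1
    have h2 := noA_normal hD V _ h1 (pr b) (cover_pr hD V b hb)
    rw [conj_sup_one] at h2
    have e : (pr b)⁻¹ * (pr a * (pr b)⁻¹) * pr b = (pr b)⁻¹ * pr a := by group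
    rwa [e] at h2
  have hx' := cover_pr hD V x hx
  rcases V.rel_total x (pr x) with h | h
  · have h2 := key _ hx _ hx' h
    rw [pr_pr] at h2
    exact V.rel_antisymm h h2
  · have h2 := key _ hx' _ hx h
    rw [pr_pr] at h2
    exact V.rel_antisymm h2 h

theorem mem_cover_conj (V : PSub G) (h x : G) (hx : x ∈ cover V.H) :
    h * x * h⁻¹ ∈ cover (V.conj h).H := by
  unfold cover
  rw [Subgroup.mem_sInf]
  rintro W ⟨hW, hVW⟩
  have h1 : V.H < cj h⁻¹ W := by
    refine lt_of_le_of_ne ?_ ?_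
    · intro v hv
      rw [mem_cj, inv_inv]
      apply hVW.le
      change h * v * h⁻¹ ∈ cj h V.H
      rw [mem_cj]
      have e : h⁻¹ * (h * v * h⁻¹) * h = v := by group
      rwa [e]
    · intro heq
      apply hVW.ne
      apply le_antisymm hVW.le
      intro w hw
      change w ∈ cj h V.H
      rw [mem_cj, heq, mem_cj, inv_inv]
      have e : h * (h⁻¹ * w * h) * h⁻¹ = w := by group
      rwa [e]
  have h2 : x ∈ cj h⁻¹ W := cover_le (isCL_cj hW _) h1 hx
  rwa [mem_cj, inv_inv] at h2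

theorem noA_triv (V : PSub G) (x : G) (hx : x ∈ cover V.H) (h : G) :
    V.pt ((pr h * h)⁻¹ * x * (pr h * h)) = V.pt x := by
  have h0 := cover_st hD V x hx
  have h1 := noA_pt_pr hD (V.conj h) _ (mem_cover_conj hD V h _ h0)
  rw [PSub.pt_eq] at h1
  change _ ∈ cj h V.H at h1
  rw [mem_cj] at h1
  have e1 : h⁻¹ * ((h * st x * h⁻¹)⁻¹ * pr (h * st x * h⁻¹)) * h =
      pr x * ((pr h * h)⁻¹ * x * (pr h * h))⁻¹ := by
    unfold pr
    simp only [st_mul, st_inv, st_st, mul_inv_rev, inv_inv]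
    group
  rw [e1] at h1
  have h2 := noA_normal hD V _ (V.H.inv_mem h1) (pr x) (cover_pr hD V x hx)
  have e2 : (pr x)⁻¹ * (pr x * ((pr h * h)⁻¹ * x * (pr h * h))⁻¹)⁻¹ * pr x =
      (pr x)⁻¹ * ((pr h * h)⁻¹ * x * (pr h * h)) := by group
  rw [e2, ← V.pt_eq, ← noA_pt_pr hD V x hx] at h2
  exact h2.symm

theorem noA_nz (P : PSub G) (h u : G) (hu : u ∈ P.H) :
    (pr h * h)⁻¹ * u * (pr h * h) ∈ P.H ∧ (pr h * h) * u * (pr h * h)⁻¹ ∈ P.H := by
  have key : ∀ k u : G, u ∈ P.H → k⁻¹ * st k * u * (k⁻¹ * st k)⁻¹ ∈ P.H := by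
    intro k u hu
    have h1 : k * st u * k⁻¹ ∈ (P.conj k).H := by
      change _ ∈ cj k P.H
      rw [mem_cj]
      have e : k⁻¹ * (k * st u * k⁻¹) * k = st u := by group
      rw [e]
      exact prime_st hD P u hu
    have h2 := prime_st hD (P.conj k) _ h1
    change _ ∈ cj k P.H at h2
    rw [mem_cj, st_mul, st_mul, st_st, st_inv] at h2
    have e : k⁻¹ * (st k * u * (st k)⁻¹) * k = k⁻¹ * st k * u * (k⁻¹ * st k)⁻¹ := by group
    rwa [e] at h2
  constructor
  · have h1 := key h u hu
    have e : h⁻¹ * st h * u * (h⁻¹ * st h)⁻¹ = (pr h * h)⁻¹ * u * (pr h * h) := by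
      unfold pr; group
    rwa [e] at h1
  · have h1 := key (st h) u hu
    rw [st_st] at h1
    exact h1

end Prime'

section S

variable (G : Type) [MGroup G]

/-- The subgroup generated by the elements `x' x`. -/
def Sg : Subgroup G := Subgroup.closure {s | ∃ h : G, s = pr h * h}

variable {G}

theorem pr_mul_self_mem (h : G) : pr h * h ∈ Sg G := Subgroup.subset_closure ⟨h, rfl⟩

variable (hD : NoDisj G)
include hD

theorem Sg_nz (s : G) (hs : s ∈ Sg G) : ∀ (P : PSub G) (u : G), u ∈ P.H →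
    s⁻¹ * u * s ∈ P.H ∧ s * u * s⁻¹ ∈ P.H := by
  unfold Sg at hs
  induction hs using Subgroup.closure_induction with
  | mem s hs =>
    obtain ⟨h, rfl⟩ := hs
    intro P u hu
    exact noA_nz hD P h u hu
  | one => intro P u hu; simpa using hu
  | mul s t _ _ ihs iht =>
    intro P u hu
    constructor
    · have := (iht P _ (ihs P u hu).1).1
      have e : t⁻¹ * (s⁻¹ * u * s) * t = (s * t)⁻¹ * u * (s * t) := by group
      rwa [e] at this
    · have := (ihs P _ (iht P u hu).2).2
      have e : s * (t * u * t⁻¹) * s⁻¹ = (s * t) * u * (s * t)⁻¹ := by group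
      rwa [e] at this
  | inv s _ ih =>
    intro P u hu
    have := ih P u hu
    rw [inv_inv]
    exact ⟨this.2, this.1⟩

theorem Sg_triv (s : G) (hs : s ∈ Sg G) : ∀ (V : PSub G) (x : G), x ∈ cover V.H →
    V.pt (s⁻¹ * x * s) = V.pt x := by
  have hcov : ∀ s ∈ Sg G, ∀ (V : PSub G) (x : G), x ∈ cover V.H → s⁻¹ * x * s ∈ cover V.H ∧
      s * x * s⁻¹ ∈ cover V.H := fun s hs V x hx =>
    Sg_nz hD s hs (V.up (cover V.H) (isCL_cover _) (le_cover _)) x hx
  have hs0 := hs
  unfold Sg at hs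
  induction hs using Subgroup.closure_induction with
  | mem s hs =>
    obtain ⟨h, rfl⟩ := hs
    intro V x hx
    exact noA_triv hD V x hx h
  | one => intro V x hx; simp
  | mul s t hs ht ihs iht =>
    intro V x hx
    have h1 := iht ht V _ (hcov s hs V x hx).1
    have e : t⁻¹ * (s⁻¹ * x * s) * t = (s * t)⁻¹ * x * (s * t) := by group
    rw [← e, h1, ihs hs V x hx]
  | inv s hs ih =>
    intro V x hx
    have h1 := ih hs V _ (hcov s hs V x hx).2
    have e : s⁻¹ * (s * x * s⁻¹) * s = x := by group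
    rw [e] at h1
    rw [inv_inv]
    exact h1.symm

theorem not_mem_sq (V : PSub G) (c : G) (hc : c ∉ V.H) : c * c ∉ V.H := by
  intro h
  have h1 : c • V.pt 1 ≠ V.pt 1 := by
    rw [V.smul_pt, mul_one, ne_eq, V.pt_eq, mul_one]
    intro h2
    exact hc (by simpa using V.H.inv_mem h2)
  have h2 : c • c • V.pt 1 = V.pt 1 := by
    rw [V.smul_pt, V.smul_pt, mul_one, V.pt_eq, mul_one]
    exact V.H.inv_mem h
  rcases lt_or_gt_of_ne h1 with h3 | h3
  · have h4 := (smul_lt_iff c _ _).2 h3
    rw [h2] at h4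
    exact absurd (h3.trans h4) (lt_irrefl _)
  · have h4 := (smul_lt_iff c _ _).2 h3
    rw [h2] at h4
    exact absurd (h3.trans h4) (lt_irrefl _)

theorem gen_comm (h k : G) : (pr h * h) * (pr k * k) = (pr k * k) * (pr h * h) := by
  have hs := pr_mul_self_mem h
  have ht := pr_mul_self_mem k
  have es : st (pr h * h) = (pr h * h)⁻¹ := by
    unfold pr; rw [st_mul, st_inv, st_st]; group
  have et : st (pr k * k) = (pr k * k)⁻¹ := by
    unfold pr; rw [st_mul, st_inv, st_st]; group
  generalize pr h * h = s at *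
  generalize pr k * k = t at *
  by_contra hne
  have hc : s⁻¹ * t⁻¹ * s * t ≠ 1 := by
    intro h1
    apply hne
    have : t * s * (s⁻¹ * t⁻¹ * s * t) = s * t := by group
    rw [h1, mul_one] at this
    exact this.symm
  obtain ⟨V, hV1, hV2⟩ := exists_prime_value _ hc
  set c := s⁻¹ * t⁻¹ * s * t with hcdef
  have hcc : c ∈ cover V.H := by
    unfold cover
    rw [Subgroup.mem_sInf]
    exact fun W hW => hV2 W hW.1 hW.2
  have hstc : st c = (t * s) * c * (t * s)⁻¹ := by
    rw [hcdef, st_mul, st_mul, st_mul, st_inv, st_inv, es, et]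
    group
  have h1 := Sg_triv hD (t * s)⁻¹ ((Sg G).inv_mem ((Sg G).mul_mem ht hs)) V c hcc
  rw [inv_inv, ← hstc] at h1
  have h2 := noA_pt_pr hD V c hcc
  rw [V.pt_eq] at h1
  have h3 : (pr c)⁻¹ * c ∈ V.H := V.pt_eq.1 h2.symm
  have e3 : (pr c)⁻¹ = st c := by unfold pr; rw [inv_inv]
  rw [e3] at h3
  -- `st c = c v₁`, so `c v₁ c ∈ V`
  have h4 := noA_normal hD V _ (V.H.inv_mem h1) c hcc
  have h5 := V.H.mul_mem h3 (V.H.inv_mem h4)
  apply not_mem_sq hD V c hV1
  have e5 : st c * c * (c⁻¹ * ((st c)⁻¹ * c)⁻¹ * c)⁻¹ = c * c := by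
    simp only [mul_inv_rev, inv_inv, mul_assoc, mul_inv_cancel_left]
  rw [e5] at h5
  exact h5

theorem Sg_comm (s : G) (hs : s ∈ Sg G) (t : G) (ht : t ∈ Sg G) : s * t = t * s := by
  unfold Sg at hs ht
  have h := Subgroup.isMulCommutative_closure (k := {s | ∃ h : G, s = pr h * h}) (by
    rintro _ ⟨h, rfl⟩ _ ⟨k, rfl⟩
    exact gen_comm hD h k)
  have := h.is_comm.comm ⟨s, hs⟩ ⟨t, ht⟩
  exact congrArg Subtype.val this

theorem Sg_st (s : G) (hs : s ∈ Sg G) : st s = s⁻¹ := by
  have hs0 := hs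
  unfold Sg at hs
  induction hs using Subgroup.closure_induction with
  | mem s hs =>
    obtain ⟨h, rfl⟩ := hs
    unfold pr; rw [st_mul, st_inv, st_st]; group
  | one => rw [st_one, inv_one]
  | mul s t hs ht ihs iht =>
    rw [st_mul, ihs hs, iht ht, ← mul_inv_rev, Sg_comm hD s hs t ht]
  | inv s hs ih => rw [st_inv, ih hs]

end S

end Pool.Agent.Lib.MP_67fdd1_al
end

section

set_option autoImplicit false
set_option linter.unusedVariables false
set_option linter.unusedSectionVars false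

namespace Pool.Agent.Lib.MP_67fdd1_al

open MGroup

section

variable {G : Type} [MGroup G]

/-- The normaliser of a prime. -/
def nzr (P : PSub G) : Subgroup G where
  carrier := {y | ∀ v ∈ P.H, y⁻¹ * v * y ∈ P.H ∧ y * v * y⁻¹ ∈ P.H}
  one_mem' := by intro v hv; simpa using hv
  mul_mem' := by
    intro a b ha hb v hv
    constructor
    · have := (hb _ (ha v hv).1).1
      have e : b⁻¹ * (a⁻¹ * v * a) * b = (a * b)⁻¹ * v * (a * b) := by group
      rwa [e] at this
    · have := (ha _ (hb v hv).2).2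
      have e : a * (b * v * b⁻¹) * a⁻¹ = (a * b) * v * (a * b)⁻¹ := by group
      rwa [e] at this
  inv_mem' := by
    intro a ha v hv
    rw [inv_inv]
    exact ⟨(ha v hv).2, (ha v hv).1⟩

theorem le_nzr (P : PSub G) : P.H ≤ nzr P := by
  intro y hy v hv
  exact ⟨P.H.mul_mem (P.H.mul_mem (P.H.inv_mem hy) hv) hy,
    P.H.mul_mem (P.H.mul_mem hy hv) (P.H.inv_mem hy)⟩

theorem exists_sigma (hD : NoDisj G) (P : PSub G) :
    ∃ (A : Type) (_ : AddCommGroup A) (_ : LinearOrder A) (_ : IsOrderedAddMonoid A) (σ : G → A),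
      (∀ s ∈ Sg G, ∀ t ∈ Sg G, σ (s * t) = σ s + σ t) ∧
      (∀ s ∈ Sg G, ∀ t ∈ Sg G, (σ s ≤ σ t ↔ P.rel s t)) ∧
      (∀ y : A, ∃ s ∈ Sg G, σ s = y) := by
  classical
  have hSC : ∀ s ∈ Sg G, s ∈ nzr P := fun s hs v hv => Sg_nz hD s hs P v hv
  let D : NPair G := ⟨P, nzr P, le_nzr P, fun v hv y hy => (hy v hv).1⟩
  let Sb : Subgroup D.R :=
    { carrier := {r | ∃ s : D.C, (s : G) ∈ Sg G ∧ D.q s = r}
      one_mem' := ⟨1, (Sg G).one_mem, D.q_one⟩
      mul_mem' := by
        rintro _ _ ⟨s, hs, rfl⟩ ⟨t, ht, rfl⟩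
        exact ⟨s * t, (Sg G).mul_mem hs ht, D.q_mul s t⟩
      inv_mem' := by
        rintro _ ⟨s, hs, rfl⟩
        exact ⟨s⁻¹, (Sg G).inv_mem hs, D.q_inv s⟩ }
  have hcomm : ∀ a b : Sb, a * b = b * a := by
    rintro ⟨_, s, hs, rfl⟩ ⟨_, t, ht, rfl⟩
    apply Subtype.ext
    change D.q s * D.q t = D.q t * D.q s
    rw [← D.q_mul, ← D.q_mul]
    congr 1
    exact Subtype.ext (Sg_comm hD _ hs _ ht)
  let cg : CommGroup Sb := { (inferInstance : Group Sb) with mul_comm := hcomm }
  have io : IsOrderedMonoid Sb := IsOrderedMonoid.mk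
    (fun a b h c => by
      have h' : (a : D.R) ≤ b := h
      have h2 := mul_le_mul_left h' (c : D.R)
      exact h2)
    (fun a b h c => by
      have h' : (a : D.R) ≤ b := h
      have h2 := mul_le_mul_right h' (c : D.R)
      exact h2)
  refine ⟨Additive Sb, inferInstance, inferInstance, inferInstance,
    fun g => if h : g ∈ Sg G then Additive.ofMul ⟨D.q ⟨g, hSC g h⟩, ⟨g, hSC g h⟩, h, rfl⟩ else 0,
    ?_, ?_, ?_⟩
  · intro s hs t ht
    beta_reduce
    rw [dif_pos hs, dif_pos ht, dif_pos ((Sg G).mul_mem hs ht)]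
    rfl
  · intro s hs t ht
    beta_reduce
    rw [dif_pos hs, dif_pos ht]
    exact D.q_le ⟨s, hSC s hs⟩ ⟨t, hSC t ht⟩
  · intro y
    obtain ⟨s, hs, hs'⟩ := (Additive.toMul y).2
    refine ⟨s, hs, ?_⟩
    beta_reduce
    rw [dif_pos hs]
    apply Additive.toMul.injective
    exact Subtype.ext hs'

theorem one_le_conj {a : G} (h : 1 ≤ a) (c : G) : 1 ≤ c⁻¹ * a * c := by
  rw [← sup_eq_left, ← conj_sup_one, sup_eq_left.2 h]

theorem exists_zeta (hD : NoDisj G) (P : PSub G) :
    ∃ (A : Type) (_ : AddCommGroup A) (_ : LinearOrder A) (_ : IsOrderedAddMonoid A)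
      (ζ : Cos P → A), StrictMono ζ ∧ (∀ g, ζ (P.pt (st g)) = - ζ (P.pt g)) ∧
      (∀ (f g k : G) (y : A) (n : ℕ),
        n • |(ζ (P.pt (f * g)) - ζ (P.pt g)) - (ζ (P.pt (f * k)) - ζ (P.pt k))| ≤
          |ζ (P.pt g) - ζ (P.pt k) - 2 • y|) := by
  obtain ⟨A, i1, i2, i3, σ, hσ1, hσ2, hσ3⟩ := exists_sigma hD P
  have hS1 : (1 : G) ∈ Sg G := (Sg G).one_mem
  have hσone : σ 1 = 0 := by
    have := hσ1 1 hS1 1 hS1
    rw [mul_one] at this
    exact (add_eq_left.1 this.symm)
  have hσinv : ∀ s ∈ Sg G, σ s⁻¹ = - σ s := by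
    intro s hs
    have := hσ1 s hs s⁻¹ ((Sg G).inv_mem hs)
    rw [mul_inv_cancel, hσone] at this
    exact (neg_eq_of_add_eq_zero_right this.symm).symm
  have hσeq : ∀ s ∈ Sg G, ∀ t ∈ Sg G, P.pt s = P.pt t → σ s = σ t := by
    intro s hs t ht h
    exact le_antisymm ((hσ2 s hs t ht).2 (P.rel_of_eq h)) ((hσ2 t ht s hs).2 (P.rel_of_eq h.symm))
  have hσpow : ∀ s ∈ Sg G, ∀ n : ℕ, σ (s ^ n) = n • σ s := by
    intro s hs n
    induction n with
    | zero => rw [pow_zero, zero_nsmul, hσone]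
    | succ n ih => rw [pow_succ, hσ1 _ ((Sg G).pow_mem hs n) _ hs, ih, succ_nsmul]
  let z : G → A := fun g => σ (pr g * g)
  have hz : ∀ g g' : G, P.pt g = P.pt g' → z g = z g' := by
    intro g g' h
    apply hσeq _ (pr_mul_self_mem g) _ (pr_mul_self_mem g')
    rw [P.pt_eq] at h ⊢
    set u := g⁻¹ * g' with hu
    have h1 : g' = g * u := by rw [hu, mul_inv_cancel_left]
    rw [h1, pr_mul]
    have h2 := (Sg_nz hD _ (pr_mul_self_mem g) P _ (prime_pr hD P u h)).1
    have h3 := P.H.mul_mem h2 h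
    have e : (pr g * g)⁻¹ * pr u * (pr g * g) * u = (pr g * g)⁻¹ * (pr u * pr g * (g * u)) := by
      group
    rwa [e] at h3
  have hst : ∀ g : G, z (st g) = - z g := by
    intro g
    change σ (pr (st g) * st g) = - σ (pr g * g)
    rw [← hσinv _ (pr_mul_self_mem g)]
    congr 1
    unfold pr
    rw [st_st]
    group
  -- the increment
  let E : G → G → G := fun g m => (pr g * g)⁻¹ * (pr (g * m) * (g * m))
  have hES : ∀ g m, E g m ∈ Sg G := fun g m =>
    (Sg G).mul_mem ((Sg G).inv_mem (pr_mul_self_mem g)) (pr_mul_self_mem _)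
  have hE1 : ∀ g m, E g m = ((pr g * g)⁻¹ * pr m * (pr g * g)) * m := by
    intro g m
    change (pr g * g)⁻¹ * (pr (g * m) * (g * m)) = _
    rw [pr_mul]
    group
  have hEz : ∀ g m, z (g * m) = z g + σ (E g m) := by
    intro g m
    change σ (pr (g * m) * (g * m)) = σ (pr g * g) + σ (E g m)
    rw [← hσ1 _ (pr_mul_self_mem g) _ (hES g m)]
    congr 1
    change _ = pr g * g * ((pr g * g)⁻¹ * (pr (g * m) * (g * m)))
    rw [mul_inv_cancel_left]
  have hEm : ∀ g m, 1 ≤ m → m ≤ E g m := by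
    intro g m hm
    rw [hE1]
    exact le_mul_of_one_le_left' (one_le_conj (one_le_pr hm) _)
  have hEpos : ∀ g m, 1 ≤ m → 0 ≤ σ (E g m) := by
    intro g m hm
    rw [← hσone, hσ2 _ hS1 _ (hES g m)]
    exact P.rel_of_le (hm.trans (hEm g m hm))
  -- replacing the larger element
  have hrep : ∀ g k : G, P.pt g ≤ P.pt k → ∃ m, 1 ≤ m ∧ P.pt (g * m) = P.pt k := by
    intro g k h
    refine ⟨g⁻¹ * (g ⊔ k), ?_, ?_⟩
    · rw [le_inv_mul_iff_mul_le, mul_one]
      exact le_sup_left
    · rw [mul_inv_cancel_left, P.pt_sup, max_eq_right h]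
  have hmono : ∀ g k : G, P.pt g < P.pt k → z g < z k := by
    intro g k h
    obtain ⟨m, hm, hmk⟩ := hrep g k h.le
    rw [← hz _ _ hmk, hEz]
    apply lt_add_of_pos_right
    refine lt_of_le_of_ne (hEpos g m hm) ?_
    intro h0
    apply h.ne
    rw [← hmk, P.pt_eq, inv_mul_cancel_left]
    have h1 : P.rel (E g m) 1 := by
      rw [← hσ2 _ (hES g m) _ hS1, hσone, ← h0]
    unfold PSub.rel at h1
    rw [inv_one, one_mul, sup_eq_left.2 (hm.trans (hEm g m hm))] at h1
    exact P.cl.conv hm (hEm g m hm) h1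
  -- the main estimate
  have hmain : ∀ f g m : G, 1 ≤ m → ∀ n : ℕ, n • |σ (E g m) - σ (E (f * g) m)| ≤ σ (E g m) := by
    intro f g m hm n
    by_cases hmP : m ∈ P.H
    · have h0 : ∀ g, σ (E g m) = 0 := by
        intro g
        rw [← hσone]
        apply hσeq _ (hES g m) _ hS1
        rw [P.pt_eq, mul_one, hE1]
        apply P.H.inv_mem
        exact P.H.mul_mem (Sg_nz hD _ (pr_mul_self_mem g) P _ (prime_pr hD P m hmP)).1 hmP
      rw [h0, h0, sub_zero, abs_zero, nsmul_zero]
    · obtain ⟨V0, hV1, hV2, hV3, hV4⟩ := exists_value {m} P.H P.cl (by simpa using hmP)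
      let V : PSub G := P.up V0 hV1 hV2
      have hmV : m ∉ V.H := by
        intro h
        apply hV3
        intro x hx
        rw [Finset.mem_coe, Finset.mem_singleton] at hx
        rw [hx]
        exact h
      have hmC : m ∈ cover V.H := by
        unfold cover
        rw [Subgroup.mem_sInf]
        intro W hW
        exact hV4 W hW.1 hW.2 (by simp)
      have hpC := cover_pr hD V m hmC
      have hw : ((pr g * g)⁻¹ * pr m * (pr g * g))⁻¹ *
          ((pr (f * g) * (f * g))⁻¹ * pr m * (pr (f * g) * (f * g))) ∈ V.H := by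
        rw [← V.pt_eq, Sg_triv hD _ (pr_mul_self_mem g) V _ hpC,
          Sg_triv hD _ (pr_mul_self_mem _) V _ hpC]
      have hu : (E g m)⁻¹ * E (f * g) m ∈ V.H := by
        have := noA_normal hD V _ hw m hmC
        rw [hE1, hE1]
        have e : m⁻¹ * (((pr g * g)⁻¹ * pr m * (pr g * g))⁻¹ *
          ((pr (f * g) * (f * g))⁻¹ * pr m * (pr (f * g) * (f * g)))) * m =
          ((pr g * g)⁻¹ * pr m * (pr g * g) * m)⁻¹ *
          ((pr (f * g) * (f * g))⁻¹ * pr m * (pr (f * g) * (f * g)) * m) := by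
          group
        rwa [e] at this
      have hσu : σ ((E g m)⁻¹ * E (f * g) m) = σ (E (f * g) m) - σ (E g m) := by
        rw [hσ1 _ ((Sg G).inv_mem (hES g m)) _ (hES _ m), hσinv _ (hES g m)]
        abel
      have key : ∀ w ∈ Sg G, w ∈ V.H → σ w ≤ σ (E g m) := by
        intro w hwS hwV
        rw [hσ2 _ hwS _ (hES g m)]
        rcases P.rel_total w (E g m) with h | h
        · exact h
        · exfalso
          apply hmV
          have h1 : V.rel (E g m) w := hV2 h
          have h2 : V.pt m ≤ V.pt 1 := by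
            have h3 : V.pt m ≤ V.pt (E g m) := V.pt_mono (hEm g m hm)
            have h4 : V.pt (E g m) ≤ V.pt w := V.pt_le_pt.2 h1
            have h5 : V.pt w = V.pt 1 := by
              rw [V.pt_eq, mul_one]
              exact V.H.inv_mem hwV
            rw [← h5]
            exact h3.trans h4
          have h3 : V.pt 1 = V.pt m := le_antisymm (V.pt_mono hm) h2
          rw [V.pt_eq, inv_one, one_mul] at h3
          exact h3
      set u := (E g m)⁻¹ * E (f * g) m with hudef
      have huS : u ∈ Sg G := (Sg G).mul_mem ((Sg G).inv_mem (hES g m)) (hES _ m)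
      rw [abs_sub_comm, ← hσu]
      rcases abs_choice (σ u) with h | h
      · rw [h, ← hσpow u huS n]
        exact key _ ((Sg G).pow_mem huS n) (V.H.pow_mem hu n)
      · rw [h, ← hσinv u huS, ← hσpow _ ((Sg G).inv_mem huS) n]
        exact key _ ((Sg G).pow_mem ((Sg G).inv_mem huS) n) (V.H.pow_mem (V.H.inv_mem hu) n)
  have hmain2 : ∀ f g k : G, ∀ n : ℕ,
      n • |(z (f * g) - z g) - (z (f * k) - z k)| ≤ |z g - z k| := by
    have key : ∀ f g k : G, ∀ n : ℕ, P.pt g ≤ P.pt k →
      n • |(z (f * g) - z g) - (z (f * k) - z k)| ≤ |z g - z k| := by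
      intro f g k n hgk
      obtain ⟨m, hm, hmk⟩ := hrep g k hgk
      have h1 : P.pt (f * g * m) = P.pt (f * k) := by
        rw [mul_assoc, ← P.smul_pt, hmk, P.smul_pt]
      rw [← hz _ _ hmk, ← hz _ _ h1, hEz (f * g) m, hEz g m]
      have e1 : z (f * g) - z g - (z (f * g) + σ (E (f * g) m) - (z g + σ (E g m))) =
        σ (E g m) - σ (E (f * g) m) := by abel
      have e2 : z g - (z g + σ (E g m)) = - σ (E g m) := by abel
      rw [e1, e2, abs_neg, abs_of_nonneg (hEpos g m hm)]
      exact hmain f g m hm n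
    intro f g k n
    rcases le_total (P.pt g) (P.pt k) with h | h
    · exact key f g k n h
    · have := key f k g n h
      rwa [abs_sub_comm, abs_sub_comm (z k)] at this
  have hzy : ∀ g : G, ∀ y ∈ Sg G, z (g * y) = z g + 2 • σ y := by
    intro g y hy
    have hpy : pr y = y := by
      unfold pr
      rw [Sg_st hD y hy, inv_inv]
    change σ (pr (g * y) * (g * y)) = σ (pr g * g) + 2 • σ y
    have e : pr (g * y) * (g * y) = y * (pr g * g) * y := by
      rw [pr_mul, hpy]
      group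
    rw [e, hσ1 _ ((Sg G).mul_mem hy (pr_mul_self_mem g)) _ hy, hσ1 _ hy _ (pr_mul_self_mem g),
      two_nsmul]
    abel
  choose rep hrep' using fun t : Cos P => P.exists_rep t
  have hζ : ∀ g, z (rep (P.pt g)) = z g := fun g => hz _ _ (hrep' _)
  refine ⟨A, i1, i2, i3, fun t => z (rep t), ?_, ?_, ?_⟩
  · intro s t hst
    apply hmono
    rw [hrep', hrep']
    exact hst
  · intro g
    beta_reduce
    rw [hζ, hζ, hst]
  · intro f g k y n
    beta_reduce
    rw [hζ, hζ, hζ, hζ]
    obtain ⟨s, hs, rfl⟩ := hσ3 y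
    have h1 := hmain2 f g (k * s) n
    rw [← mul_assoc, hzy _ _ hs, hzy _ _ hs] at h1
    have e1 : z (f * g) - z g - (z (f * k) + 2 • σ s - (z k + 2 • σ s)) =
      z (f * g) - z g - (z (f * k) - z k) := by abel
    have e2 : z g - (z k + 2 • σ s) = z g - z k - 2 • σ s := by abel
    rwa [e1, e2] at h1

open Classical in
/-- An `m`-group without a copy of the double of the integers belongs to the join of the powers of
the class `𝒵`. -/
theorem noA_mem (hD : NoDisj G) : XEps (fun _ => false) G := by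
  intro p hp
  by_contra hG
  unfold Holds at hG
  push Not at hG
  obtain ⟨v, hv⟩ := hG
  have hw : p.1.eval v * (p.2.eval v)⁻¹ ≠ 1 := fun h => hv (mul_inv_eq_one.1 h)
  obtain ⟨P, hP, _⟩ := exists_prime_value _ hw
  have hα : (p.1.eval v * (p.2.eval v)⁻¹) • P.pt 1 ≠ P.pt 1 := by
    rw [P.smul_pt, mul_one, ne_eq, P.pt_eq, mul_one]
    intro h
    exact hP (by simpa using P.H.inv_mem h)
  obtain ⟨T, hT, htrans⟩ := transfer p v (P.pt 1) hα
  obtain ⟨A, i1, i2, i3, ζ, hmono, hst, hcontr⟩ := exists_zeta hD P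
  let A0 : Submodule ℤ A := Submodule.span ℤ ((T.image ζ : Finset A) : Set A)
  have hTA : ∀ t ∈ T, ζ t ∈ A0 := fun t ht =>
    Submodule.subset_span (Finset.mem_coe.2 (Finset.mem_image_of_mem ζ ht))
  have hfin : Module.Finite ℤ A0 := Module.Finite.span_finset ℤ _
  obtain ⟨n, H, iH, Ω', iΩ, iA, τ, e, x, hX, he, hτ, hneg, hx⟩ := claim5 (Module.finrank ℤ A0) A0 rfl
    ℕ (fun i a b => ∃ g : G, ζ (P.pt g) = a ∧ ζ (P.pt (v i * g)) = b) (by
      rintro i a b a' b' y ⟨g, hg1, hg2⟩ ⟨g', hg1', hg2'⟩ k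
      have := hcontr (v i) g g' (y : A) k
      rw [hg1, hg2, hg1', hg2'] at this
      exact this)
  let e' : Cos P → Ω' := fun t => if h : ζ t ∈ A0 then e ⟨ζ t, h⟩ else e 0
  have he' : ∀ t (ht : t ∈ T), e' t = e ⟨ζ t, hTA t ht⟩ := by
    intro t ht
    exact dif_pos (hTA t ht)
  refine htrans H Ω' e' x ?_ ?_ ?_ (hp n H hX)
  · intro s hs t ht hst'
    rw [he' s hs, he' t ht]
    apply he
    exact hmono hst'
  · intro i t ht ht'
    rw [he' t ht, he' _ ht']
    apply hx
    obtain ⟨g, rfl⟩ := P.exists_rep t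
    exact ⟨g, rfl, rfl⟩
  · intro i t ht ht'
    rw [he' t ht, he' _ ht']
    obtain ⟨g, rfl⟩ := P.exists_rep t
    have h1 : x i • e (-⟨ζ (P.pt g), hTA _ ht⟩) = e (-⟨ζ (st (v i) • P.pt g), hTA _ ht'⟩) := by
      apply hx
      refine ⟨st g, ?_, ?_⟩
      · rw [hst]
        rfl
      · have : v i * st g = st (st (v i) * g) := by rw [st_mul, st_st]
        rw [this, hst]
        rfl
    have h2 : e ⟨ζ (P.pt g), hTA _ ht⟩ = τ (e (-⟨ζ (P.pt g), hTA _ ht⟩)) := by
      rw [← hneg, neg_neg]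
    have h3 : e ⟨ζ (st (v i) • P.pt g), hTA _ ht'⟩ =
        τ (e (-⟨ζ (st (v i) • P.pt g), hTA _ ht'⟩)) := by
      rw [← hneg, neg_neg]
    rw [h2, h3, ← h1, hτ]

end

end Pool.Agent.Lib.MP_67fdd1_al
end

section

set_option autoImplicit false
set_option linter.unusedVariables false
set_option linter.unusedSectionVars false

namespace Pool.Agent.Lib.MP_67fdd1_al

open MGroup

/-- Finitely many positive elements of a finitely generated totally ordered abelian group are made
positive by an integer-valued functional. -/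
theorem exists_functional : ∀ (N : ℕ) (A : Type) [AddCommGroup A] [LinearOrder A]
    [IsOrderedAddMonoid A] [Module.Finite ℤ A], Module.finrank ℤ A = N →
    ∀ F : Finset A, (∀ a ∈ F, 0 < a) → ∃ ψ : A →ₗ[ℤ] ℤ, ∀ a ∈ F, 0 < ψ a := by
  classical
  intro N
  induction N using Nat.strong_induction_on with
  | _ N ih =>
  intro A _ _ _ _ hN F
  induction F using Finset.induction_on with
  | empty => intro _; exact ⟨0, fun a ha => absurd ha (Finset.notMem_empty a)⟩
  | insert a₀ F ha₀ ihF =>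
    intro hF
    have h0 : 0 < a₀ := hF a₀ (Finset.mem_insert_self _ _)
    have hF' : ∀ a ∈ F, 0 < a := fun a ha => hF a (Finset.mem_insert_of_mem ha)
    rcases F.eq_empty_or_nonempty with rfl | ⟨u, hu⟩
    · have h1 : ¬ ∀ φ : Module.Dual ℤ A, φ a₀ = 0 := by
        rw [Module.forall_dual_apply_eq_zero_iff]
        exact h0.ne'
      push Not at h1
      obtain ⟨φ, hφ⟩ := h1
      rcases lt_or_gt_of_ne hφ with h2 | h2
      · refine ⟨-φ, ?_⟩
        intro a ha
        have : a = a₀ := by simpa using ha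
        rw [this, LinearMap.neg_apply]
        linarith
      · refine ⟨φ, ?_⟩
        intro a ha
        have : a = a₀ := by simpa using ha
        rw [this]
        exact h2
    · obtain ⟨ψ, hψ⟩ := ihF hF'
      by_cases hψ0 : 0 < ψ a₀
      · refine ⟨ψ, ?_⟩
        intro a ha
        rcases Finset.mem_insert.1 ha with rfl | h
        · exact hψ0
        · exact hψ a h
      · push Not at hψ0
        -- the kernel
        let K : Submodule ℤ A := LinearMap.ker ψ
        have hrank : Module.finrank ℤ K < N := by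
          have h1 := K.finrank_quotient_add_finrank
          have h2 : 0 < Module.finrank ℤ (A ⧸ K) := by
            rw [(ψ.quotKerEquivRange).finrank_eq]
            have : Nontrivial (LinearMap.range ψ) := by
              refine ⟨⟨⟨ψ u, ⟨u, rfl⟩⟩, 0, ?_⟩⟩
              intro h
              have := congrArg Subtype.val h
              exact (hψ u hu).ne' this
            exact Module.finrank_pos
          omega
        have hb : ∀ a : A, ψ a • a₀ - ψ a₀ • a ∈ K := by
          intro a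
          rw [LinearMap.mem_ker, map_sub, map_smul, map_smul, smul_eq_mul, smul_eq_mul]
          ring
        have hbpos : ∀ a ∈ F, 0 < ψ a • a₀ - ψ a₀ • a := by
          intro a ha
          have h1 : 0 < ψ a • a₀ := zsmul_pos h0 (hψ a ha)
          have h2 : 0 ≤ (-ψ a₀) • a := zsmul_nonneg (hF' a ha).le (by linarith)
          rw [neg_smul] at h2
          have := add_pos_of_pos_of_nonneg h1 h2
          rwa [← sub_eq_add_neg] at this
        obtain ⟨ψ₁, hψ₁⟩ := ih (Module.finrank ℤ K) hrank K rfl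
          (F.image fun a => (⟨ψ a • a₀ - ψ a₀ • a, hb a⟩ : K)) (by
            intro b hb'
            obtain ⟨a, ha, rfl⟩ := Finset.mem_image.1 hb'
            exact hbpos a ha)
        have hψ₁' : ∀ a ∈ F, 0 < ψ₁ ⟨ψ a • a₀ - ψ a₀ • a, hb a⟩ := fun a ha =>
          hψ₁ _ (Finset.mem_image_of_mem _ ha)
        rcases hψ0.lt_or_eq with hneg | hzero
        · -- `ψ a₀ < 0`
          let φ₂ : A →+ K := AddMonoidHom.mk' (fun a => (⟨ψ a • a₀ - ψ a₀ • a, hb a⟩ : K)) (by
                intro a b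
                apply Subtype.ext
                change ψ (a + b) • a₀ - ψ a₀ • (a + b) =
                  (ψ a • a₀ - ψ a₀ • a) + (ψ b • a₀ - ψ a₀ • b)
                rw [map_add, add_smul, smul_add]
                abel)
          let ψ₂ : A →ₗ[ℤ] ℤ := ψ₁.comp φ₂.toIntLinearMap
          have h2 : ∀ a ∈ F, 0 < ψ₂ a := hψ₁'
          have h20 : ψ₂ a₀ = 0 := by
            have : (⟨ψ a₀ • a₀ - ψ a₀ • a₀, hb a₀⟩ : K) = 0 := Subtype.ext (sub_self _)
            change ψ₁ ⟨ψ a₀ • a₀ - ψ a₀ • a₀, hb a₀⟩ = 0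
            rw [this, map_zero]
          let M : ℤ := ∑ a ∈ F, ψ a + 1
          have hM : ∀ a ∈ F, ψ a < M := by
            intro a ha
            have := Finset.single_le_sum (f := fun a => ψ a) (fun b hb => (hψ b hb).le) ha
            change ψ a < ∑ a ∈ F, ψ a + 1
            linarith
          have hM0 : 0 < M := (hψ u hu).trans (hM u hu)
          refine ⟨M • ψ₂ - ψ, ?_⟩
          intro a ha
          rw [LinearMap.sub_apply, LinearMap.smul_apply, smul_eq_mul]
          rcases Finset.mem_insert.1 ha with rfl | h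
          · rw [h20]
            linarith
          · have h3 := h2 a h
            have h4 := hM a h
            nlinarith
        · -- `ψ a₀ = 0`
          have ha0K : a₀ ∈ K := hzero
          have h1 : 0 < ψ₁ ⟨a₀, ha0K⟩ := by
            have h3 := hψ₁' u hu
            have h4 : (⟨ψ u • a₀ - ψ a₀ • u, hb u⟩ : K) = ψ u • ⟨a₀, ha0K⟩ := by
              apply Subtype.ext
              change ψ u • a₀ - ψ a₀ • u = ψ u • a₀
              rw [hzero, zero_smul, sub_zero]
            rw [h4, map_smul, smul_eq_mul] at h3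
            exact (mul_pos_iff_of_pos_left (hψ u hu)).1 h3
          have hc : ∀ x : A, ψ u • x - ψ x • u ∈ K := by
            intro x
            rw [LinearMap.mem_ker, map_sub, map_smul, map_smul, smul_eq_mul, smul_eq_mul]
            ring
          let φ₂ : A →+ K := AddMonoidHom.mk' (fun x => (⟨ψ u • x - ψ x • u, hc x⟩ : K)) (by
                intro a b
                apply Subtype.ext
                change ψ u • (a + b) - ψ (a + b) • u =
                  (ψ u • a - ψ a • u) + (ψ u • b - ψ b • u)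
                rw [map_add, add_smul, smul_add]
                abel)
          let ψ₂ : A →ₗ[ℤ] ℤ := ψ₁.comp φ₂.toIntLinearMap
          have h20 : 0 < ψ₂ a₀ := by
            have h4 : (⟨ψ u • a₀ - ψ a₀ • u, hc a₀⟩ : K) = ψ u • ⟨a₀, ha0K⟩ := by
              apply Subtype.ext
              change ψ u • a₀ - ψ a₀ • u = ψ u • a₀
              rw [hzero, zero_smul, sub_zero]
            change 0 < ψ₁ ⟨ψ u • a₀ - ψ a₀ • u, hc a₀⟩
            rw [h4, map_smul, smul_eq_mul]
            exact mul_pos (hψ u hu) h1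
          let M : ℤ := ∑ a ∈ F, |ψ₂ a| + 1
          have hM : ∀ a ∈ F, |ψ₂ a| < M := by
            intro a ha
            have := Finset.single_le_sum (f := fun a => |ψ₂ a|) (fun b hb => abs_nonneg _) ha
            change |ψ₂ a| < ∑ a ∈ F, |ψ₂ a| + 1
            linarith
          refine ⟨ψ₂ + M • ψ, ?_⟩
          intro a ha
          rw [LinearMap.add_apply, LinearMap.smul_apply, smul_eq_mul]
          rcases Finset.mem_insert.1 ha with rfl | h
          · rw [hzero]
            linarith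
          · have h3 := hψ a h
            have h4 := hM a h
            have h5 := neg_abs_le (ψ₂ a)
            have h6 := abs_nonneg (ψ₂ a)
            nlinarith

section

variable {G : Type} [LGroup G]

/-- The totally ordered abelian quotient of an abelian `ℓ`-group by a prime. -/
theorem exists_abq (hG : ∀ a b : G, a * b = b * a) (P : PSub G) :
    ∃ (A : Type) (_ : AddCommGroup A) (_ : LinearOrder A) (_ : IsOrderedAddMonoid A) (σ : G → A),
      (∀ s t : G, σ (s * t) = σ s + σ t) ∧ (∀ s t : G, (σ s ≤ σ t ↔ P.rel s t)) := by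
  let D : NPair G := ⟨P, ⊤, le_top, fun v hv y _ => by
    rw [hG y⁻¹ v, inv_mul_cancel_right]; exact hv⟩
  let cg : CommGroup D.R := { (inferInstance : Group D.R) with
    mul_comm := by
      intro a b
      obtain ⟨a, rfl⟩ := D.q_surj a
      obtain ⟨b, rfl⟩ := D.q_surj b
      change D.q a * D.q b = D.q b * D.q a
      rw [← D.q_mul, ← D.q_mul]
      congr 1
      exact Subtype.ext (hG _ _) }
  have io : IsOrderedMonoid D.R := IsOrderedMonoid.mk (fun a b h c => mul_le_mul_left h c)
      (fun a b h c => mul_le_mul_right h c)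
  refine ⟨Additive D.R, inferInstance, inferInstance, inferInstance,
    fun g => Additive.ofMul (D.q ⟨g, trivial⟩), ?_, ?_⟩
  · intro s t
    rfl
  · intro s t
    exact D.q_le ⟨s, trivial⟩ ⟨t, trivial⟩

open Classical in
/-- Finite pieces of the action of an abelian `ℓ`-group on the cosets of a prime are realised by
translations of the integers. -/
theorem abelian_local (hG : ∀ a b : G, a * b = b * a) (P : PSub G) (T : Finset (Cos P)) :
    ∃ (θ : G → ℤ) (e : Cos P → ℤ), StrictMonoOn e T ∧ (∀ g, θ g⁻¹ = - θ g) ∧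
      ∀ g : G, ∀ t ∈ T, g • t ∈ T → θ g + e t = e (g • t) := by
  obtain ⟨A, i1, i2, i3, σ, hσ1, hσ2⟩ := exists_abq hG P
  have hσone : σ 1 = 0 := by
    have := hσ1 1 1
    rw [mul_one] at this
    exact (add_eq_left.1 this.symm)
  have hσinv : ∀ s, σ s⁻¹ = - σ s := by
    intro s
    have := hσ1 s s⁻¹
    rw [mul_inv_cancel, hσone] at this
    exact (neg_eq_of_add_eq_zero_right this.symm).symm
  have hσeq : ∀ s t, P.pt s = P.pt t → σ s = σ t := by
    intro s t h
    exact le_antisymm ((hσ2 s t).2 (P.rel_of_eq h)) ((hσ2 t s).2 (P.rel_of_eq h.symm))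
  choose rep hrep using fun t : Cos P => P.exists_rep t
  let ζ : Cos P → A := fun t => σ (rep t)
  have hζ : ∀ g, ζ (P.pt g) = σ g := fun g => hσeq _ _ (hrep _)
  have hζmono : ∀ s t, s < t → ζ s < ζ t := by
    intro s t hst
    rw [← hrep s, ← hrep t] at hst
    rw [← not_le]
    intro h
    have h1 : P.rel (rep t) (rep s) := (hσ2 _ _).1 h
    exact absurd (P.pt_le_pt.2 h1) hst.not_ge
  have hζact : ∀ g t, ζ (g • t) = σ g + ζ t := by
    intro g t
    rw [← hrep t, P.smul_pt, hζ, hζ, hσ1]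
  let A0 : Submodule ℤ A := Submodule.span ℤ ((T.image ζ : Finset A) : Set A)
  have hTA : ∀ t ∈ T, ζ t ∈ A0 := fun t ht =>
    Submodule.subset_span (Finset.mem_coe.2 (Finset.mem_image_of_mem ζ ht))
  have hfin : Module.Finite ℤ A0 := Module.Finite.span_finset ℤ _
  let F : Finset A0 := ((T.attach ×ˢ T.attach).image fun p =>
    (⟨ζ p.1.1, hTA _ p.1.2⟩ : A0) - ⟨ζ p.2.1, hTA _ p.2.2⟩).filter (0 < ·)
  obtain ⟨ψ, hψ⟩ := exists_functional _ A0 rfl F (fun a ha => (Finset.mem_filter.1 ha).2)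
  refine ⟨fun g => if h : σ g ∈ A0 then ψ ⟨σ g, h⟩ else 0,
    fun t => if h : ζ t ∈ A0 then ψ ⟨ζ t, h⟩ else 0, ?_, ?_, ?_⟩
  · intro s hs t ht hst
    beta_reduce
    rw [dif_pos (hTA s hs), dif_pos (hTA t ht), ← sub_pos, ← map_sub]
    apply hψ
    rw [Finset.mem_filter]
    constructor
    · exact Finset.mem_image.2 ⟨(⟨t, ht⟩, ⟨s, hs⟩), by simp, rfl⟩
    · rw [sub_pos]
      exact hζmono s t hst
  · intro g
    beta_reduce
    by_cases h : σ g ∈ A0
    · have h' : σ g⁻¹ ∈ A0 := by rw [hσinv]; exact A0.neg_mem h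
      rw [dif_pos h, dif_pos h', ← map_neg]
      congr 1
      exact Subtype.ext (hσinv g)
    · have h' : σ g⁻¹ ∉ A0 := by
        intro h''
        apply h
        rw [hσinv] at h''
        simpa using A0.neg_mem h''
      rw [dif_neg h, dif_neg h', neg_zero]
  · intro g t ht hgt
    beta_reduce
    have h1 := hζact g t
    have h2 : σ g = ζ (g • t) - ζ t := by rw [h1]; abel
    have h3 : σ g ∈ A0 := by rw [h2]; exact A0.sub_mem (hTA _ hgt) (hTA _ ht)
    rw [dif_pos h3, dif_pos (hTA t ht), dif_pos (hTA _ hgt), ← map_add]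
    congr 1
    exact Subtype.ext h1.symm

end

/-- The integers, as a multiplicative group. -/
abbrev MZ : Type := Multiplicative ℤ

/-- Weinberg's theorem for abelian `m`-groups. -/
theorem weinberg_a {G : Type} [MGroup G] (hG : ClassA G) (p : MTerm × MTerm)
    (hp : Holds (Dbl MZ) p) : Holds G p := by
  by_contra hcon
  unfold Holds at hcon
  push Not at hcon
  obtain ⟨v, hv⟩ := hcon
  have hw : p.1.eval v * (p.2.eval v)⁻¹ ≠ 1 := fun h => hv (mul_inv_eq_one.1 h)
  obtain ⟨P, hP, _⟩ := exists_prime_value _ hw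
  have hα : (p.1.eval v * (p.2.eval v)⁻¹) • P.pt 1 ≠ P.pt 1 := by
    rw [P.smul_pt, mul_one, ne_eq, P.pt_eq, mul_one]
    intro h
    exact hP (by simpa using P.H.inv_mem h)
  obtain ⟨T, hT, htrans⟩ := transfer p v (P.pt 1) hα
  obtain ⟨θ, e, he, hθ, hact⟩ := abelian_local hG P T
  refine htrans (Dbl MZ) MZ (fun t => Multiplicative.ofAdd (e t))
    (fun i => Dbl.mk (Multiplicative.ofAdd (θ (v i))) (Multiplicative.ofAdd (θ (st (v i)))))
    ?_ ?_ ?_ hp
  · intro s hs t ht hst
    exact he hs ht hst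
  · intro i t ht ht'
    exact congrArg Multiplicative.ofAdd (hact (v i) t ht ht')
  · intro i t ht ht'
    exact congrArg Multiplicative.ofAdd (hact (st (v i)) t ht ht')

theorem classZ_comm {G : Type} [MGroup G] (hG : ClassZ G) (a b : G) : a * b = b * a := by
  have h := st_mul a b
  rw [hG, hG, hG, ← mul_inv_rev] at h
  exact inv_injective h

/-- Weinberg's theorem for the class `𝒵`. -/
theorem weinberg_z {G : Type} [MGroup G] (hG : ClassZ G) (p : MTerm × MTerm)
    (hp : @Holds MZ (mgroupInv MZ) p) : Holds G p := by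
  by_contra hcon
  unfold Holds at hcon
  push Not at hcon
  obtain ⟨v, hv⟩ := hcon
  have hw : p.1.eval v * (p.2.eval v)⁻¹ ≠ 1 := fun h => hv (mul_inv_eq_one.1 h)
  obtain ⟨P, hP, _⟩ := exists_prime_value _ hw
  have hα : (p.1.eval v * (p.2.eval v)⁻¹) • P.pt 1 ≠ P.pt 1 := by
    rw [P.smul_pt, mul_one, ne_eq, P.pt_eq, mul_one]
    intro h
    exact hP (by simpa using P.H.inv_mem h)
  obtain ⟨T, hT, htrans⟩ := transfer p v (P.pt 1) hα
  obtain ⟨θ, e, he, hθ, hact⟩ := abelian_local (classZ_comm hG) P T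
  refine @htrans MZ (mgroupInv MZ) MZ inferInstance instLActO (fun t => Multiplicative.ofAdd (e t))
    (fun i => Multiplicative.ofAdd (θ (v i))) ?_ ?_ ?_ hp
  · intro s hs t ht hst
    exact he hs ht hst
  · intro i t ht ht'
    exact congrArg Multiplicative.ofAdd (hact (v i) t ht ht')
  · intro i t ht ht'
    rw [hG (v i)] at ht' ⊢
    have := hact (v i)⁻¹ t ht ht'
    rw [hθ] at this
    exact congrArg Multiplicative.ofAdd this

end Pool.Agent.Lib.MP_67fdd1_al
end

section

set_option autoImplicit false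
set_option linter.unusedVariables false
set_option linter.unusedSectionVars false

namespace Pool.Agent.Lib.MP_67fdd1_al

open MGroup

section

variable {G : Type} [MGroup G]

theorem isMHom_of {H : Type} [MGroup H] (f : H → G) (h1 : ∀ a b, f (a * b) = f a * f b)
    (h2 : ∀ a b, f (a ⊔ b) = f a ⊔ f b) (h3 : ∀ a, f (st a) = st (f a)) : IsMHom f where
  map_mul := h1
  map_sup := h2
  map_inf := by
    intro a b
    have e : a ⊓ b = st (st a ⊔ st b) := by rw [st_sup, st_st, st_st]
    rw [e, h3, h2, h3, h3, st_sup, st_st, st_st]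
  map_st := h3

theorem one_lt_pow_of {x : G} (h1 : 1 ≤ x) (hx : x ≠ 1) (n : ℕ) (hn : 0 < n) : x ^ n ≠ 1 := by
  intro h
  apply hx
  apply le_antisymm _ h1
  rw [← h]
  calc x = x ^ 1 := (pow_one x).symm
    _ ≤ x ^ n := pow_le_pow_right' h1 hn

theorem zpow_mono_of {x : G} (h1 : 1 ≤ x) {m n : ℤ} (hmn : m ≤ n) : x ^ m ≤ x ^ n := by
  obtain ⟨k, rfl⟩ := Int.le.dest hmn
  rw [zpow_add, zpow_natCast]
  exact le_mul_of_one_le_right' (one_le_pow_of_one_le' h1 k)

theorem zpow_sup_of {x : G} (h1 : 1 ≤ x) (m n : ℤ) : x ^ (max m n) = x ^ m ⊔ x ^ n := by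
  rcases le_total m n with h | h
  · rw [max_eq_right h, sup_eq_right.2 (zpow_mono_of h1 h)]
  · rw [max_eq_left h, sup_eq_left.2 (zpow_mono_of h1 h)]

/-- Every nontrivial `m`-group contains a copy of the integers with `x_* = x⁻¹`. -/
theorem embed_z (g : G) (hg : g ≠ 1) :
    ∃ f : MZ → G, @IsMHom MZ G (mgroupInv MZ) _ f ∧ Function.Injective f := by
  obtain ⟨x, hx1, hx⟩ : ∃ x : G, 1 ≤ x ∧ x ≠ 1 := by
    by_contra hcon
    push Not at hcon
    apply hg
    rw [← pos_neg_eq g, hcon _ le_sup_right, hcon _ le_sup_right, inv_one, mul_one]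
  have hy1 : x ≤ x * pr x := le_mul_of_one_le_right' (one_le_pr hx1)
  have hpy : st (x * pr x) = (x * pr x)⁻¹ := by
    unfold pr
    rw [st_mul, st_inv, st_st, mul_inv_rev, inv_inv]
  set y := x * pr x with hy
  have hy0 : 1 ≤ y := hx1.trans hy1
  have hyne : y ≠ 1 := by
    intro h
    apply hx
    exact le_antisymm (h ▸ hy1) hx1
  refine ⟨fun n => y ^ (Multiplicative.toAdd n), ?_, ?_⟩
  · refine @isMHom_of G _ MZ (mgroupInv MZ) _ ?_ ?_ ?_
    · intro a b
      exact zpow_add y _ _
    · intro a b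
      exact zpow_sup_of hy0 _ _
    · intro a
      have hst : ∀ n : ℤ, st (y ^ n) = y ^ (-n) := by
        intro n
        have h1 : ∀ k : ℕ, st (y ^ k) = (y ^ k)⁻¹ := by
          intro k
          induction k with
          | zero => rw [pow_zero, st_one, inv_one]
          | succ k ih =>
            rw [pow_succ, st_mul, ih, hpy, ← mul_inv_rev, ← pow_succ', pow_succ]
        rcases Int.eq_nat_or_neg n with ⟨k, rfl | rfl⟩
        · rw [zpow_natCast, zpow_neg, zpow_natCast, h1]
        · rw [neg_neg, zpow_neg, zpow_natCast, st_inv, h1, inv_inv]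
      exact (hst _).symm
  · intro a b hab
    by_contra hne
    have key : ∀ m n : ℤ, m < n → y ^ m ≠ y ^ n := by
      intro m n hmn h
      have h1 : y ^ (n - m) = 1 := by rw [zpow_sub, h, mul_inv_cancel]
      obtain ⟨k, hk⟩ := Int.eq_ofNat_of_zero_le (sub_nonneg.2 hmn.le)
      rw [hk, zpow_natCast] at h1
      exact one_lt_pow_of hy0 hyne k (by omega) h1
    rcases lt_trichotomy (Multiplicative.toAdd a) (Multiplicative.toAdd b) with h | h | h
    · exact key _ _ h hab
    · exact hne (Multiplicative.toAdd.injective h)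
    · exact key _ _ h hab.symm

theorem disj_comm {a b : G} (h : a ⊓ b = 1) : a * b = b * a := by
  rw [← disj_sup h, sup_comm, disj_sup (by rw [inf_comm]; exact h)]

theorem disj_mul {a b c : G} (ha : 1 ≤ a) (hb : 1 ≤ b) (hc : 1 ≤ c) (h1 : a ⊓ b = 1)
    (h2 : a ⊓ c = 1) : a ⊓ (b * c) = 1 := by
  apply le_antisymm
  · refine (inf_mul_le ha hb hc).trans ?_
    rw [h1, h2, mul_one]
  · exact le_inf ha (one_le_mul hb hc)

theorem disj_pow {a b : G} (ha : 1 ≤ a) (hb : 1 ≤ b) (h : a ⊓ b = 1) (m n : ℕ) :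
    a ^ m ⊓ b ^ n = 1 := by
  have key : ∀ (a b : G), 1 ≤ a → 1 ≤ b → a ⊓ b = 1 → ∀ n : ℕ, a ⊓ b ^ n = 1 := by
    intro a b ha hb h n
    induction n with
    | zero => rw [pow_zero, inf_eq_right.2 ha]
    | succ n ih =>
      rw [pow_succ]
      exact disj_mul ha (one_le_pow_of_one_le' hb n) hb ih h
  have h1 := key a b ha hb h n
  rw [inf_comm] at h1
  have h2 := key (b ^ n) a (one_le_pow_of_one_le' hb n) ha h1 m
  rwa [inf_comm] at h2

/-- joins of monomials in two disjoint elements -/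
theorem disj_zpow_sup {x u : G} (hx : 1 ≤ x) (hu : 1 ≤ u) (h : x ⊓ u = 1) (a a' c c' : ℤ) :
    x ^ (max a a') * u ^ (max c c') = x ^ a * u ^ c ⊔ x ^ a' * u ^ c' := by
  have key : ∀ a a' c c' : ℤ, a' ≤ a →
      x ^ (max a a') * u ^ (max c c') = x ^ a * u ^ c ⊔ x ^ a' * u ^ c' := by
    intro a a' c c' haa
    rw [max_eq_left haa]
    rcases le_total c' c with hcc | hcc
    · rw [max_eq_left hcc, sup_eq_left.2]
      exact mul_le_mul' (zpow_mono_of hx haa) (zpow_mono_of hu hcc)
    · rw [max_eq_right hcc]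
      obtain ⟨m, rfl⟩ := Int.le.dest haa
      obtain ⟨n, rfl⟩ := Int.le.dest hcc
      have h1 := disj_sup (disj_pow hx hu h m n)
      have e1 : x ^ (a' + (m : ℤ)) * u ^ c = x ^ a' * x ^ m * u ^ c := by
        rw [zpow_add, zpow_natCast]
      have e2 : x ^ a' * u ^ (c + (n : ℤ)) = x ^ a' * u ^ n * u ^ c := by
        rw [add_comm, zpow_add, zpow_natCast, mul_assoc]
      have e3 : x ^ (a' + (m : ℤ)) * u ^ (c + (n : ℤ)) = x ^ a' * (x ^ m * u ^ n) * u ^ c := by
        rw [add_comm c, zpow_add, zpow_add, zpow_natCast, zpow_natCast]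
        group
      rw [e1, e2, e3, ← sup_mul, ← mul_sup, h1]
  rcases le_total a' a with h1 | h1
  · exact key a a' c c' h1
  · rw [max_comm a a', max_comm c c', key a' a c' c h1, sup_comm]

theorem st_zpow (x : G) (n : ℤ) : st (x ^ n) = (st x) ^ n := by
  have h1 : ∀ k : ℕ, st (x ^ k) = (st x) ^ k := by
    intro k
    induction k with
    | zero => rw [pow_zero, pow_zero, st_one]
    | succ k ih => rw [pow_succ, pow_succ, st_mul, ih]
  rcases Int.eq_nat_or_neg n with ⟨k, rfl | rfl⟩
  · rw [zpow_natCast, zpow_natCast, h1]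
  · rw [zpow_neg, zpow_neg, zpow_natCast, zpow_natCast, st_inv, h1]

/-- An `m`-group with an element disjoint from its mirror image contains the double of the
integers. -/
theorem embed_dbl (x : G) (hx1 : 1 ≤ x) (hx2 : x ⊓ pr x = 1) (hx : x ≠ 1) :
    ∃ f : Dbl MZ → G, IsMHom f ∧ Function.Injective f := by
  have hu1 : 1 ≤ pr x := one_le_pr hx1
  have hu : pr x ≠ 1 := by
    intro h
    apply hx
    rw [← pr_pr x, h, pr_one]
  have hcomm : Commute x (pr x) := disj_comm hx2
  have hstx : st x = (pr x)⁻¹ := by unfold pr; rw [inv_inv]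
  have hstu : st (pr x) = x⁻¹ := by unfold pr; rw [st_inv, st_st]
  set u := pr x with hudef
  let f : Dbl MZ → G := fun z =>
    x ^ (Multiplicative.toAdd z.fst) * u ^ (-(Multiplicative.toAdd z.snd))
  have hf : IsMHom f := by
    apply isMHom_of
    · intro a b
      change x ^ (Multiplicative.toAdd a.fst + Multiplicative.toAdd b.fst) *
        u ^ (-(Multiplicative.toAdd a.snd + Multiplicative.toAdd b.snd)) =
        (x ^ (Multiplicative.toAdd a.fst) * u ^ (-(Multiplicative.toAdd a.snd))) *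
        (x ^ (Multiplicative.toAdd b.fst) * u ^ (-(Multiplicative.toAdd b.snd)))
      rw [zpow_add, neg_add, zpow_add, mul_assoc, mul_assoc, ← mul_assoc (x ^ _) (u ^ _) (u ^ _),
        (hcomm.zpow_zpow (Multiplicative.toAdd b.fst) (-(Multiplicative.toAdd a.snd))).eq,
        mul_assoc]
    · intro a b
      change x ^ (max (Multiplicative.toAdd a.fst) (Multiplicative.toAdd b.fst)) *
        u ^ (-(min (Multiplicative.toAdd a.snd) (Multiplicative.toAdd b.snd))) =
        (x ^ (Multiplicative.toAdd a.fst) * u ^ (-(Multiplicative.toAdd a.snd))) ⊔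
        (x ^ (Multiplicative.toAdd b.fst) * u ^ (-(Multiplicative.toAdd b.snd)))
      have e : -(min (Multiplicative.toAdd a.snd) (Multiplicative.toAdd b.snd)) =
        max (-(Multiplicative.toAdd a.snd)) (-(Multiplicative.toAdd b.snd)) := by
        rw [max_neg_neg]
      rw [e]
      exact disj_zpow_sup hx1 hu1 hx2 _ _ _ _
    · intro a
      change x ^ (Multiplicative.toAdd a.snd) * u ^ (-(Multiplicative.toAdd a.fst)) =
        st (x ^ (Multiplicative.toAdd a.fst) * u ^ (-(Multiplicative.toAdd a.snd)))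
      rw [st_mul, st_zpow, st_zpow, hstx, hstu, inv_zpow', inv_zpow', neg_neg]
      exact (hcomm.zpow_zpow _ _).eq
  refine ⟨f, hf, ?_⟩
  have hfac : ∀ m n : ℤ, 0 ≤ m → 0 ≤ n → x ^ m * u ^ n = 1 → m = 0 ∧ n = 0 := by
    intro m n hm hn hmn
    obtain ⟨k, rfl⟩ := Int.eq_ofNat_of_zero_le hm
    obtain ⟨l, rfl⟩ := Int.eq_ofNat_of_zero_le hn
    rw [zpow_natCast, zpow_natCast] at hmn
    have h1 : (1 : G) ≤ x ^ k := one_le_pow_of_one_le' hx1 k
    have h2 : (1 : G) ≤ u ^ l := one_le_pow_of_one_le' hu1 l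
    have h3 : x ^ k = 1 := by
      apply le_antisymm _ h1
      rw [← hmn]
      exact le_mul_of_one_le_right' h2
    have h4 : u ^ l = 1 := by rwa [h3, one_mul] at hmn
    constructor
    · by_contra hk
      exact one_lt_pow_of hx1 hx k (by omega) h3
    · by_contra hl
      exact one_lt_pow_of hu1 hu l (by omega) h4
  have hf1 : f 1 = 1 := by
    change x ^ (0 : ℤ) * u ^ (-(0 : ℤ)) = 1
    simp
  have hker : ∀ z : Dbl MZ, f z = 1 → z = 1 := by
    intro z hz
    have h1 : f (z ⊔ 1) = 1 := by rw [hf.map_sup, hz, hf1, sup_idem]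
    have h2 : f (z ⊓ 1) = 1 := by rw [hf.map_inf, hz, hf1, inf_idem]
    change x ^ (max (Multiplicative.toAdd z.fst) 0) *
        u ^ (-(min (Multiplicative.toAdd z.snd) 0)) = 1 at h1
    change x ^ (min (Multiplicative.toAdd z.fst) 0) *
        u ^ (-(max (Multiplicative.toAdd z.snd) 0)) = 1 at h2
    have h3 := hfac _ _ (le_max_right _ _) (by
      have := min_le_right (Multiplicative.toAdd z.snd) (0 : ℤ)
      omega) h1
    have h2' : x ^ (-(min (Multiplicative.toAdd z.fst) 0)) *
        u ^ ((max (Multiplicative.toAdd z.snd) 0)) = 1 := by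
      have e := congrArg (fun w => w⁻¹) h2
      simp only [mul_inv_rev, inv_one, ← zpow_neg, neg_neg] at e
      rw [(hcomm.zpow_zpow _ _).eq]
      exact e
    have h4 := hfac _ _ (by
      have := min_le_right (Multiplicative.toAdd z.fst) (0 : ℤ)
      omega) (le_max_right _ _) h2'
    apply Dbl.ext
    · apply Multiplicative.toAdd.injective
      change Multiplicative.toAdd z.fst = 0
      omega
    · apply Multiplicative.toAdd.injective
      change Multiplicative.toAdd z.snd = 0
      omega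
  intro a b hab
  have h1 : f (a * b⁻¹) = 1 := by
    have h2 : f b⁻¹ = (f b)⁻¹ := by
      apply eq_inv_of_mul_eq_one_left
      rw [← hf.map_mul, inv_mul_cancel, hf1]
    rw [hf.map_mul, h2, hab, mul_inv_cancel]
  have h2 := hker _ h1
  exact mul_inv_eq_one.1 h2

end

theorem xfin_sub {X : MClass} (b : Bool) (hid : ∀ (G : Type) [MGroup G], Prd X X G → X G)
    (hdig : ∀ (G : Type) [MGroup G], Digit b G → X G) (n : ℕ) :
    ∀ (G : Type) [MGroup G], XFin (fun _ => b) n G → X G := by
  induction n with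
  | zero => exact hdig
  | succ n ih =>
    intro G _ h
    exact hid G (prd_mono ih hdig G h)

theorem xeps_sub {X : MClass} (hX : IsVariety X) (b : Bool)
    (h : ∀ (n : ℕ) (G : Type) [MGroup G], XFin (fun _ => b) n G → X G)
    (G : Type) [MGroup G] (hG : XEps (fun _ => b) G) : X G := by
  obtain ⟨E, hE⟩ := hX
  rw [hE]
  intro p hp
  apply hG p
  intro n H _ hH
  exact (hE H).1 (h n H hH) p hp

/-- Every idempotent variety of `m`-groups other than the trivial one and the variety of all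
`m`-groups is the join of the powers of `𝒵`, or the join of the powers of `𝒜`. -/
theorem main (X : MClass) (hX : IsVariety X)
    (hid : ∀ (G : Type) [MGroup G], Prd X X G ↔ X G)
    (hE : ¬ ∀ (G : Type) [MGroup G], X G → ∀ g : G, g = 1)
    (hall : ¬ ∀ (G : Type) [MGroup G], X G) :
    ∃ b : Bool, ∀ (G : Type) [MGroup G], X G ↔ XEps (fun _ => b) G := by
  have hX' := hX
  obtain ⟨E, hE'⟩ := hX'
  -- the integers are in `X`
  push Not at hE
  obtain ⟨G₀, iG₀, hG₀, g₀, hg₀⟩ := hE
  obtain ⟨f₀, hf₀, hf₀'⟩ := embed_z g₀ hg₀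
  have hZ : @X MZ (mgroupInv MZ) := @variety_sub X hX G₀ MZ _ (mgroupInv MZ) f₀ hf₀ hf₀' hG₀
  have hZs : ∀ (G : Type) [MGroup G], ClassZ G → X G := by
    intro G _ hG
    rw [hE']
    intro p hp
    exact weinberg_z hG p ((@hE' MZ (mgroupInv MZ)).1 hZ p hp)
  by_cases hcase : ∀ (G : Type) [MGroup G], X G → NoDisj G
  · refine ⟨false, fun G _ => ⟨fun h => noA_mem (hcase G h), ?_⟩⟩
    apply xeps_sub hX
    apply xfin_sub false (fun G _ => (hid G).1)
    intro G _ hG
    apply hZs
    simpa [Digit] using hG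
  · push Not at hcase
    obtain ⟨G₁, iG₁, hG₁, hnd⟩ := hcase
    unfold NoDisj at hnd
    push Not at hnd
    obtain ⟨x, hx1, hx2, hx3⟩ := hnd
    obtain ⟨f₁, hf₁, hf₁'⟩ := embed_dbl x hx1 hx2 hx3
    have hA : X (Dbl MZ) := variety_sub hX f₁ hf₁ hf₁' hG₁
    have hAs : ∀ (G : Type) [MGroup G], ClassA G → X G := by
      intro G _ hG
      rw [hE']
      intro p hp
      exact weinberg_a hG p ((hE' _).1 hA p hp)
    push Not at hall
    obtain ⟨K, iK, hK⟩ := hall
    rw [hE'] at hK
    push Not at hK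
    obtain ⟨p, hp, hpK⟩ := hK
    refine ⟨true, fun G _ => ⟨fun h => ?_, ?_⟩⟩
    · apply normal_valued_mem
      intro V v hv y hy
      exact cover_normal p ((hE' G).1 h p hp) K hpK V v hv y hy
    · apply xeps_sub hX
      apply xfin_sub true (fun G _ => (hid G).1)
      intro G _ hG
      apply hAs
      simpa [Digit] using hG

end Pool.Agent.Lib.MP_67fdd1_al
end
end
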